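import Pool.Agent.AMU.Galois

open Matrix

namespace Pool.Agent.AMU

lemma dvd_factorial_of_totient_le {s D : ℕ} (hs : 0 < s) (h : s.totient ≤ D) :
    s ∣ (2 * D).factorial := by
  rw [Nat.dvd_iff_prime_pow_dvd_dvd]
  intro p k hp hk
  rcases k with _ | k
  · simp
  · have h1 : (p ^ (k + 1)).totient ∣ s.totient := Nat.totient_dvd_of_dvd hk
    have h2 : (p ^ (k + 1)).totient ≤ s.totient := Nat.le_of_dvd (Nat.totient_pos.2 hs) h1
    rw [Nat.totient_prime_pow_succ hp] at h2
    have h3 : p ^ (k + 1) ≤ 2 * D := by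
      have h4 : p ≤ 2 * (p - 1) := by have := hp.two_le; omega
      calc p ^ (k + 1) = p ^ k * p := pow_succ _ _
        _ ≤ p ^ k * (2 * (p - 1)) := Nat.mul_le_mul_left _ h4
        _ = 2 * (p ^ k * (p - 1)) := by ring
        _ ≤ 2 * D := by omega
    exact Nat.dvd_factorial (pow_pos hp.pos _) h3

/-- Eigenvalues of finite order at a primitive `N`-th root of unity `A` have a bounded power which
is a power of `A`. -/
lemma exponent {n N : ℕ} (hN : 0 < N) {A : ℂ} (hA : IsPrimitiveRoot A N) (w : List (ℕ × Bool))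
    {l : ℂ} (hl : Eig (wordMat n A A⁻¹ w) l) (hlm : ∃ m, 0 < m ∧ l ^ m = 1) :
    ∃ a : ℕ, l ^ (2 * Fintype.card (Idx n)).factorial = A ^ a := by
  obtain ⟨m, hm, hlm⟩ := hlm
  have hl0 : l ≠ 0 := by
    rintro rfl
    rw [zero_pow (by omega)] at hlm
    exact zero_ne_one hlm
  have hAint : IsIntegral ℚ A := (hA.isIntegral hN).tower_top
  have hlint : IsIntegral ℤ l := eig_isIntegral hN hA.pow_eq_one w hl
  let E := IntermediateField.adjoin ℚ ({A} : Set ℂ)
  have hAE : A ∈ E := IntermediateField.mem_adjoin_simple_self ℚ A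
  have hlE : IsIntegral E l := hlint.tower_top
  let F := IntermediateField.adjoin E ({l} : Set ℂ)
  have hlF : l ∈ F := IntermediateField.mem_adjoin_simple_self E l
  have hfE : FiniteDimensional ℚ E := IntermediateField.adjoin.finiteDimensional hAint
  have hfF : FiniteDimensional E F := IntermediateField.adjoin.finiteDimensional hlE
  have hfQ : FiniteDimensional ℚ F := FiniteDimensional.trans ℚ E F
  have h1 : Module.finrank ℚ E = N.totient := by
    rw [IntermediateField.adjoin.finrank hAint, ← Polynomial.cyclotomic_eq_minpoly_rat hA hN,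
      Polynomial.natDegree_cyclotomic]
  have h2 : Module.finrank E F ≤ Fintype.card (Idx n) := by
    rw [IntermediateField.adjoin.finrank hlE]
    let a : E := ⟨A, hAE⟩
    have h3 : (wordMat n a a⁻¹ w).charpoly.map (algebraMap E ℂ) = (wordMat n A A⁻¹ w).charpoly := by
      rw [← Matrix.charpoly_map]
      have := wordMat_map (algebraMap E ℂ) n a a⁻¹ w
      rw [map_inv₀] at this
      congr 1
    have h4 : Polynomial.aeval l (wordMat n a a⁻¹ w).charpoly = 0 := by
      rw [Polynomial.aeval_def, ← Polynomial.eval_map, h3, Matrix.eval_charpoly]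
      exact (eig_iff_det _ _).1 hl
    have h5 : minpoly E l ∣ (wordMat n a a⁻¹ w).charpoly := minpoly.dvd E l h4
    have h6 := Polynomial.natDegree_le_of_dvd h5 (Matrix.charpoly_monic _).ne_zero
    rwa [Matrix.charpoly_natDegree_eq_dim] at h6
  have h7 : Module.finrank ℚ F ≤ N.totient * Fintype.card (Idx n) := by
    rw [← Module.finrank_mul_finrank ℚ E F, h1]
    exact Nat.mul_le_mul_left _ h2
  -- an element of `F` of order the least common multiple
  let aF : F := ⟨A, (algebraMap E F ⟨A, hAE⟩).2⟩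
  let lF : F := ⟨l, hlF⟩
  have hoA : orderOf aF = N := by
    have h8 : orderOf (algebraMap F ℂ aF) = orderOf aF :=
      orderOf_injective (algebraMap F ℂ).toMonoidHom (algebraMap F ℂ).injective aF
    rw [← h8]
    exact hA.eq_orderOf.symm
  have hol : orderOf lF = orderOf l := by
    have h8 : orderOf (algebraMap F ℂ lF) = orderOf lF :=
      orderOf_injective (algebraMap F ℂ).toMonoidHom (algebraMap F ℂ).injective lF
    rw [← h8]
    rfl
  have hol0 : 0 < orderOf l := orderOf_pos_iff.2 (isOfFinOrder_iff_pow_eq_one.2 ⟨m, hm, hlm⟩)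
  obtain ⟨z, -, hz⟩ := (Commute.all aF lF).exists_orderOf_eq_lcm
  rw [hoA, hol] at hz
  set L := Nat.lcm N (orderOf l) with hL
  have hL0 : 0 < L := Nat.lcm_pos hN hol0
  have hzp : IsPrimitiveRoot z L := by
    have := IsPrimitiveRoot.orderOf z
    rwa [hz] at this
  have h9 : L.totient ≤ Module.finrank ℚ F := by
    have h10 := minpoly.natDegree_le (A := ℚ) z
    rwa [← Polynomial.cyclotomic_eq_minpoly_rat hzp hL0, Polynomial.natDegree_cyclotomic] at h10
  obtain ⟨s, hs⟩ : N ∣ L := Nat.dvd_lcm_left _ _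
  have hs0 : 0 < s := Nat.pos_of_ne_zero (by rintro rfl; omega)
  have h11 : s.totient ≤ Fintype.card (Idx n) := by
    have h12 : N.totient * s.totient ≤ N.totient * Fintype.card (Idx n) :=
      (Nat.totient_super_multiplicative N s).trans (by rw [← hs]; exact h9.trans h7)
    exact Nat.le_of_mul_le_mul_left h12 (Nat.totient_pos.2 hN)
  obtain ⟨q, hq⟩ := dvd_factorial_of_totient_le hs0 h11
  have h13 : (l ^ s) ^ N = 1 := by
    rw [← pow_mul, mul_comm, ← hs]
    exact orderOf_dvd_iff_pow_eq_one.1 (Nat.dvd_lcm_right _ _)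
  have : NeZero N := ⟨hN.ne'⟩
  obtain ⟨b, -, hb⟩ := hA.eq_pow_of_pow_eq_one h13
  exact ⟨b * q, by rw [hq, pow_mul, ← hb, ← pow_mul]⟩

end Pool.Agent.AMU
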