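import Pool.Agent.AMU.Defs

open Matrix

namespace Pool.Agent.AMU

variable {R : Type*} [CommRing R]

section blk

variable {n : ℕ} (a b c d a' b' c' d' : Matrix (Idx n) (Idx n) R) (r : R)

lemma blk_mul : blk a b c d * blk a' b' c' d' =
    blk (a * a' + b * c') (a * b' + b * d') (c * a' + d * c') (c * b' + d * d') :=
  Matrix.fromBlocks_multiply a b c d a' b' c' d'

lemma blk_add : blk a b c d + blk a' b' c' d' = blk (a + a') (b + b') (c + c') (d + d') :=
  Matrix.fromBlocks_add a b c d a' b' c' d'

lemma blk_smul : r • blk a b c d = blk (r • a) (r • b) (r • c) (r • d) :=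
  Matrix.fromBlocks_smul r a b c d

lemma blk_one : (1 : Matrix (Idx (n + 1)) (Idx (n + 1)) R) = blk 1 0 0 1 :=
  (Matrix.fromBlocks_one (l := Idx n) (m := Idx n) (α := R)).symm

lemma blk_zero : (0 : Matrix (Idx (n + 1)) (Idx (n + 1)) R) = blk 0 0 0 0 :=
  (Matrix.fromBlocks_zero (l := Idx n) (m := Idx n) (n := Idx n) (o := Idx n) (α := R)).symm

lemma blk_trace : (blk a b c d).trace = a.trace + d.trace := by
  show ∑ i : Idx n ⊕ Idx n, Matrix.fromBlocks a b c d i i = _
  rw [Fintype.sum_sum_type]
  rfl

end blk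

lemma s_mul {n : ℕ} (a b : R) : (a • (1 : Matrix (Idx n) (Idx n) R)) * (b • 1) = (a * b) • 1 := by
  rw [smul_mul_smul_comm, one_mul]

lemma tl_last (n : ℕ) (y z : R) : tl (n + 2) y z n = tlLast n y z := by
  simp [tl]

lemma tl_of_ne {n i : ℕ} (h : i ≠ n) (y z : R) :
    tl (n + 2) y z i = blk (tl (n + 1) y z i) 0 0 (tl (n + 1) y z i) := by
  simp [tl, h]

lemma kinv_succ (n : ℕ) (y z : R) :
    kinv (n + 1) y z = blk (z • kinv n y z) 0 0 (y • kinv n y z) := rfl

lemma raise_succ (n : ℕ) (y z : R) :
    raise (n + 1) y z = blk (y • raise n y z) (kinv n y z) 0 (z • raise n y z) := rfl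

lemma clos_succ (n : ℕ) (y z : R) :
    clos (n + 1) y z = blk (-(y ^ 2) • clos n y z) 0 0 (-(z ^ 2) • clos n y z) := rfl

/-- `e² = δ e`. -/
lemma tl_mul_self : ∀ (n : ℕ) (y z : R) (i : ℕ), y * z = 1 →
    tl n y z i * tl n y z i = (-(y ^ 2) - z ^ 2) • tl n y z i
  | 0, y, z, i, h => by simp [tl]
  | 1, y, z, i, h => by simp [tl]
  | n + 2, y, z, i, h => by
    by_cases hi : i = n
    · subst hi
      rw [tl_last]
      unfold tlLast
      have h2 : z ^ 2 * y ^ 2 = 1 := by rw [← mul_pow, mul_comm z y, h, one_pow]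
      have h3 : (-(z ^ 2)) * (-(z ^ 2)) + 1 = (-(y ^ 2) - z ^ 2) * -(z ^ 2) := by
        linear_combination (-1 : R) * h2
      have h4 : 1 + (-(y ^ 2)) * (-(y ^ 2)) = (-(y ^ 2) - z ^ 2) * -(y ^ 2) := by
        linear_combination (-1 : R) * h2
      simp only [blk_mul, blk_smul, blk_add, Matrix.zero_mul, Matrix.mul_zero, Matrix.mul_one,
        Matrix.one_mul, add_zero, zero_add, smul_zero, s_mul, smul_smul]
      rw [← h3, ← h4]
      congr 1 <;> congr 1 <;> simp only [add_smul, sub_smul, neg_smul, one_smul] <;> abel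
    · rw [tl_of_ne hi, blk_mul, blk_smul, tl_mul_self (n + 1) y z i h]
      simp

/-- A diagonal operator with value `a` per bit `0` and `b` per bit `1`. -/
def diagOp (a b : R) : (n : ℕ) → Matrix (Idx n) (Idx n) R
  | 0 => 1
  | n + 1 => blk (a • diagOp a b n) 0 0 (b • diagOp a b n)

lemma diagOp_succ (a b : R) (n : ℕ) :
    diagOp a b (n + 1) = blk (a • diagOp a b n) 0 0 (b • diagOp a b n) := rfl

lemma kinv_eq (y z : R) : ∀ n, kinv n y z = diagOp z y n
  | 0 => rfl
  | n + 1 => by
    have h := kinv_eq y z n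
    rw [diagOp_succ, ← h]
    rfl

lemma clos_eq (y z : R) : ∀ n, clos n y z = diagOp (-(y ^ 2)) (-(z ^ 2)) n
  | 0 => rfl
  | n + 1 => by
    have h := clos_eq y z n
    rw [diagOp_succ, ← h]
    rfl

lemma diagOp_comm (a b y z : R) : ∀ (n i : ℕ),
    diagOp a b n * tl n y z i = tl n y z i * diagOp a b n
  | 0, i => by simp [tl]
  | 1, i => by simp [tl]
  | n + 2, i => by
    by_cases hi : i = n
    · subst hi
      rw [tl_last]
      unfold tlLast
      rw [diagOp_succ, diagOp_succ]
      simp only [blk_mul, blk_smul, blk_add, Matrix.zero_mul, Matrix.mul_zero, Matrix.mul_one,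
        Matrix.one_mul, add_zero, zero_add, smul_zero, smul_smul, Matrix.smul_mul,
        Matrix.mul_smul]
      congr 1 <;> congr 1 <;> congr 1 <;> ring
    · rw [tl_of_ne hi, diagOp_succ, blk_mul, blk_mul]
      have h := diagOp_comm a b y z (n + 1) i
      simp [h]

lemma raise_comm (y z : R) (h : y * z = 1) : ∀ (n i : ℕ),
    raise n y z * tl n y z i = tl n y z i * raise n y z
  | 0, i => by simp [tl]
  | 1, i => by simp [tl]
  | n + 2, i => by
    by_cases hi : i = n
    · subst hi
      rw [tl_last]
      unfold tlLast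
      rw [raise_succ, raise_succ, kinv_succ]
      have h1 : y ^ 2 * z = y := by linear_combination y * h
      have h2 : z ^ 2 * y = z := by linear_combination z * h
      simp only [blk_mul, blk_smul, blk_add, Matrix.zero_mul, Matrix.mul_zero, Matrix.mul_one,
        Matrix.one_mul, add_zero, zero_add, smul_zero, smul_smul, Matrix.smul_mul,
        Matrix.mul_smul]
      have k1 : -z ^ 2 * y + z = 0 := by linear_combination -h2
      have k2 : y + -y ^ 2 * z = 0 := by linear_combination -h1
      have k3 : y * -z ^ 2 + z = 0 := by linear_combination -h2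
      have k4 : y + z * -y ^ 2 = 0 := by linear_combination -h1
      congr 1 <;> congr 1 <;> first
        | (congr 1; ring1)
        | (rw [← add_smul, k1, zero_smul])
        | (rw [← add_smul, k2, zero_smul])
        | (rw [← add_smul, k3, zero_smul])
        | (rw [← add_smul, k4, zero_smul])
    · rw [tl_of_ne hi, raise_succ, blk_mul, blk_mul]
      have h1 := raise_comm y z h (n + 1) i
      have h2 : kinv (n + 1) y z * tl (n + 1) y z i = tl (n + 1) y z i * kinv (n + 1) y z := by
        rw [kinv_eq]; exact diagOp_comm _ _ _ _ _ _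
      simp [h1, h2]

/-- `e_i e_j = e_j e_i` for `|i - j| ≥ 2`. -/
lemma tl_far (y z : R) : ∀ (n i j : ℕ), i + 2 ≤ j →
    tl n y z i * tl n y z j = tl n y z j * tl n y z i
  | 0, i, j, _ => by simp [tl]
  | 1, i, j, _ => by simp [tl]
  | n + 2, i, j, hij => by
    by_cases hj : j = n
    · subst hj
      obtain ⟨m, rfl⟩ : ∃ m, j = m + 2 := ⟨j - 2, by omega⟩
      rw [tl_last, tl_of_ne (by omega), tl_of_ne (by omega)]
      unfold tlLast
      simp only [blk_mul, blk_smul, blk_add, Matrix.zero_mul, Matrix.mul_zero, Matrix.mul_one,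
        Matrix.one_mul, add_zero, zero_add, smul_zero, smul_smul, Matrix.smul_mul,
        Matrix.mul_smul]
    · by_cases hi : i = n
      · subst hi
        have h0 : ∀ m, m < j + 2 → tl m y z j = 0 := by
          intro m
          induction m using Nat.strong_induction_on with
          | _ m ih =>
            intro hm
            match m, ih, hm with
            | 0, _, _ => rfl
            | 1, _, _ => rfl
            | m + 2, ih, hm =>
              rw [tl_of_ne (by omega), ih (m + 1) (by omega) (by omega), ← blk_zero]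
        rw [h0 (i + 2) (by omega)]
        simp
      · rw [tl_of_ne hi, tl_of_ne hj, blk_mul, blk_mul, tl_far y z (n + 1) i j hij]
        simp

/-- `e_i e_{i+1} e_i = e_i` and `e_{i+1} e_i e_{i+1} = e_{i+1}`, for `i + 2 < n`. -/
lemma tl_near (y z : R) (h : y * z = 1) : ∀ (n i : ℕ), i + 2 < n →
    tl n y z i * tl n y z (i + 1) * tl n y z i = tl n y z i ∧
    tl n y z (i + 1) * tl n y z i * tl n y z (i + 1) = tl n y z (i + 1)
  | 0, i, hi => by omega
  | 1, i, hi => by omega
  | n + 2, i, hi => by
    by_cases hj : i + 1 = n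
    · subst hj
      have h2 : z ^ 2 * y ^ 2 = 1 := by rw [← mul_pow, mul_comm z y, h, one_pow]
      rw [tl_last, tl_of_ne (by omega), tl_last]
      unfold tlLast
      have e1 : (1 : Matrix (Idx (i + 1)) (Idx (i + 1)) R) = blk 1 0 0 1 := blk_one
      have e0 : (0 : Matrix (Idx (i + 1)) (Idx (i + 1)) R) = blk 0 0 0 0 := blk_zero
      have k1 : -z ^ 2 * -y ^ 2 = 1 := by linear_combination h2
      have k2 : -y ^ 2 * -z ^ 2 = 1 := by linear_combination h2
      constructor <;>
      · simp only [blk_mul, blk_smul, blk_add, Matrix.zero_mul, Matrix.mul_zero, Matrix.mul_one,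
          Matrix.one_mul, add_zero, zero_add, smul_zero, smul_smul, Matrix.smul_mul,
          Matrix.mul_smul, e1, e0, k1, k2, one_smul]
        try simp only [← blk_zero]
    · rw [tl_of_ne (by omega), tl_of_ne (by omega), blk_mul, blk_mul, blk_mul, blk_mul]
      have := tl_near y z h (n + 1) i (by omega)
      constructor
      · simp [this.1]
      · simp [this.2]

end Pool.Agent.AMU
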