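import Pool.Agent.AMU.Letters

open Matrix

namespace Pool.Agent.AMU

/-- the part of weight `k` of a vector -/
noncomputable def part {n : ℕ} (k : ℕ) (v : Idx n → ℂ) : Idx n → ℂ :=
  fun x => if ones n x = k then v x else 0

lemma part_wt {n : ℕ} (k : ℕ) (v : Idx n → ℂ) : Wt n k (part k v) := by
  intro x hx
  simp [part, hx]

lemma part_mulVec {n : ℕ} {M : Matrix (Idx n) (Idx n) ℂ} (h : Graded M) (k : ℕ) (v : Idx n → ℂ) :
    M *ᵥ part k v = part k (M *ᵥ v) := by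
  funext x
  unfold part
  rw [Matrix.mulVec, dotProduct]
  split_ifs with hx
  · rw [Matrix.mulVec, dotProduct]
    refine Finset.sum_congr rfl fun y _ => ?_
    split_ifs with hy
    · rfl
    · rw [h x y (fun h1 => hy (h1 ▸ hx)), zero_mul, zero_mul]
  · refine Finset.sum_eq_zero fun y _ => ?_
    split_ifs with hy
    · rw [h x y (fun h1 => hx (h1.trans hy)), zero_mul]
    · rw [mul_zero]

lemma part_smul {n : ℕ} (k : ℕ) (c : ℂ) (v : Idx n → ℂ) : part k (c • v) = c • part k v := by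
  funext x
  by_cases h : ones n x = k <;> simp [part, h]

lemma exists_part_ne {n : ℕ} {v : Idx n → ℂ} (hv : v ≠ 0) : ∃ k, k ≤ n ∧ part k v ≠ 0 := by
  obtain ⟨x, hx⟩ := Function.ne_iff.1 hv
  refine ⟨ones n x, ones_le n x, fun h => hx ?_⟩
  have := congrFun h x
  simpa [part] using this

lemma mem_block {n : ℕ} {A : ℂ} {k : ℕ} {v : Idx n → ℂ} :
    v ∈ block n A k ↔ raise n A A⁻¹ *ᵥ v = 0 ∧ Wt n k v := Iff.rfl

/-- numbers of strands and orders for which the blocks are generic -/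
def Gen (n : ℕ) (A : ℂ) : Prop := A ≠ 0 ∧ ∀ i, 1 ≤ i → i ≤ n → A ^ (4 * i) ≠ 1

lemma gen_of_primitive {n N : ℕ} {A : ℂ} (hA : IsPrimitiveRoot A N) (hN : 4 * n < N) : Gen n A := by
  refine ⟨hA.ne_zero (by omega), fun i h1 h2 h => ?_⟩
  have := Nat.le_of_dvd (by omega) (hA.dvd_of_pow_eq_one _ h)
  omega

lemma block_wt_le {n : ℕ} {A : ℂ} (hg : Gen n A) {k : ℕ} {v : Idx n → ℂ} (hv : v ∈ block n A k)
    (h0 : v ≠ 0) : 2 * k ≤ n := by
  by_contra hk
  exact h0 (lefschetz hg.1 n hg.2 1 k v hv.2 (by omega) (by rw [pow_one]; exact hv.1))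

lemma block_word {n : ℕ} {A : ℂ} (hA : A ≠ 0) {k : ℕ} {v : Idx n → ℂ} (hv : v ∈ block n A k)
    (w : List (ℕ × Bool)) : wordMat n A A⁻¹ w *ᵥ v ∈ block n A k := by
  refine ⟨?_, Wt.mulVec (graded_wordMat _ _ _ _) hv.2⟩
  rw [Matrix.mulVec_mulVec, raise_comm_word _ _ (mul_inv_cancel₀ hA), ← Matrix.mulVec_mulVec, hv.1,
    Matrix.mulVec_zero]

/-- every eigenvalue of a braid occurs on a block -/
lemma eig_on_block {n : ℕ} {A : ℂ} (hg : Gen n A) (w : List (ℕ × Bool)) {l : ℂ}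
    (hl : Eig (wordMat n A A⁻¹ w) l) :
    ∃ k, 2 * k ≤ n ∧ ∃ v ∈ block n A k, v ≠ 0 ∧ wordMat n A A⁻¹ w *ᵥ v = l • v := by
  obtain ⟨u, hu, hl⟩ := hl
  have key : ∀ k : ℕ, ∀ v : Idx n → ℂ, Wt n k v → v ≠ 0 → wordMat n A A⁻¹ w *ᵥ v = l • v →
      ∃ k, 2 * k ≤ n ∧ ∃ v ∈ block n A k, v ≠ 0 ∧ wordMat n A A⁻¹ w *ᵥ v = l • v := by
    intro k
    induction k with
    | zero =>
      intro v hv h0 h1
      exact ⟨0, by omega, v, ⟨raise_wt_zero _ _ hv, hv⟩, h0, h1⟩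
    | succ k ih =>
      intro v hv h0 h1
      by_cases h : raise n A A⁻¹ *ᵥ v = 0
      · have hb : v ∈ block n A (k + 1) := ⟨h, hv⟩
        exact ⟨k + 1, block_wt_le hg hb h0, v, hb, h0, h1⟩
      · refine ih (raise n A A⁻¹ *ᵥ v) (Wt.raise _ _ hv) h ?_
        rw [Matrix.mulVec_mulVec, ← raise_comm_word _ _ (mul_inv_cancel₀ hg.1),
          ← Matrix.mulVec_mulVec, h1, Matrix.mulVec_smul]
  obtain ⟨k, -, hk⟩ := exists_part_ne hu
  refine key k (part k u) (part_wt k u) hk ?_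
  rw [part_mulVec (graded_wordMat _ _ _ _), hl, part_smul]

/-- The determinant of a braid on a block is a root of unity. -/
lemma det_block {n : ℕ} {A : ℂ} {N : ℕ} (hA : A ^ N = 1) (hN : 0 < N) (h4 : A ^ 4 ≠ -1)
    (B : Submodule ℂ (Idx n → ℂ)) (w : List (ℕ × Bool))
    (hB : ∀ l : ℕ × Bool, ∀ v ∈ B, letter n A A⁻¹ l *ᵥ v ∈ B) :
    ∃ h : ∀ v ∈ B, (Matrix.toLin' (wordMat n A A⁻¹ w)) v ∈ B,
      LinearMap.det ((Matrix.toLin' (wordMat n A A⁻¹ w)).restrict h) ^ (2 * N) = 1 := by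
  induction w with
  | nil =>
    refine ⟨fun v hv => by simpa [wordMat] using hv, ?_⟩
    have : (Matrix.toLin' (wordMat n A A⁻¹ ([] : List (ℕ × Bool)))).restrict
        (p := B) (q := B) (fun v hv => by simpa [wordMat] using hv) = LinearMap.id := by
      ext v
      simp [wordMat, LinearMap.restrict_apply]
    rw [this, LinearMap.det_id, one_pow]
  | cons l w ih =>
    obtain ⟨h, hd⟩ := ih
    have hl : ∀ v ∈ B, (Matrix.toLin' (letter n A A⁻¹ l)) v ∈ B := fun v hv => by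
      rw [Matrix.toLin'_apply]; exact hB l v hv
    have hlw : ∀ v ∈ B, (Matrix.toLin' (wordMat n A A⁻¹ (l :: w))) v ∈ B := fun v hv => by
      rw [wordMat_cons, Matrix.toLin'_mul_apply]
      exact hl _ (h v hv)
    refine ⟨hlw, ?_⟩
    have e1 : (Matrix.toLin' (wordMat n A A⁻¹ (l :: w))).restrict hlw =
        (Matrix.toLin' (letter n A A⁻¹ l)).restrict hl ∘ₗ
          (Matrix.toLin' (wordMat n A A⁻¹ w)).restrict h := by
      ext v
      simp [wordMat_cons, LinearMap.restrict_apply]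
    have e2 : ((Matrix.toLin' (letter n A A⁻¹ l)).restrict hl) ^ (2 * N) = 1 := by
      have e3 : ∀ p : ℕ, ∀ v : B, ((((Matrix.toLin' (letter n A A⁻¹ l)).restrict hl) ^ p) v : Idx n → ℂ) =
          (letter n A A⁻¹ l ^ p) *ᵥ (v : Idx n → ℂ) := by
        intro p
        induction p with
        | zero => intro v; simp
        | succ p ihp =>
          intro v
          rw [pow_succ, Module.End.mul_apply, ihp, pow_succ, ← Matrix.mulVec_mulVec]
          rfl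
      ext v
      rw [e3, letter_pow hA hN h4]
      simp
    rw [e1, LinearMap.det_comp, mul_pow, hd, mul_one, ← map_pow, e2, map_one]

/-- If a power of a braid acts as a scalar on a stable subspace, its eigenvalues there are roots of
unity. -/
lemma root_of_scalar {n : ℕ} {A : ℂ} {N : ℕ} (hA : A ^ N = 1) (hN : 0 < N) (h4 : A ^ 4 ≠ -1)
    (B : Submodule ℂ (Idx n → ℂ)) (w : List (ℕ × Bool))
    (hB : ∀ l : ℕ × Bool, ∀ v ∈ B, letter n A A⁻¹ l *ᵥ v ∈ B) (p : ℕ) (c : ℂ)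
    (hc : ∀ v ∈ B, (wordMat n A A⁻¹ w ^ p) *ᵥ v = c • v) (hne : ∃ v ∈ B, v ≠ 0) :
    ∃ M, 0 < M ∧ c ^ M = 1 := by
  obtain ⟨h, hd⟩ := det_block hA hN h4 B w hB
  set f := (Matrix.toLin' (wordMat n A A⁻¹ w)).restrict h with hf
  have e3 : ∀ q : ℕ, ∀ v : B, ((f ^ q) v : Idx n → ℂ) = (wordMat n A A⁻¹ w ^ q) *ᵥ (v : Idx n → ℂ) := by
    intro q
    induction q with
    | zero => intro v; simp
    | succ q ihq =>
      intro v
      rw [pow_succ, Module.End.mul_apply, ihq, pow_succ, ← Matrix.mulVec_mulVec]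
      rfl
  have e4 : f ^ p = c • (1 : B →ₗ[ℂ] B) := by
    ext v
    rw [e3, hc v v.2]
    simp
  have e5 := congrArg LinearMap.det e4
  rw [map_pow, LinearMap.det_smul, map_one, mul_one] at e5
  refine ⟨Module.finrank ℂ B * (2 * N), ?_, ?_⟩
  · obtain ⟨v, hv, h0⟩ := hne
    have : Nontrivial B := ⟨⟨v, hv⟩, 0, fun h => h0 (congrArg Subtype.val h)⟩
    have := Module.finrank_pos (R := ℂ) (M := B)
    positivity
  · rw [pow_mul, ← e5, ← pow_mul, mul_comm, pow_mul, hd, one_pow]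

end Pool.Agent.AMU
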