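import Pool.Agent.AMU.Slide

open Matrix

namespace Pool.Agent.AMU

lemma outl_append (p : ℕ) : ∀ u v : List (ℕ × Bool), outl p (u ++ v) = outl (outl p v) u
  | [], v => rfl
  | x :: u, v => by rw [List.cons_append, outl, outl_append p u v, outl]

lemma outl_winv (p : ℕ) : ∀ u : List (ℕ × Bool), outl (outl p u) (winv u) = p
  | [] => rfl
  | x :: u => by
    have h2 : winv (x :: u) = winv u ++ [linv x] := by simp [winv]
    rw [h2, outl_append]
    show outl (Equiv.swap x.1 (x.1 + 1) (Equiv.swap x.1 (x.1 + 1) (outl p u))) (winv u) = p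
    rw [Equiv.swap_apply_self, outl_winv p u]

lemma row_snoc (o a : ℕ) : row o (a + 1) = row o a ++ [(o + a, true)] := by
  rw [row_add]
  rfl

lemma outl_row (o p : ℕ) : ∀ a, outl p (row o a) =
    if p = o + a then o else if o ≤ p ∧ p < o + a then p + 1 else p
  | 0 => by
    show p = _
    split_ifs with h1 h2
    · omega
    · omega
    · rfl
  | a + 1 => by
    rw [row_snoc, outl_append]
    show outl (Equiv.swap (o + a) (o + a + 1) p) (row o a) = _
    rcases eq_or_ne p (o + a) with h1 | h1
    · rw [h1, Equiv.swap_apply_left, outl_row o (o + a + 1) a]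
      split_ifs <;> omega
    · rcases eq_or_ne p (o + a + 1) with h2 | h2
      · rw [h2, Equiv.swap_apply_right, outl_row o (o + a) a]
        split_ifs <;> omega
      · rw [Equiv.swap_apply_of_ne_of_ne h1 h2, outl_row o p a]
        split_ifs <;> omega

lemma outl_bw (o a p : ℕ) : ∀ b, outl p (bw o a b) =
    if o ≤ p ∧ p < o + a then p + b else if o + a ≤ p ∧ p < o + a + b then p - a else p
  | 0 => by
    show p = _
    split_ifs <;> omega
  | b + 1 => by
    rw [bw, outl_append, outl_bw o a p b, outl_row]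
    split_ifs <;> omega

lemma outl_block_true (c : ℕ → ℕ) (i l u : ℕ) (hu : u < c l) :
    outl (off c l + u) (blockLetter c (i, true)) = off (cs c i) (Equiv.swap i (i + 1) l) + u := by
  have hbl : blockLetter c (i, true) = bw (off c i) (c i) (c (i + 1)) := by simp [blockLetter]
  rw [hbl, outl_bw]
  rcases Nat.lt_or_ge l i with h1 | h1
  · rw [Equiv.swap_apply_of_ne_of_ne (by omega) (by omega), off_cs_le c (by omega)]
    have h2 : off c (l + 1) ≤ off c i := off_mono c (by omega)
    rw [off_succ] at h2
    split_ifs <;> omega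
  · rcases Nat.eq_or_lt_of_le h1 with h1 | h1
    · subst h1
      rw [Equiv.swap_apply_left, off_succ, off_cs_le c le_rfl, cs_apply_left]
      split_ifs <;> omega
    · rcases Nat.eq_or_lt_of_le h1 with h1 | h1
      · obtain rfl : l = i + 1 := by omega
        rw [Equiv.swap_apply_right, off_cs_le c le_rfl, off_succ]
        split_ifs <;> omega
      · rw [Equiv.swap_apply_of_ne_of_ne (by omega) (by omega), off_cs_ge c (by omega)]
        have h7 : off c (i + 2) ≤ off c l := off_mono c (by omega)
        rw [off_succ, off_succ] at h7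
        split_ifs <;> omega

lemma outl_block (c : ℕ → ℕ) (x : ℕ × Bool) (l u : ℕ) (hu : u < c l) :
    outl (off c l + u) (blockLetter c x) =
      off (cs c x.1) (Equiv.swap x.1 (x.1 + 1) l) + u := by
  rcases x with ⟨i, s⟩
  cases s
  · have hbl : blockLetter c (i, false) = winv (blockLetter (cs c i) (i, true)) := by
      simp only [blockLetter, Bool.false_eq_true, if_false, if_true]
      rw [off_cs_le c le_rfl, cs_apply_left, cs_apply_right]
    have h1 := outl_block_true (cs c i) i (Equiv.swap i (i + 1) l) u (by rw [cs_swap]; exact hu)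
    rw [cs_cs, Equiv.swap_apply_self] at h1
    rw [hbl, ← h1, outl_winv]
  · exact outl_block_true c i l u hu

lemma outl_cab (c : ℕ → ℕ) (l u : ℕ) (hu : u < c l) : ∀ w : List (ℕ × Bool),
    outl (off c l + u) (cab c w) = off (outc c w) (outl l w) + u
  | [] => rfl
  | x :: w => by
    rw [cab, outl_append, outl_cab c l u hu w, outl_block _ x _ u (by rw [outc_outl]; exact hu)]
    rfl

lemma exists_pos (c : ℕ → ℕ) : ∀ m p, p < off c m → ∃ l u, l < m ∧ u < c l ∧ p = off c l + u
  | 0, p, h => by simp [off] at h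
  | m + 1, p, h => by
    rcases Nat.lt_or_ge p (off c m) with h1 | h1
    · obtain ⟨l, u, hl, hu, hp⟩ := exists_pos c m p h1
      exact ⟨l, u, by omega, hu, hp⟩
    · rw [off_succ] at h
      exact ⟨m, p - off c m, by omega, by omega, by omega⟩

lemma outl_cab_pure {m : ℕ} {w : List (ℕ × Bool)} (hw : PureWord m w) (c : ℕ → ℕ) {p : ℕ}
    (hp : p < off c m) : outl p (cab c w) = p := by
  obtain ⟨l, u, hl, hu, rfl⟩ := exists_pos c m p hp
  rw [outl_cab c l u hu w, hw.2 l, outc_pure hw]

lemma letters_winv {m : ℕ} {w : List (ℕ × Bool)} (hw : Letters m w) : Letters m (winv w) := by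
  intro x hx
  unfold winv at hx
  rw [List.mem_reverse, List.mem_map] at hx
  obtain ⟨y, hy, rfl⟩ := hx
  exact hw y hy

lemma letters_append {m : ℕ} {u v : List (ℕ × Bool)} (hu : Letters m u) (hv : Letters m v) :
    Letters m (u ++ v) := by
  intro x hx
  rcases List.mem_append.1 hx with h | h
  · exact hu x h
  · exact hv x h

lemma letters_block {c : ℕ → ℕ} {m : ℕ} {x : ℕ × Bool} (hx : x.1 + 1 < m) :
    Letters (off c m) (blockLetter c x) := by
  have h1 : off c (x.1 + 2) ≤ off c m := off_mono c (by omega)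
  rw [off_succ, off_succ] at h1
  rcases x with ⟨i, s⟩
  cases s
  · simp only [blockLetter, Bool.false_eq_true, if_false]
    refine letters_winv fun x hx => ?_
    have := mem_bw hx
    simp only [] at h1
    omega
  · simp only [blockLetter, if_true]
    intro x hx
    have := mem_bw hx
    simp only [] at h1
    omega

lemma letters_cab {m : ℕ} (c : ℕ → ℕ) : ∀ {w : List (ℕ × Bool)}, Letters m w →
    Letters (off c m) (cab c w)
  | [], _ => by intro x hx; simp [cab] at hx
  | x :: w, hw => by
    have hw' : Letters m w := fun x hx => hw x (by simp [hx])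
    have h1 := letters_block (c := outc c w) (m := m) (x := x) (hw x (by simp))
    rw [off_outc c hw'] at h1
    exact letters_append h1 (letters_cab c hw')

/-- The operator of a word at `A = 1` depends only on the permutation. -/
lemma word_one_perm {n : ℕ} : ∀ {w : List (ℕ × Bool)}, Letters n w → ∃ g : Idx n → Idx n,
    (∀ v : Idx n → ℂ, wordMat n (1 : ℂ) 1 w *ᵥ v = v ∘ g) ∧
      ∀ (x : Idx n) (j : ℕ), j < n → bit n (g x) j = bit n x (outl j w)
  | [], _ => ⟨id, fun v => by rw [wordMat_nil, Matrix.one_mulVec]; rfl, fun x j _ => rfl⟩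
  | l :: w, hw => by
    have hw' : Letters n w := fun x hx => hw x (by simp [hx])
    obtain ⟨g, hg1, hg2⟩ := word_one_perm hw'
    refine ⟨g ∘ swapIdx n l.1, fun v => ?_, fun x j hj => ?_⟩
    · rw [wordMat_cons, ← Matrix.mulVec_mulVec, hg1]
      exact letter_one_mulVec n l.1 l.2 (v ∘ g) (hw l (by simp))
    · rw [Function.comp_apply, hg2 _ j hj, bit_swap n l.1 x _ (hw l (by simp)) (outl_lt hj hw')]
      rfl

lemma word_one_eq {n : ℕ} {w : List (ℕ × Bool)} (hw : Letters n w) (h : ∀ j, j < n → outl j w = j) :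
    wordMat n (1 : ℂ) 1 w = 1 := by
  obtain ⟨g, hg1, hg2⟩ := word_one_perm hw
  have h2 : ∀ x, g x = x := fun x => bit_ext n _ _ fun i hi => by rw [hg2 x i hi, h i hi]
  have h3 : Matrix.toLin' (wordMat n (1 : ℂ) 1 w) = Matrix.toLin' 1 := by
    ext1 i
    ext1
    simp only [LinearMap.comp_apply, Matrix.toLin'_apply, Matrix.one_mulVec]
    rw [hg1]
    funext x
    rw [Function.comp_apply, h2]
  exact Matrix.toLin'.injective h3

/-- Cables of pure braids act trivially at `A = 1`. -/
lemma cab_one {m : ℕ} {w : List (ℕ × Bool)} (hw : PureWord m w) (c : ℕ → ℕ) :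
    wordMat (off c m) (1 : ℂ) 1 (cab c w) = 1 :=
  word_one_eq (letters_cab c hw.1) fun _ hj => outl_cab_pure hw c hj

end Pool.Agent.AMU
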