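import Pool.Agent.AMU.Group

open Matrix

namespace Pool.Agent.AMU

/-- the transposition of the strands `i`, `i + 1` on spin configurations -/
def swapIdx : (n : ℕ) → ℕ → Idx n → Idx n
  | 0, _, x => x
  | 1, _, x => x
  | n + 2, i, x =>
    if i = n then
      match x with
      | Sum.inl (Sum.inl x) => Sum.inl (Sum.inl x)
      | Sum.inl (Sum.inr x) => Sum.inr (Sum.inl x)
      | Sum.inr (Sum.inl x) => Sum.inl (Sum.inr x)
      | Sum.inr (Sum.inr x) => Sum.inr (Sum.inr x)
    else
      match x with
      | Sum.inl x => Sum.inl (swapIdx (n + 1) i x)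
      | Sum.inr x => Sum.inr (swapIdx (n + 1) i x)

/-- the bit number `i` of a configuration -/
def bit : (n : ℕ) → Idx n → ℕ → Bool
  | 0, _, _ => false
  | n + 1, Sum.inl x, i => if i = n then false else bit n x i
  | n + 1, Sum.inr x, i => if i = n then true else bit n x i

lemma bit_ext : ∀ n (x x' : Idx n), (∀ i, i < n → bit n x i = bit n x' i) → x = x'
  | 0, _, _, _ => rfl
  | n + 1, x, x', h => by
    rcases x with x | x <;> rcases x' with x' | x'
    · congr 1
      refine bit_ext n x x' fun i hi => ?_
      have := h i (by omega)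
      simpa [bit, hi.ne] using this
    · have := h n (by omega)
      simp [bit] at this
    · have := h n (by omega)
      simp [bit] at this
    · congr 1
      refine bit_ext n x x' fun i hi => ?_
      have := h i (by omega)
      simpa [bit, hi.ne] using this

lemma bit_swap : ∀ n i (x : Idx n) (j : ℕ), i + 1 < n → j < n →
    bit n (swapIdx n i x) j = bit n x (Equiv.swap i (i + 1) j)
  | 0, i, x, j, hi, _ => by omega
  | 1, i, x, j, hi, _ => by omega
  | n + 2, i, x, j, hi, hj => by
    by_cases h : i = n
    · subst h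
      rcases x with (x | x) | (x | x) <;> simp only [swapIdx, if_true, bit]
      all_goals
        rcases eq_or_ne j i with rfl | h1
        · simp
        · rcases eq_or_ne j (i + 1) with rfl | h2
          · simp
          · simp [Equiv.swap_apply_of_ne_of_ne h1 h2, h1, h2]
    · have h3 : Equiv.swap i (i + 1) j = n + 1 ↔ j = n + 1 := by
        constructor
        · intro h4
          by_contra h5
          rcases eq_or_ne j i with rfl | h1
          · rw [Equiv.swap_apply_left] at h4
            omega
          · rcases eq_or_ne j (i + 1) with rfl | h2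
            · rw [Equiv.swap_apply_right] at h4
              omega
            · rw [Equiv.swap_apply_of_ne_of_ne h1 h2] at h4
              exact h5 h4
        · rintro rfl
          exact Equiv.swap_apply_of_ne_of_ne (by omega) (by omega)
      rcases x with x | x <;> simp only [swapIdx, if_neg h, bit, h3]
      all_goals
        by_cases h6 : j = n + 1
        · rw [if_pos h6, if_pos h6]
        · rw [if_neg h6, if_neg h6]
          exact bit_swap (n + 1) i x j (by omega) (by omega)

lemma letter_one_mulVec : ∀ n i (b : Bool) (v : Idx n → ℂ), i + 1 < n →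
    letter n (1 : ℂ) 1 (i, b) *ᵥ v = v ∘ swapIdx n i
  | 0, i, b, v, hi => by omega
  | 1, i, b, v, hi => by omega
  | n + 2, i, b, v, hi => by
    have hl : letter (n + 2) (1 : ℂ) 1 (i, b) = 1 + tl (n + 2) 1 1 i := by
      cases b <;> simp [letter]
    rw [hl, Matrix.add_mulVec, Matrix.one_mulVec]
    by_cases h : i = n
    · subst h
      rw [tl_last]
      unfold tlLast
      have f1 : swapIdx (i + 2) i = fun x : Idx (i + 2) => match x with
        | Sum.inl (Sum.inl x) => Sum.inl (Sum.inl x)
        | Sum.inl (Sum.inr x) => Sum.inr (Sum.inl x)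
        | Sum.inr (Sum.inl x) => Sum.inl (Sum.inr x)
        | Sum.inr (Sum.inr x) => Sum.inr (Sum.inr x) := by
        funext x
        simp only [swapIdx, if_true]
      rw [f1]
      refine ext_lr ?_ ?_
      · have h1 := vl_blk (blk 0 0 0 (-((1 : ℂ) ^ 2) • (1 : Matrix (Idx i) (Idx i) ℂ))) (blk 0 0 1 0)
          (blk 0 1 0 0) (blk (-((1 : ℂ) ^ 2) • 1) 0 0 0) v
        refine ext_lr ?_ ?_
        · have h2 := congrArg vl h1
          have h3 := vl_blk 0 0 0 (-((1 : ℂ) ^ 2) • (1 : Matrix (Idx i) (Idx i) ℂ)) (vl v)
          have h4 := vl_blk 0 0 1 (0 : Matrix (Idx i) (Idx i) ℂ) (vr v)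
          funext x
          have h5 := congrFun h2 x
          have h6 := congrFun h3 x
          have h7 := congrFun h4 x
          simp only [vl, vr, Pi.add_apply, Matrix.zero_mulVec, Pi.zero_apply, add_zero] at h5 h6 h7
          show v (Sum.inl (Sum.inl x)) + _ = v (Sum.inl (Sum.inl x))
          rw [h5, h6, h7, add_zero, add_zero]
        · have h2 := congrArg vr h1
          have h3 := vr_blk 0 0 0 (-((1 : ℂ) ^ 2) • (1 : Matrix (Idx i) (Idx i) ℂ)) (vl v)
          have h4 := vr_blk 0 0 1 (0 : Matrix (Idx i) (Idx i) ℂ) (vr v)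
          funext x
          have h5 := congrFun h2 x
          have h6 := congrFun h3 x
          have h7 := congrFun h4 x
          simp only [vl, vr, Pi.add_apply, Matrix.zero_mulVec, Pi.zero_apply, zero_add, add_zero,
            Matrix.smul_mulVec, Matrix.one_mulVec, Pi.smul_apply, smul_eq_mul] at h5 h6 h7
          show v (Sum.inl (Sum.inr x)) + _ = v (Sum.inr (Sum.inl x))
          rw [h5, h6, h7]
          ring
      · have h1 := vr_blk (blk 0 0 0 (-((1 : ℂ) ^ 2) • (1 : Matrix (Idx i) (Idx i) ℂ))) (blk 0 0 1 0)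
          (blk 0 1 0 0) (blk (-((1 : ℂ) ^ 2) • 1) 0 0 0) v
        refine ext_lr ?_ ?_
        · have h2 := congrArg vl h1
          have h3 := vl_blk 0 1 0 (0 : Matrix (Idx i) (Idx i) ℂ) (vl v)
          have h4 := vl_blk (-((1 : ℂ) ^ 2) • 1) 0 0 (0 : Matrix (Idx i) (Idx i) ℂ) (vr v)
          funext x
          have h5 := congrFun h2 x
          have h6 := congrFun h3 x
          have h7 := congrFun h4 x
          simp only [vl, vr, Pi.add_apply, Matrix.zero_mulVec, Pi.zero_apply, zero_add, add_zero,
            Matrix.smul_mulVec, Matrix.one_mulVec, Pi.smul_apply, smul_eq_mul] at h5 h6 h7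
          show v (Sum.inr (Sum.inl x)) + _ = v (Sum.inl (Sum.inr x))
          rw [h5, h6, h7]
          ring
        · have h2 := congrArg vr h1
          have h3 := vr_blk 0 1 0 (0 : Matrix (Idx i) (Idx i) ℂ) (vl v)
          have h4 := vr_blk (-((1 : ℂ) ^ 2) • 1) 0 0 (0 : Matrix (Idx i) (Idx i) ℂ) (vr v)
          funext x
          have h5 := congrFun h2 x
          have h6 := congrFun h3 x
          have h7 := congrFun h4 x
          simp only [vl, vr, Pi.add_apply, Matrix.zero_mulVec, Pi.zero_apply, add_zero] at h5 h6 h7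
          show v (Sum.inr (Sum.inr x)) + _ = v (Sum.inr (Sum.inr x))
          rw [h5, h6, h7, add_zero, add_zero]
    · have ih := letter_one_mulVec (n + 1) i b
      have hl' : letter (n + 1) (1 : ℂ) 1 (i, b) = 1 + tl (n + 1) 1 1 i := by
        cases b <;> simp [letter]
      rw [tl_of_ne h]
      refine ext_lr ?_ ?_
      · have h1 := vl_blk (tl (n + 1) (1 : ℂ) 1 i) 0 0 (tl (n + 1) 1 1 i) v
        have h2 := ih (vl v) (by omega)
        rw [hl', Matrix.add_mulVec, Matrix.one_mulVec] at h2
        funext x
        have h3 := congrFun h1 x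
        have h4 := congrFun h2 x
        simp only [vl, Matrix.zero_mulVec, add_zero] at h3
        show v (Sum.inl x) + _ = v (swapIdx (n + 2) i (Sum.inl x))
        rw [h3]
        simp only [swapIdx, if_neg h]
        exact h4
      · have h1 := vr_blk (tl (n + 1) (1 : ℂ) 1 i) 0 0 (tl (n + 1) 1 1 i) v
        have h2 := ih (vr v) (by omega)
        rw [hl', Matrix.add_mulVec, Matrix.one_mulVec] at h2
        funext x
        have h3 := congrFun h1 x
        have h4 := congrFun h2 x
        simp only [vr, Matrix.zero_mulVec, zero_add] at h3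
        show v (Sum.inr x) + _ = v (swapIdx (n + 2) i (Sum.inr x))
        rw [h3]
        simp only [swapIdx, if_neg h]
        exact h4

/-- the transposition of two neighbouring strands -/
def swapFin (n : ℕ) (i : Fin (n - 1)) : Equiv.Perm (Fin n) :=
  Equiv.swap ⟨i, by omega⟩ ⟨i + 1, by omega⟩

lemma swapFin_val {n : ℕ} (i : Fin (n - 1)) (j : Fin n) :
    (swapFin n i j : ℕ) = Equiv.swap (i : ℕ) (i + 1) (j : ℕ) := by
  unfold swapFin
  by_cases h1 : (j : ℕ) = i
  · have : j = ⟨i, by omega⟩ := Fin.ext h1
    rw [this, Equiv.swap_apply_left, Equiv.swap_apply_left]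
  · by_cases h2 : (j : ℕ) = i + 1
    · have : j = ⟨i + 1, by omega⟩ := Fin.ext h2
      rw [this, Equiv.swap_apply_right, Equiv.swap_apply_right]
    · rw [Equiv.swap_apply_of_ne_of_ne h1 h2, Equiv.swap_apply_of_ne_of_ne]
      · exact fun h => h1 (by rw [h])
      · exact fun h => h2 (by rw [h])

/-- The permutation of the strands of a braid. -/
def permHom (n : ℕ) : BraidGroup n →* Equiv.Perm (Fin n) :=
  PresentedGroup.toGroup (f := swapFin n) (by
    rintro r (⟨i, j, hij, rfl⟩ | ⟨i, j, hij, rfl⟩)
    · rw [map_mul, map_inv, map_mul, map_mul, map_mul, map_mul, FreeGroup.lift_apply_of,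
        FreeGroup.lift_apply_of, mul_inv_eq_one]
      have hi := i.2
      have hj := j.2
      have e1 : swapFin n j = Equiv.swap (⟨(i : ℕ) + 1, by omega⟩ : Fin n)
          ⟨(i : ℕ) + 2, by omega⟩ := by
        unfold swapFin
        congr 1 <;> exact Fin.ext (by simp only []; omega)
      have e2 : swapFin n i = Equiv.swap (⟨(i : ℕ), by omega⟩ : Fin n)
          ⟨(i : ℕ) + 1, by omega⟩ := rfl
      rw [e1, e2]
      have a1 : (⟨(i : ℕ), by omega⟩ : Fin n) ≠ ⟨(i : ℕ) + 1, by omega⟩ := by
        intro h; have := congrArg Fin.val h; simp at this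
      have a2 : (⟨(i : ℕ), by omega⟩ : Fin n) ≠ ⟨(i : ℕ) + 2, by omega⟩ := by
        intro h; have := congrArg Fin.val h; simp at this
      have a3 : (⟨(i : ℕ) + 1, by omega⟩ : Fin n) ≠ ⟨(i : ℕ) + 2, by omega⟩ := by
        intro h; have := congrArg Fin.val h; simp at this
      rw [Equiv.swap_mul_swap_mul_swap a1 a2]
      rw [Equiv.swap_comm (⟨(i : ℕ), by omega⟩ : Fin n) ⟨(i : ℕ) + 1, by omega⟩,
        Equiv.swap_comm (⟨(i : ℕ) + 1, by omega⟩ : Fin n) ⟨(i : ℕ) + 2, by omega⟩,
        Equiv.swap_mul_swap_mul_swap a3.symm a2.symm, Equiv.swap_comm]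
    · rw [map_mul, map_inv, map_mul, map_mul, FreeGroup.lift_apply_of,
        FreeGroup.lift_apply_of, mul_inv_eq_one]
      refine (Equiv.Perm.Disjoint.commute ?_).eq
      intro k
      by_cases h1 : (k : ℕ) = i ∨ (k : ℕ) = i + 1
      · right
        refine Equiv.swap_apply_of_ne_of_ne ?_ ?_
        · intro h; have := congrArg Fin.val h; simp at this; omega
        · intro h; have := congrArg Fin.val h; simp at this; omega
      · left
        push Not at h1
        refine Equiv.swap_apply_of_ne_of_ne ?_ ?_
        · intro h; exact h1.1 (congrArg Fin.val h)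
        · intro h; exact h1.2 (congrArg Fin.val h))

lemma permHom_of (n : ℕ) (i : Fin (n - 1)) : permHom n (PresentedGroup.of i) = swapFin n i :=
  PresentedGroup.toGroup.of _

/-- The pure braid group. -/
def PureBraid (n : ℕ) : Subgroup (BraidGroup n) := (permHom n).ker

/-- At `A = 1` braids act through their permutation. -/
lemma rep_one_perm {n : ℕ} (f : BraidGroup n) : ∃ g : Idx n → Idx n,
    (∀ v : Idx n → ℂ, (rep n 1 f).val *ᵥ v = v ∘ g) ∧
      ∀ (x : Idx n) (j : Fin n), bit n (g x) j = bit n x (permHom n f j) := by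
  obtain ⟨x, rfl⟩ := PresentedGroup.mk_surjective (braidRels n) f
  induction x using FreeGroup.induction_on with
  | C1 =>
    refine ⟨id, fun v => ?_, fun x j => ?_⟩
    · rw [map_one, map_one, Units.val_one, Matrix.one_mulVec]; rfl
    · rw [map_one, map_one]; rfl
  | of i =>
    refine ⟨swapIdx n i, fun v => ?_, fun x j => ?_⟩
    · have h := rep_of n 1 i
      show (rep n 1 (PresentedGroup.of i)).val *ᵥ v = _
      rw [h]
      have h2 := letter_one_mulVec n i true v (by omega)
      simpa [genUnit] using h2
    · show bit n (swapIdx n i x) j = bit n x (permHom n (PresentedGroup.of i) j)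
      rw [permHom_of, swapFin_val]
      exact bit_swap n i x j (by omega) j.2
  | inv_of i _ =>
    refine ⟨swapIdx n i, fun v => ?_, fun x j => ?_⟩
    · have h := rep_of n 1 i
      show (rep n 1 (PresentedGroup.of i)⁻¹).val *ᵥ v = _
      rw [map_inv, h]
      have h2 := letter_one_mulVec n i false v (by omega)
      simpa [genUnit] using h2
    · show bit n (swapIdx n i x) j = bit n x (permHom n (PresentedGroup.of i)⁻¹ j)
      rw [map_inv, permHom_of]
      have h3 : (swapFin n i)⁻¹ = swapFin n i := Equiv.swap_inv _ _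
      rw [h3, swapFin_val]
      exact bit_swap n i x j (by omega) j.2
  | mul x y hx hy =>
    obtain ⟨g, hg1, hg2⟩ := hx
    obtain ⟨g', hg1', hg2'⟩ := hy
    refine ⟨g' ∘ g, fun v => ?_, fun x j => ?_⟩
    · rw [map_mul, map_mul, Units.val_mul, ← Matrix.mulVec_mulVec, hg1', hg1]
      rfl
    · rw [map_mul, map_mul, Function.comp_apply, hg2', hg2]
      rfl

/-- Pure braids act trivially at `A = 1`. -/
lemma rep_one_pure {n : ℕ} {f : BraidGroup n} (hf : f ∈ PureBraid n) : (rep n 1 f).val = 1 := by
  obtain ⟨g, hg1, hg2⟩ := rep_one_perm f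
  have h1 : permHom n f = 1 := hf
  have h2 : ∀ x, g x = x := fun x => bit_ext n _ _ fun i hi => by
    have := hg2 x ⟨i, hi⟩
    rw [h1] at this
    exact this
  have h3 : Matrix.toLin' (rep n 1 f).val = Matrix.toLin' 1 := by
    ext1 i
    ext1
    simp only [LinearMap.comp_apply, Matrix.toLin'_apply, Matrix.one_mulVec]
    rw [hg1]
    funext x
    rw [Function.comp_apply, h2]
  exact Matrix.toLin'.injective h3

end Pool.Agent.AMU
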