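import Pool.Agent.AMU.Down
import Pool.Agent.AMU.Perm

open Matrix

namespace Pool.Agent.AMU

/-! ### Cabling of braid words -/

/-- the word `σ_o σ_{o+1} ⋯ σ_{o+a-1}` -/
def row (o a : ℕ) : List (ℕ × Bool) := (List.range a).map fun j => (o + j, true)

/-- The positive crossing of two cables: `a` parallel strands starting at the position `o` cross the
`b` parallel strands to their right. -/
def bw (o a : ℕ) : ℕ → List (ℕ × Bool)
  | 0 => []
  | b + 1 => row (o + b) a ++ bw o a b

/-- number of strands of the cables before the cable number `i` -/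
def off (c : ℕ → ℕ) (i : ℕ) : ℕ := ∑ l ∈ Finset.range i, c l

/-- exchange of the colours of two neighbouring strands -/
def cs (c : ℕ → ℕ) (i : ℕ) : ℕ → ℕ := c ∘ Equiv.swap i (i + 1)

/-- the word of a letter when the strand number `l` is replaced by `c l` parallel strands; an
inverse letter gives the inverse word -/
def blockLetter (c : ℕ → ℕ) (x : ℕ × Bool) : List (ℕ × Bool) :=
  if x.2 then bw (off c x.1) (c x.1) (c (x.1 + 1))
  else winv (bw (off c x.1) (c (x.1 + 1)) (c x.1))

/-- the colours after a braid word (the last letter of the word acts first) -/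
def outc (c : ℕ → ℕ) : List (ℕ × Bool) → ℕ → ℕ
  | [] => c
  | x :: w => cs (outc c w) x.1

/-- the position of the strand `l` after a braid word -/
def outl (l : ℕ) : List (ℕ × Bool) → ℕ
  | [] => l
  | x :: w => Equiv.swap x.1 (x.1 + 1) (outl l w)

/-- The cabling of a braid word: the strand number `l` is replaced by `c l` parallel strands. -/
def cab (c : ℕ → ℕ) : List (ℕ × Bool) → List (ℕ × Bool)
  | [] => []
  | x :: w => blockLetter (outc c w) x ++ cab c w

lemma row_succ (o a : ℕ) : row o (a + 1) = (o, true) :: row (o + 1) a := by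
  unfold row
  rw [List.range_succ_eq_map, List.map_cons, List.map_map]
  congr 1
  refine List.map_congr_left fun j _ => ?_
  show (o + (j + 1), true) = (o + 1 + j, true)
  rw [show o + (j + 1) = o + 1 + j by ring]

lemma row_add (o a b : ℕ) : row o (a + b) = row o a ++ row (o + a) b := by
  unfold row
  rw [List.range_add, List.map_append, List.map_map]
  congr 1
  refine List.map_congr_left fun j _ => ?_
  show (o + (a + j), true) = (o + a + j, true)
  rw [show o + (a + j) = o + a + j by ring]

lemma mem_row {o a : ℕ} {x : ℕ × Bool} (h : x ∈ row o a) : o ≤ x.1 ∧ x.1 < o + a := by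
  unfold row at h
  obtain ⟨j, hj, rfl⟩ := List.mem_map.1 h
  have := List.mem_range.1 hj
  constructor <;> simp only [] <;> omega

lemma mem_bw {o a : ℕ} : ∀ {b : ℕ} {x : ℕ × Bool}, x ∈ bw o a b → o ≤ x.1 ∧ x.1 + 1 < o + a + b
  | 0, x, h => by simp [bw] at h
  | b + 1, x, h => by
    rw [bw, List.mem_append] at h
    rcases h with h | h
    · have := mem_row h
      omega
    · have := mem_bw h
      omega

/-- shift of the letters by two strands -/
def sh (w : List (ℕ × Bool)) : List (ℕ × Bool) := w.map fun x => (x.1 - 2, x.2)

lemma sh_row {o a : ℕ} (h : 2 ≤ o) : sh (row o a) = row (o - 2) a := by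
  unfold sh row
  rw [List.map_map]
  refine List.map_congr_left fun j _ => ?_
  show (o + j - 2, true) = (o - 2 + j, true)
  rw [show o + j - 2 = o - 2 + j by omega]

lemma sh_append (u v : List (ℕ × Bool)) : sh (u ++ v) = sh u ++ sh v := by
  unfold sh
  rw [List.map_append]

lemma sh_bw {o a : ℕ} (h : 2 ≤ o) : ∀ b, sh (bw o a b) = bw (o - 2) a b
  | 0 => rfl
  | b + 1 => by
    rw [bw, sh_append, sh_bw h b, sh_row (by omega), bw, show o + b - 2 = o - 2 + b by omega]

section slide

variable {R : Type*} [CommRing R] (n : ℕ) (y z : R) (h : y * z = 1)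

lemma phi_word_low {q : ℕ} : ∀ (w : List (ℕ × Bool)), (∀ x ∈ w, x.1 + 2 ≤ q) →
    Phi n y z q * wordMat n y z w = wordMat n y z w * Phi n y z q
  | [], _ => by rw [wordMat_nil, Matrix.one_mul, Matrix.mul_one]
  | x :: w, hw => by
    rw [wordMat_cons, ← Matrix.mul_assoc, phi_low n y z (hw x (by simp)) x.2, Matrix.mul_assoc,
      phi_word_low w fun x hx => hw x (by simp [hx]), Matrix.mul_assoc]

include h

lemma phi_word_high {q : ℕ} : ∀ (w : List (ℕ × Bool)), (∀ x ∈ w, q + 2 ≤ x.1 ∧ x.1 + 1 < n) →
    Phi n y z q * wordMat n y z w = wordMat n y z (sh w) * Phi n y z q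
  | [], _ => by
    show Phi n y z q * wordMat n y z [] = wordMat n y z [] * Phi n y z q
    rw [wordMat_nil, Matrix.one_mul, Matrix.mul_one]
  | x :: w, hw => by
    obtain ⟨h1, h2⟩ := hw x (by simp)
    have h3 := phi_slide n y z h (q := q) (i := x.1 - 2) (by omega) (by omega) x.2
    rw [show x.1 - 2 + 2 = x.1 by omega] at h3
    show Phi n y z q * wordMat n y z (x :: w) =
      wordMat n y z ((x.1 - 2, x.2) :: sh w) * Phi n y z q
    rw [wordMat_cons, ← Matrix.mul_assoc, h3, Matrix.mul_assoc,
      phi_word_high w fun x hx => hw x (by simp [hx]), wordMat_cons, Matrix.mul_assoc]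

/-- a cup inside the left cable, one row -/
lemma row_left {o a p : ℕ} (h1 : o ≤ p) (h2 : p + 2 ≤ o + a) (h3 : o + a + 1 ≤ n) :
    Phi n y z (p + 1) * wordMat n y z (row o a) = wordMat n y z (row o (a - 2)) * Phi n y z p := by
  obtain ⟨s, rfl⟩ : ∃ s, p = o + s := ⟨p - o, by omega⟩
  obtain ⟨t, rfl⟩ : ∃ t, a = s + (2 + t) := ⟨a - s - 2, by omega⟩
  have e1 : row o (s + (2 + t)) = row o s ++ ([(o + s, true)] ++ ([(o + s + 1, true)] ++
      row (o + s + 2) t)) := by
    rw [row_add, show 2 + t = (t + 1) + 1 by ring, row_succ, row_succ]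
    rfl
  have e2 : row o (s + (2 + t) - 2) = row o s ++ row (o + s) t := by
    rw [show s + (2 + t) - 2 = s + t by omega, row_add]
  have e3 : sh (row (o + s + 2) t) = row (o + s) t := by
    rw [sh_row (by omega)]
    rfl
  rw [e1, e2]
  simp only [wordMat_append]
  have g1 := phi_word_low n y z (q := o + s + 1) (row o s) (fun x hx => by
    have := mem_row hx; omega)
  have g2 := phi_right n y z h (q := o + s) (by omega) true
  have g3 := phi_word_high n y z h (q := o + s) (row (o + s + 2) t) (fun x hx => by
    have := mem_row hx; omega)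
  rw [e3] at g3
  have w1 : ∀ l : ℕ × Bool, wordMat n y z [l] = letter n y z l := fun l => by simp [wordMat]
  rw [w1, w1]
  calc Phi n y z (o + s + 1) * (wordMat n y z (row o s) * (letter n y z (o + s, true) *
        (letter n y z (o + s + 1, true) * wordMat n y z (row (o + s + 2) t))))
      = (Phi n y z (o + s + 1) * wordMat n y z (row o s)) * letter n y z (o + s, true) *
        letter n y z (o + s + 1, true) * wordMat n y z (row (o + s + 2) t) := by
          simp only [Matrix.mul_assoc]
    _ = wordMat n y z (row o s) * (Phi n y z (o + s + 1) * letter n y z (o + s, true) *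
        letter n y z (o + s + 1, true)) * wordMat n y z (row (o + s + 2) t) := by
          rw [g1]; simp only [Matrix.mul_assoc]
    _ = wordMat n y z (row o s) * (Phi n y z (o + s) * wordMat n y z (row (o + s + 2) t)) := by
          rw [g2, Matrix.mul_assoc]
    _ = wordMat n y z (row o s) * wordMat n y z (row (o + s) t) * Phi n y z (o + s) := by
          rw [g3, Matrix.mul_assoc]

/-- a cup crossing the left cable, two rows -/
lemma row_right {o : ℕ} : ∀ a, o + a + 2 ≤ n →
    Phi n y z o * wordMat n y z (row (o + 1) a) * wordMat n y z (row o a) = Phi n y z (o + a) := by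
  intro a
  induction a generalizing o with
  | zero => intro _; simp [row, wordMat]
  | succ a ih =>
    intro ho
    have g1 := phi_left n y z h (q := o) (by omega) true
    have g2 := ih (o := o + 1) (by omega)
    have w1 : ∀ u, wordMat n y z (row (o + 2) u) * letter n y z (o, true) =
        letter n y z (o, true) * wordMat n y z (row (o + 2) u) := by
      intro u
      have : ∀ w : List (ℕ × Bool), (∀ x ∈ w, o + 2 ≤ x.1) → wordMat n y z w * letter n y z (o, true) =
          letter n y z (o, true) * wordMat n y z w := by
        intro w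
        induction w with
        | nil => intro _; rw [wordMat_nil, Matrix.one_mul, Matrix.mul_one]
        | cons x w ihw =>
          intro hw
          have h5 : letter n y z x * tl n y z o = tl n y z o * letter n y z x := by
            have h6 := letter_comm_of y z (tl_far y z n o x.1 (hw x (by simp))) x.2
            exact h6.symm
          have h7 := letter_comm_of y z h5 true
          rw [wordMat_cons, Matrix.mul_assoc, ihw fun x hx => hw x (by simp [hx]),
            ← Matrix.mul_assoc, h7, Matrix.mul_assoc]
      exact this _ fun x hx => (mem_row hx).1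
    rw [row_succ, row_succ, wordMat_cons, wordMat_cons]
    calc Phi n y z o * (letter n y z (o + 1, true) * wordMat n y z (row (o + 1 + 1) a)) *
          (letter n y z (o, true) * wordMat n y z (row (o + 1) a))
        = Phi n y z o * letter n y z (o + 1, true) * (wordMat n y z (row (o + 2) a) *
          letter n y z (o, true)) * wordMat n y z (row (o + 1) a) := by
            simp only [Matrix.mul_assoc]
      _ = (Phi n y z o * letter n y z (o + 1, true) * letter n y z (o, true)) *
          wordMat n y z (row (o + 1 + 1) a) * wordMat n y z (row (o + 1) a) := by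
            rw [w1]; simp only [Matrix.mul_assoc]
      _ = Phi n y z (o + 1 + a) := by rw [g1, g2]
      _ = Phi n y z (o + (a + 1)) := by rw [show o + 1 + a = o + (a + 1) by ring]

lemma bw_left {o a u : ℕ} (hu : u + 2 ≤ a) : ∀ b, o + a + b ≤ n →
    Phi n y z (o + b + u) * wordMat n y z (bw o a b) =
      wordMat n y z (bw o (a - 2) b) * Phi n y z (o + u)
  | 0, _ => by simp [bw, wordMat]
  | b + 1, hb => by
    have g1 := row_left n y z h (o := o + b) (a := a) (p := o + b + u) (by omega) (by omega)
      (by omega)
    have g2 := bw_left (o := o) hu b (by omega)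
    rw [bw, bw, wordMat_append, wordMat_append, show o + (b + 1) + u = o + b + u + 1 by ring,
      ← Matrix.mul_assoc, g1, Matrix.mul_assoc, g2, Matrix.mul_assoc]

lemma bw_right {o a u : ℕ} : ∀ b, u + 2 ≤ b → o + a + b ≤ n →
    Phi n y z (o + u) * wordMat n y z (bw o a b) =
      wordMat n y z (bw o a (b - 2)) * Phi n y z (o + a + u)
  | 0, hu, _ => by omega
  | 1, hu, _ => by omega
  | b + 2, hu, hb => by
    rcases Nat.lt_or_ge (u + 2) (b + 2) with h1 | h1
    · have g1 := phi_word_high n y z h (q := o + u) (row (o + (b + 1)) a) (fun x hx => by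
        have := mem_row hx; omega)
      rw [sh_row (by omega), show o + (b + 1) - 2 = o + (b - 1) by omega] at g1
      have g2 := bw_right (o := o) (a := a) (u := u) (b + 1) (by omega) (by omega)
      obtain ⟨b, rfl⟩ : ∃ b', b = b' + 1 := ⟨b - 1, by omega⟩
      rw [bw, wordMat_append, ← Matrix.mul_assoc, g1, Matrix.mul_assoc, g2, ← Matrix.mul_assoc,
        ← wordMat_append]
      rfl
    · obtain rfl : u = b := by omega
      have g1 := row_right n y z h (o := o + u) a (by omega)
      have g2 := phi_word_low n y z (q := o + u + a) (bw o a u) (fun x hx => by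
        have := mem_bw hx; omega)
      rw [show u + 2 - 2 = u by omega, bw, bw, wordMat_append, wordMat_append,
        show o + (u + 1) = o + u + 1 by ring]
      calc Phi n y z (o + u) * (wordMat n y z (row (o + u + 1) a) *
            (wordMat n y z (row (o + u) a) * wordMat n y z (bw o a u)))
          = (Phi n y z (o + u) * wordMat n y z (row (o + u + 1) a) *
            wordMat n y z (row (o + u) a)) * wordMat n y z (bw o a u) := by
              simp only [Matrix.mul_assoc]
        _ = wordMat n y z (bw o a u) * Phi n y z (o + u + a) := by rw [g1, g2]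
        _ = wordMat n y z (bw o a u) * Phi n y z (o + a + u) := by
              rw [show o + u + a = o + a + u by ring]

lemma bw_outL {o a b q : ℕ} (hq : q + 2 ≤ o) (hb : o + a + b ≤ n) :
    Phi n y z q * wordMat n y z (bw o a b) = wordMat n y z (bw (o - 2) a b) * Phi n y z q := by
  rw [← sh_bw (by omega)]
  exact phi_word_high n y z h _ fun x hx => by have := mem_bw hx; omega

end slide

end Pool.Agent.AMU
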