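import Pool.Agent.AMU.Coloured

open Matrix

namespace Pool.Agent.AMU

/-- a product of commutators of pure braid words -/
def commWord (L : List (List (ℕ × Bool) × List (ℕ × Bool))) : List (ℕ × Bool) :=
  (L.map fun p => p.1 ++ p.2 ++ winv p.1 ++ winv p.2).flatten

lemma pure_nil (m : ℕ) : PureWord m [] := ⟨fun x hx => by simp at hx, fun _ => rfl⟩

lemma pure_append {m : ℕ} {u v : List (ℕ × Bool)} (hu : PureWord m u) (hv : PureWord m v) :
    PureWord m (u ++ v) :=
  ⟨letters_append hu.1 hv.1, fun l => by rw [outl_append, hv.2, hu.2]⟩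

lemma pure_winv {m : ℕ} {u : List (ℕ × Bool)} (hu : PureWord m u) : PureWord m (winv u) :=
  ⟨letters_winv hu.1, fun l => by
    have := outl_winv l u
    rwa [hu.2] at this⟩

lemma pure_comm {m : ℕ} {u v : List (ℕ × Bool)} (hu : PureWord m u) (hv : PureWord m v) :
    PureWord m (u ++ v ++ winv u ++ winv v) :=
  pure_append (pure_append (pure_append hu hv) (pure_winv hu)) (pure_winv hv)

lemma pure_commWord {m : ℕ} : ∀ {L : List (List (ℕ × Bool) × List (ℕ × Bool))},
    (∀ p ∈ L, PureWord m p.1 ∧ PureWord m p.2) → PureWord m (commWord L)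
  | [], _ => pure_nil m
  | p :: L, hL => by
    obtain ⟨h1, h2⟩ := hL p (by simp)
    exact pure_append (pure_comm h1 h2) (pure_commWord fun q hq => hL q (by simp [hq]))

lemma cab_append_pure {m : ℕ} {u v : List (ℕ × Bool)} (hv : PureWord m v) (c : ℕ → ℕ) :
    cab c (u ++ v) = cab c u ++ cab c v := by
  rw [cab_append, outc_pure hv]

lemma cab_winv_pure {m : ℕ} {u : List (ℕ × Bool)} (hu : PureWord m u) (c : ℕ → ℕ) :
    cab c (winv u) = winv (cab c u) := by
  have := cab_winv c u
  rwa [outc_pure hu] at this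

lemma cab_comm {m : ℕ} {u v : List (ℕ × Bool)} (hu : PureWord m u) (hv : PureWord m v)
    (c : ℕ → ℕ) : cab c (u ++ v ++ winv u ++ winv v) =
      cab c u ++ cab c v ++ winv (cab c u) ++ winv (cab c v) := by
  rw [cab_append_pure (pure_winv hv), cab_append_pure (pure_winv hu), cab_append_pure hv,
    cab_winv_pure hu, cab_winv_pure hv]

/-- Cables of commutators are trivial to second order at `A = 1`. -/
lemma ord_cab {m : ℕ} (c : ℕ → ℕ) : ∀ {L : List (List (ℕ × Bool) × List (ℕ × Bool))},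
    (∀ p ∈ L, PureWord m p.1 ∧ PureWord m p.2) →
    Ord 2 (fun A : ℂ => wordMat (off c m) A A⁻¹ (cab c (commWord L)) - 1)
  | [], _ => by
    intro x x'
    have : (fun A : ℂ => (wordMat (off c m) A A⁻¹ (cab c (commWord [])) - 1) x x') = fun _ => 0 := by
      funext A
      simp [wordMat, commWord, cab]
    rw [this]
    exact Asymptotics.isBigO_zero _ _
  | p :: L, hL => by
    obtain ⟨h1, h2⟩ := hL p (by simp)
    have ih := ord_cab c (L := L) fun q hq => hL q (by simp [hq])
    have e1 : commWord (p :: L) = (p.1 ++ p.2 ++ winv p.1 ++ winv p.2) ++ commWord L := rfl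
    rw [e1, cab_append_pure (pure_commWord fun q hq => hL q (by simp [hq])), cab_comm h1 h2]
    exact ord_mul (ord_comm (ord_word_one (cab_one h1 c)) (ord_word_one (cab_one h2 c))) ih

/-- restriction of a matrix to a stable subspace -/
noncomputable def rst {n : ℕ} {B : Submodule ℂ (Idx n → ℂ)} (M : Matrix (Idx n) (Idx n) ℂ)
    (h : ∀ v ∈ B, M *ᵥ v ∈ B) : B →ₗ[ℂ] B :=
  (Matrix.toLin' M).restrict fun v hv => by rw [Matrix.toLin'_apply]; exact h v hv

lemma rst_apply {n : ℕ} {B : Submodule ℂ (Idx n → ℂ)} (M : Matrix (Idx n) (Idx n) ℂ)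
    (h : ∀ v ∈ B, M *ᵥ v ∈ B) (v : B) : ((rst M h v : B) : Idx n → ℂ) = M *ᵥ (v : Idx n → ℂ) := rfl

lemma rst_mul {n : ℕ} {B : Submodule ℂ (Idx n → ℂ)} {M M' : Matrix (Idx n) (Idx n) ℂ}
    (h : ∀ v ∈ B, M *ᵥ v ∈ B) (h' : ∀ v ∈ B, M' *ᵥ v ∈ B) (h'' : ∀ v ∈ B, (M * M') *ᵥ v ∈ B) :
    rst (M * M') h'' = rst M h ∘ₗ rst M' h' := by
  ext v
  rw [LinearMap.comp_apply, rst_apply, rst_apply, rst_apply, Matrix.mulVec_mulVec]

lemma det_one {n : ℕ} {B : Submodule ℂ (Idx n → ℂ)} {M : Matrix (Idx n) (Idx n) ℂ}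
    (h : ∀ v ∈ B, M *ᵥ v ∈ B) (hM : M = 1) : LinearMap.det (rst M h) = 1 := by
  have : rst M h = LinearMap.id := by
    ext v
    rw [rst_apply, hM, Matrix.one_mulVec]
    rfl
  rw [this, LinearMap.det_id]

/-- The determinant of a product of commutators on a coloured space is `1`. -/
lemma det_comm {m : ℕ} (c : ℕ → ℕ) {A : ℂ} (hA : A ≠ 0) (k : ℕ) :
    ∀ {L : List (List (ℕ × Bool) × List (ℕ × Bool))},
    (∀ p ∈ L, PureWord m p.1 ∧ PureWord m p.2) →
    ∀ h : ∀ v ∈ colBlock m c A k,
      wordMat (off c m) A A⁻¹ (cab c (commWord L)) *ᵥ v ∈ colBlock m c A k,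
    LinearMap.det (rst _ h) = 1
  | [], _, h => det_one h (by simp [wordMat, commWord, cab])
  | p :: L, hL, h => by
    obtain ⟨h1, h2⟩ := hL p (by simp)
    have hL' : ∀ q ∈ L, PureWord m q.1 ∧ PureWord m q.2 := fun q hq => hL q (by simp [hq])
    have e1 : commWord (p :: L) = (p.1 ++ p.2 ++ winv p.1 ++ winv p.2) ++ commWord L := rfl
    have h6 : A * A⁻¹ = 1 := mul_inv_cancel₀ hA
    have st : ∀ {u}, PureWord m u → ∀ v ∈ colBlock m c A k,
        wordMat (off c m) A A⁻¹ (cab c u) *ᵥ v ∈ colBlock m c A k :=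
      fun hu v hv => col_stable hu c hA hv
    have su := st h1
    have sv := st h2
    have su' := st (pure_winv h1)
    have sv' := st (pure_winv h2)
    have sL := st (pure_commWord hL')
    have ih := det_comm c hA k hL' sL
    have e2 : wordMat (off c m) A A⁻¹ (cab c (commWord (p :: L))) =
        wordMat (off c m) A A⁻¹ (cab c p.1) * (wordMat (off c m) A A⁻¹ (cab c p.2) *
          (wordMat (off c m) A A⁻¹ (cab c (winv p.1)) * (wordMat (off c m) A A⁻¹ (cab c (winv p.2)) *
            wordMat (off c m) A A⁻¹ (cab c (commWord L))))) := by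
      rw [e1, cab_append_pure (pure_commWord hL'), cab_comm h1 h2, cab_winv_pure h1,
        cab_winv_pure h2]
      simp only [wordMat_append, Matrix.mul_assoc]
    have hcomp : ∀ {M M' : Matrix (Idx (off c m)) (Idx (off c m)) ℂ},
        (∀ v ∈ colBlock m c A k, M *ᵥ v ∈ colBlock m c A k) →
        (∀ v ∈ colBlock m c A k, M' *ᵥ v ∈ colBlock m c A k) →
        ∀ v ∈ colBlock m c A k, (M * M') *ᵥ v ∈ colBlock m c A k := by
      intro M M' hM hM' v hv
      rw [← Matrix.mulVec_mulVec]
      exact hM _ (hM' v hv)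
    have s4 := hcomp sv' sL
    have s3 := hcomp su' s4
    have s2 := hcomp sv s3
    have s1 := hcomp su s2
    have d1 : LinearMap.det (rst _ su) * LinearMap.det (rst _ su') = 1 := by
      rw [← LinearMap.det_comp, ← rst_mul su su' (hcomp su su')]
      refine det_one _ ?_
      rw [cab_winv_pure h1]
      exact wordMat_mul_winv _ _ _ h6 _
    have d2 : LinearMap.det (rst _ sv) * LinearMap.det (rst _ sv') = 1 := by
      rw [← LinearMap.det_comp, ← rst_mul sv sv' (hcomp sv sv')]
      refine det_one _ ?_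
      rw [cab_winv_pure h2]
      exact wordMat_mul_winv _ _ _ h6 _
    have e3 : rst _ h = rst _ s1 := by
      ext v
      rw [rst_apply, rst_apply, e2]
    rw [e3, rst_mul su s2, rst_mul sv s3, rst_mul su' s4, rst_mul sv' sL, LinearMap.det_comp,
      LinearMap.det_comp, LinearMap.det_comp, LinearMap.det_comp, ih]
    linear_combination LinearMap.det (rst _ sv) * LinearMap.det (rst _ sv') * d1 + d2

/-- The AMU conclusion with arbitrary colours, bounded by `C`. -/
def AMUCol (m : ℕ) (w : List (ℕ × Bool)) (C : ℕ → ℕ) : Prop :=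
  ∃ N0 : ℕ, ∀ N, N0 ≤ N → ∀ A : ℂ, IsPrimitiveRoot A N →
    ∃ c : ℕ → ℕ, (∀ i, c i ≤ C i) ∧ ∃ k, ColInfinite m c A w k

theorem col_main {m : ℕ} {L : List (List (ℕ × Bool) × List (ℕ × Bool))}
    (hL : ∀ p ∈ L, PureWord m p.1 ∧ PureWord m p.2) (C : ℕ → ℕ)
    (h : ¬ AMUCol m (commWord L) C) {A : ℂ} (hA : A ≠ 0) :
    wordMat (off C m) A A⁻¹ (cab C (commWord L)) = 1 := by
  have hw := pure_commWord hL
  rcases Nat.eq_zero_or_pos (off C m) with hz | hn
  · -- no strands
    have h1 : ∀ x ∈ cab C (commWord L), x.1 + 1 < 0 := by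
      have := letters_cab C hw.1
      rw [hz] at this
      exact this
    have h2 : cab C (commWord L) = [] := by
      rcases h3 : cab C (commWord L) with _ | ⟨x, w⟩
      · rfl
      · have := h1 x (by rw [h3]; simp)
        omega
    rw [h2, wordMat_nil]
  refine trivial_of_unimod hn (ord_cab C hL) ?_ hA
  intro A0 hA0 l hl
  refine unimodular_of_frequently _ _ (fun N0 => ?_) A0 hA0 l hl
  unfold AMUCol at h
  push Not at h
  obtain ⟨N, hN, A, hA, hk⟩ := h (max N0 (4 * off C m + 1))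
  have hN1 : N0 ≤ N := (le_max_left _ _).trans hN
  have hN2 : 4 * off C m + 1 ≤ N := (le_max_right _ _).trans hN
  have hA00 : A ≠ 0 := hA.ne_zero (by omega)
  have hroots : ∀ l, Eig (wordMat (off C m) A A⁻¹ (cab C (commWord L))) l →
      ∃ M, 0 < M ∧ l ^ M = 1 := by
    intro l hl
    obtain ⟨c, hc, k, v, hv, hv0, hvl⟩ := col_descent hw _ C rfl
      (gen_of_primitive hA (by omega)) hl
    have h3 := hk c hc k
    unfold ColInfinite at h3
    push Not at h3
    obtain ⟨p, hp, t, ht⟩ := h3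
    have st : ∀ v ∈ colBlock m c A k,
        wordMat (off c m) A A⁻¹ (cab c (commWord L)) *ᵥ v ∈ colBlock m c A k :=
      fun v hv => col_stable hw c hA00 hv
    have hdet := det_comm c hA00 k hL st
    set f := rst _ st with hf
    have e3 : ∀ q : ℕ, ∀ v : colBlock m c A k, ((f ^ q) v : Idx (off c m) → ℂ) =
        (wordMat (off c m) A A⁻¹ (cab c (commWord L)) ^ q) *ᵥ (v : Idx (off c m) → ℂ) := by
      intro q
      induction q with
      | zero => intro v; simp
      | succ q ihq =>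
        intro v
        rw [pow_succ, Module.End.mul_apply, ihq, pow_succ, ← Matrix.mulVec_mulVec]
        rfl
    have e4 : f ^ p = t • (1 : colBlock m c A k →ₗ[ℂ] colBlock m c A k) := by
      ext v
      rw [e3, ht v v.2]
      simp
    have e5 := congrArg LinearMap.det e4
    rw [map_pow, LinearMap.det_smul, map_one, mul_one, hdet, one_pow] at e5
    have hfr : 0 < Module.finrank ℂ (colBlock m c A k) := by
      have : Nontrivial (colBlock m c A k) := ⟨⟨v, hv⟩, 0, fun h => hv0 (congrArg Subtype.val h)⟩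
      exact Module.finrank_pos
    have h7 := ht v hv
    rw [eig_pow _ hvl] at h7
    have h8 : l ^ p = t := by
      have h9 : (l ^ p - t) • v = 0 := by rw [sub_smul, h7, sub_self]
      exact sub_eq_zero.1 ((smul_eq_zero.1 h9).resolve_right hv0)
    exact ⟨p * Module.finrank ℂ (colBlock m c A k), Nat.mul_pos hp hfr, by
      rw [pow_mul, h8, ← e5]⟩
  refine ⟨N, hN1, fun A' hA' l hl => ?_⟩
  obtain ⟨M, hM, hM'⟩ := common_exponent _ hroots
  exact norm_eq_one_of_pow hM (eig_transfer (by omega) hA hA' _ hM' l hl)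

end Pool.Agent.AMU
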