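import Pool.Agent.AMU.Comm

open Matrix

namespace Pool.Agent.AMU

/-- The braid `f` has infinite order in the projective group of `V_r(Σ_{0,n+1}; 1, …, 1, n - 2k)`. -/
def InfiniteOrderAt {n : ℕ} (A : ℂˣ) (f : BraidGroup n) (k : ℕ) : Prop :=
  ∀ p : ℕ, 0 < p → ∀ c : ℂ, ∃ v ∈ block n A k, ((rep n A f).val ^ p) *ᵥ v ≠ c • v

/-- The conclusion of the AMU conjecture for the braid `f`, with colour `1` at the `n` punctures:
for all large `N` and all primitive `N`-th roots of unity `A`, some colour `n - 2 k` of the outer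
boundary component makes the image of `f` an element of infinite order. -/
def AMUHolds {n : ℕ} (f : BraidGroup n) : Prop :=
  ∃ N0 : ℕ, ∀ N, N0 ≤ N → ∀ A : ℂˣ, IsPrimitiveRoot A N →
    ∃ k, 2 * k ≤ n ∧ InfiniteOrderAt A f k

/-- The braid `f` acts with finite order at all roots of unity of order larger than `4 n`. -/
def FiniteOrderEverywhere {n : ℕ} (f : BraidGroup n) : Prop :=
  ∀ N, 4 * n < N → ∀ A : ℂˣ, IsPrimitiveRoot A N → ∃ M, 0 < M ∧ rep n A f ^ M = 1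

/-- The Kauffman bracket of the closure of a braid, `-A² - A⁻²` for the closure of the one-strand
braid. -/
noncomputable def kauffman {n : ℕ} (A : ℂˣ) (f : BraidGroup n) : ℂ :=
  (clos n (A : ℂ) (A : ℂ)⁻¹ * (rep n A f).val).trace

lemma infinite_iff {n : ℕ} (A : ℂˣ) (f : BraidGroup n) (k : ℕ) :
    InfiniteOrderAt A f k ↔ InfiniteOrder n A (word f) k := by
  unfold InfiniteOrderAt InfiniteOrder
  rw [word_spec]

lemma amu_iff {n : ℕ} (f : BraidGroup n) : AMUHolds f ↔ AMUProp n (word f) := by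
  constructor
  · rintro ⟨N0, h⟩
    refine ⟨max N0 1, fun N hN A hA => ?_⟩
    have hN0 : N0 ≤ N := (le_max_left _ _).trans hN
    have hN1 : 1 ≤ N := (le_max_right _ _).trans hN
    have hA0 : A ≠ 0 := hA.ne_zero (by omega)
    have hA' : IsPrimitiveRoot (Units.mk0 A hA0) N :=
      IsPrimitiveRoot.coe_units_iff.1 (by simpa using hA)
    obtain ⟨k, hk, hi⟩ := h N hN0 _ hA'
    exact ⟨k, hk, by simpa using (infinite_iff _ _ _).1 hi⟩
  · rintro ⟨N0, h⟩
    refine ⟨N0, fun N hN A hA => ?_⟩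
    obtain ⟨k, hk, hi⟩ := h N hN A (IsPrimitiveRoot.coe_units_iff.2 hA)
    exact ⟨k, hk, (infinite_iff _ _ _).2 hi⟩

lemma word_pow {n : ℕ} (f : BraidGroup n) (p : ℕ) (A : ℂˣ) :
    (rep n A (f ^ p)).val = wordMat n (A : ℂ) (A : ℂ)⁻¹ (List.replicate p (word f)).flatten := by
  rw [wordMat_pow, ← word_spec, map_pow, Units.val_pow_eq_pow_val]

theorem zero_one (n : ℕ) (hn : 0 < n) (f : BraidGroup n) :
    (AMUHolds f ∨ FiniteOrderEverywhere f) ∧ ¬ (AMUHolds f ∧ FiniteOrderEverywhere f) ∧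
    (AMUHolds f ↔ ∃ (A : ℂˣ) (l : ℂ), ‖(A : ℂ)‖ = 1 ∧ ‖l‖ ≠ 1 ∧
      ∃ v : Idx n → ℂ, v ≠ 0 ∧ (rep n A f).val *ᵥ v = l • v) ∧
    (¬ AMUHolds f → ∀ (p : ℕ) (A : ℂˣ), ‖(A : ℂ)‖ = 1 → ‖kauffman A (f ^ p)‖ ≤ 2 ^ n) := by
  obtain ⟨h1, h2, h3, h4, h5⟩ := main n hn (word f)
  have hfin : (∀ N, 4 * n < N → ∀ A : ℂ, IsPrimitiveRoot A N →
      ∃ M, 0 < M ∧ wordMat n A A⁻¹ (word f) ^ M = 1) → FiniteOrderEverywhere f := by
    intro h N hN A hA
    obtain ⟨M, hM, hM1⟩ := h N hN A (IsPrimitiveRoot.coe_units_iff.2 hA)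
    refine ⟨M, hM, Units.ext ?_⟩
    rw [Units.val_pow_eq_pow_val, word_spec, hM1, Units.val_one]
  refine ⟨?_, ?_, ?_, ?_⟩
  · rcases h1 with h | h
    · exact Or.inl ((amu_iff f).2 h)
    · exact Or.inr (hfin h)
  · rintro ⟨⟨N0, ha⟩, hb⟩
    set N := max N0 (4 * n + 1)
    have hN1 : N0 ≤ N := le_max_left _ _
    have hN2 : 4 * n + 1 ≤ N := le_max_right _ _
    have hA := Complex.isPrimitiveRoot_exp N (by omega)
    have hA0 := hA.ne_zero (by omega)
    have hA' : IsPrimitiveRoot (Units.mk0 _ hA0) N :=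
      IsPrimitiveRoot.coe_units_iff.1 (by simpa using hA)
    obtain ⟨k, -, hk⟩ := ha N hN1 _ hA'
    obtain ⟨M, hM, hM1⟩ := hb N (by omega) _ hA'
    obtain ⟨v, -, hv⟩ := hk M hM 1
    apply hv
    rw [← Units.val_pow_eq_pow_val, hM1, Units.val_one, Matrix.one_mulVec, one_smul]
  · rw [amu_iff, h2]
    constructor
    · rintro ⟨A, l, hA, hl, v, hv, hE⟩
      have hA0 := ne_zero_of_unit hA
      refine ⟨Units.mk0 A hA0, l, hA, hl, v, hv, ?_⟩
      rw [word_spec' f hA0]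
      exact hE
    · rintro ⟨A, l, hA, hl, v, hv, hE⟩
      rw [word_spec] at hE
      exact ⟨A, l, hA, hl, v, hv, hE⟩
  · intro h p A hA
    by_contra hne
    push Not at hne
    apply h
    rw [amu_iff]
    refine h5 p A hA ?_
    unfold kauffman at hne
    rw [word_pow] at hne
    exact hne

theorem commutator_case (n : ℕ) (hn : 0 < n) (f : BraidGroup n)
    (hf : f ∈ ⁅PureBraid n, PureBraid n⁆) : AMUHolds f ∨ ∀ A : ℂˣ, rep n A f = 1 := by
  by_cases h : AMUHolds f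
  · exact Or.inl h
  · right
    intro A
    rw [amu_iff] at h
    apply Units.ext
    rw [word_spec, Units.val_one]
    exact trivial_of_ord_two hn (ord_commutator hf) h A.ne_zero

end Pool.Agent.AMU
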