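import Pool.Agent.AMU.CabPerm
import Pool.Agent.AMU.Statement

open Matrix

namespace Pool.Agent.AMU

/-- `V_r(Σ_{0,m+1}; c_0, …, c_{m-1}, n - 2k)`, where `n` is the sum of the colours: the highest
weight vectors in the `n`-th tensor power which are killed by all Temperley–Lieb generators
inside the cables. -/
noncomputable def colBlock (m : ℕ) (c : ℕ → ℕ) (A : ℂ) (k : ℕ) :
    Submodule ℂ (Idx (off c m) → ℂ) where
  carrier := {v | v ∈ block (off c m) A k ∧
    ∀ l u, l < m → u + 2 ≤ c l → tl (off c m) A A⁻¹ (off c l + u) *ᵥ v = 0}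
  zero_mem' := ⟨(block (off c m) A k).zero_mem, fun _ _ _ _ => Matrix.mulVec_zero _⟩
  add_mem' := by
    rintro u v ⟨hu, hu'⟩ ⟨hv, hv'⟩
    exact ⟨(block (off c m) A k).add_mem hu hv, fun l i hl hi => by
      rw [Matrix.mulVec_add, hu' l i hl hi, hv' l i hl hi, add_zero]⟩
  smul_mem' := by
    rintro t v ⟨hv, hv'⟩
    exact ⟨(block (off c m) A k).smul_mem t hv, fun l i hl hi => by
      rw [Matrix.mulVec_smul, hv' l i hl hi, smul_zero]⟩

/-- The pure braid word `w` on `m` strands has infinite order in the projective group of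
`V_r(Σ_{0,m+1}; c_0, …, c_{m-1}, n - 2k)`. -/
def ColInfinite (m : ℕ) (c : ℕ → ℕ) (A : ℂ) (w : List (ℕ × Bool)) (k : ℕ) : Prop :=
  ∀ p : ℕ, 0 < p → ∀ t : ℂ, ∃ v ∈ colBlock m c A k,
    (wordMat (off c m) A A⁻¹ (cab c w) ^ p) *ᵥ v ≠ t • v

lemma col_stable {m : ℕ} {w : List (ℕ × Bool)} (hw : PureWord m w) (c : ℕ → ℕ) {A : ℂ} (hA : A ≠ 0)
    {k : ℕ} {v : Idx (off c m) → ℂ} (hv : v ∈ colBlock m c A k) :
    wordMat (off c m) A A⁻¹ (cab c w) *ᵥ v ∈ colBlock m c A k := by
  refine ⟨block_word hA hv.1 _, fun l u hl hu => ?_⟩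
  have h6 : A * A⁻¹ = 1 := mul_inv_cancel₀ hA
  have hpos : off c l + u + 1 < off c m := by
    have := off_mono c (show l + 1 ≤ m from hl)
    rw [off_succ] at this
    omega
  have h1 := slide_word A A⁻¹ h6 (c := c) (l := l) (u := u) (m := m) (n := off c m) hl hu le_rfl hw.1
  rw [outc_pure hw, hw.2 l] at h1
  obtain ⟨P, hP⟩ := exists_phi_left (off c m) A A⁻¹ h6 (q := off c l + u) hpos
  obtain ⟨D, hD⟩ := phi_factor (off c m) A A⁻¹ (off c l + u)
  have h2 : Phi (off c m) A A⁻¹ (off c l + u) *ᵥ v = 0 := by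
    rw [hD, ← Matrix.mulVec_mulVec, hv.2 l u hl hu, Matrix.mulVec_zero]
  rw [← hP, Matrix.mulVec_mulVec, Matrix.mul_assoc, h1, ← Matrix.mulVec_mulVec,
    ← Matrix.mulVec_mulVec, h2, Matrix.mulVec_zero, Matrix.mulVec_zero]

/-- words on the first `n` strands act on `n + 1` strands strand by strand -/
lemma word_blk {n : ℕ} (y z : ℂ) : ∀ {w : List (ℕ × Bool)}, Letters n w →
    wordMat (n + 1) y z w = blk (wordMat n y z w) 0 0 (wordMat n y z w)
  | [], _ => by rw [wordMat_nil, wordMat_nil, blk_one]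
  | x :: w, hw => by
    have hw' : Letters n w := fun x hx => hw x (by simp [hx])
    have hx := hw x (by simp)
    obtain ⟨k, rfl⟩ : ∃ k, n = k + 2 := ⟨n - 2, by omega⟩
    have h1 : letter (k + 2 + 1) y z x = blk (letter (k + 2) y z x) 0 0 (letter (k + 2) y z x) := by
      have h2 : tl (k + 2 + 1) y z x.1 = blk (tl (k + 2) y z x.1) 0 0 (tl (k + 2) y z x.1) :=
        tl_of_ne (by omega) y z
      unfold letter
      split_ifs
      · rw [h2, blk_one, blk_smul, blk_smul, blk_add]
        simp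
      · rw [h2, blk_one, blk_smul, blk_smul, blk_add]
        simp
    rw [wordMat_cons, wordMat_cons, word_blk y z hw', h1, blk_mul]
    simp

lemma eig_blk {n : ℕ} {y z l : ℂ} {w : List (ℕ × Bool)} (hw : Letters n w)
    (h : Eig (wordMat (n + 1) y z w) l) : Eig (wordMat n y z w) l := by
  obtain ⟨v, hv, hl⟩ := h
  rw [word_blk y z hw] at hl
  have h1 := congrArg vl hl
  have h2 := congrArg vr hl
  rw [vl_blk, Matrix.zero_mulVec, add_zero] at h1
  rw [vr_blk, Matrix.zero_mulVec, zero_add] at h2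
  by_cases h0 : vl v = 0
  · refine ⟨vr v, fun h3 => hv (ext_lr h0 h3), h2⟩
  · exact ⟨vl v, h0, h1⟩

/-- Every eigenvalue of a cabled pure braid occurs on some space with colours at most `c`. -/
lemma col_descent {m : ℕ} {w : List (ℕ × Bool)} (hw : PureWord m w) {A : ℂ} {l : ℂ} :
    ∀ s (c : ℕ → ℕ), off c m = s → Gen s A →
      Eig (wordMat (off c m) A A⁻¹ (cab c w)) l →
      ∃ c' : ℕ → ℕ, (∀ i, c' i ≤ c i) ∧ ∃ k, ∃ v ∈ colBlock m c' A k, v ≠ 0 ∧
        wordMat (off c' m) A A⁻¹ (cab c' w) *ᵥ v = l • v := by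
  intro s
  induction s using Nat.strong_induction_on with
  | _ s ih =>
    intro c hs hg hl
    have hA := hg.1
    have h6 : A * A⁻¹ = 1 := mul_inv_cancel₀ hA
    subst hs
    obtain ⟨k, hk, v, hv, hv0, hvl⟩ := eig_on_block hg (cab c w) hl
    by_cases hcol : v ∈ colBlock m c A k
    · exact ⟨c, fun _ => le_rfl, k, v, hcol, hv0, hvl⟩
    · have hex : ∃ j u, j < m ∧ u + 2 ≤ c j ∧ tl (off c m) A A⁻¹ (off c j + u) *ᵥ v ≠ 0 := by
        by_contra hne
        push Not at hne
        exact hcol ⟨hv, hne⟩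
      obtain ⟨j, u, hj, hu, hne⟩ := hex
      have hpos : off c j + u + 1 < off c m := by
        have := off_mono c (show j + 1 ≤ m from hj)
        rw [off_succ] at this
        omega
      have h1 := slide_word A A⁻¹ h6 (c := c) (l := j) (u := u) (m := m) (n := off c m) hj hu le_rfl
        hw.1
      rw [outc_pure hw, hw.2 j] at h1
      obtain ⟨P, hP⟩ := exists_phi_left (off c m) A A⁻¹ h6 (q := off c j + u) hpos
      have h2 : Phi (off c m) A A⁻¹ (off c j + u) *ᵥ v ≠ 0 := by
        intro h3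
        apply hne
        rw [← hP, ← Matrix.mulVec_mulVec, h3, Matrix.mulVec_zero]
      have hred := off_red_gt c (l := j) (i := m) hj (by omega)
      have h4 : Eig (wordMat (off (red c j) m + 2) A A⁻¹ (cab (red c j) w)) l := by
        rw [hred]
        refine ⟨_, h2, ?_⟩
        rw [Matrix.mulVec_mulVec, ← h1, ← Matrix.mulVec_mulVec, hvl, Matrix.mulVec_smul]
      have hlet := letters_cab (red c j) hw.1
      have hlet' : Letters (off (red c j) m + 1) (cab (red c j) w) := fun x hx => by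
        have := hlet x hx
        omega
      have h5 := eig_blk hlet (eig_blk hlet' h4)
      have hg' : Gen (off (red c j) m) A := ⟨hg.1, fun i h1 h2 => hg.2 i h1 (by omega)⟩
      obtain ⟨c', hc', rest⟩ := ih (off (red c j) m) (by omega) (red c j) rfl hg' h5
      refine ⟨c', fun i => (hc' i).trans ?_, rest⟩
      unfold red
      by_cases hi : i = j
      · subst hi
        rw [Function.update_self]
        omega
      · rw [Function.update_of_ne hi]

end Pool.Agent.AMU
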