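import Pool.Agent.AMU.Order

open Matrix Filter Topology Asymptotics

namespace Pool.Agent.AMU

/-- distance of a nontrivial root of unity from `1` -/
lemma root_dist {l : ℂ} {M : ℕ} (hM : 0 < M) (h : l ^ M = 1) (h1 : l ≠ 1) : 1 ≤ M * ‖l - 1‖ := by
  have hn : ‖l‖ = 1 := norm_eq_one_of_pow hM h
  have hsum : ∑ i ∈ Finset.range M, l ^ i = 0 := by
    have := mul_neg_geom_sum l M
    rw [h, sub_self] at this
    exact (mul_eq_zero.1 this).resolve_left (sub_ne_zero.2 h1.symm)
  have hpow : ∀ i : ℕ, ‖1 - l ^ i‖ ≤ i * ‖l - 1‖ := by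
    intro i
    induction i with
    | zero => simp
    | succ i ih =>
      have e : 1 - l ^ (i + 1) = (1 - l ^ i) - l ^ i * (l - 1) := by ring
      rw [e]
      refine (norm_sub_le _ _).trans ?_
      rw [norm_mul, norm_pow, hn, one_pow, one_mul, Nat.cast_add, Nat.cast_one, add_mul, one_mul]
      linarith
  have h2 : (M : ℂ) = ∑ i ∈ Finset.range M, (1 - l ^ i) := by
    rw [Finset.sum_sub_distrib, hsum, sub_zero]
    simp
  have h3 : (M : ℝ) ≤ ∑ i ∈ Finset.range M, (M : ℝ) * ‖l - 1‖ := by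
    calc (M : ℝ) = ‖(M : ℂ)‖ := by simp
      _ ≤ ∑ i ∈ Finset.range M, ‖1 - l ^ i‖ := by rw [h2]; exact norm_sum_le _ _
      _ ≤ ∑ i ∈ Finset.range M, (M : ℝ) * ‖l - 1‖ := by
        refine Finset.sum_le_sum fun i hi => (hpow i).trans ?_
        have : (i : ℝ) ≤ M := by exact_mod_cast (Finset.mem_range.1 hi).le
        exact mul_le_mul_of_nonneg_right this (norm_nonneg _)
  rw [Finset.sum_const, Finset.card_range, nsmul_eq_mul] at h3
  have hM' : (0 : ℝ) < M := by exact_mod_cast hM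
  nlinarith

lemma norm_pow_sub_one_le {l : ℂ} (hn : ‖l‖ = 1) (M : ℕ) : ‖l ^ M - 1‖ ≤ M * ‖l - 1‖ := by
  induction M with
  | zero => simp
  | succ i ih =>
    have e : l ^ (i + 1) - 1 = (l ^ i - 1) + l ^ i * (l - 1) := by ring
    rw [e]
    refine (norm_add_le _ _).trans ?_
    rw [norm_mul, norm_pow, hn, one_pow, one_mul, Nat.cast_add, Nat.cast_one, add_mul, one_mul]
    linarith

/-- eigenvalues of a matrix close to the identity are close to `1` -/
lemma eig_close {n : ℕ} {T : Matrix (Idx n) (Idx n) ℂ} {ε : ℝ} (h : ∀ x y, ‖(T - 1) x y‖ ≤ ε)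
    {l : ℂ} (hl : Eig T l) : ‖l - 1‖ ≤ Fintype.card (Idx n) * ε := by
  obtain ⟨v, hv, hTv⟩ := hl
  obtain ⟨x0, hx0⟩ := Function.ne_iff.1 hv
  obtain ⟨x, -, hx⟩ := Finset.exists_max_image Finset.univ (fun x => ‖v x‖) ⟨x0, Finset.mem_univ _⟩
  have hpos : 0 < ‖v x‖ := lt_of_lt_of_le (norm_pos_iff.2 hx0) (hx x0 (Finset.mem_univ _))
  have h1 : (l - 1) * v x = ∑ y, (T - 1) x y * v y := by
    have h2 := congrFun hTv x
    have h3 : ((T - 1) *ᵥ v) x = (l - 1) * v x := by
      rw [Matrix.sub_mulVec, Matrix.one_mulVec, Pi.sub_apply, h2, Pi.smul_apply, smul_eq_mul]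
      ring
    rw [← h3]
    rfl
  have h4 : ‖l - 1‖ * ‖v x‖ ≤ (Fintype.card (Idx n) * ε) * ‖v x‖ := by
    rw [← norm_mul, h1]
    calc ‖∑ y, (T - 1) x y * v y‖ ≤ ∑ y, ‖(T - 1) x y * v y‖ := norm_sum_le _ _
      _ ≤ ∑ _y : Idx n, ε * ‖v x‖ := by
        refine Finset.sum_le_sum fun y _ => ?_
        rw [norm_mul]
        exact mul_le_mul (h x y) (hx y (Finset.mem_univ _)) (norm_nonneg _)
          ((norm_nonneg _).trans (h x y))
      _ = (Fintype.card (Idx n) * ε) * ‖v x‖ := by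
        rw [Finset.sum_const, Finset.card_univ, nsmul_eq_mul]
        ring
  exact le_of_mul_le_mul_right h4 hpos

/-- the standard primitive `N`-th root of unity -/
noncomputable def Au (N : ℕ) : ℂ := Complex.exp (((2 * Real.pi / N : ℝ) : ℂ) * Complex.I)

lemma Au_prim {N : ℕ} (hN : 0 < N) : IsPrimitiveRoot (Au N) N := by
  have := Complex.isPrimitiveRoot_exp N (by omega)
  unfold Au
  convert this using 2
  push_cast
  ring

lemma Au_dist (N : ℕ) : ‖Au N - 1‖ ≤ 2 * Real.pi / N := by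
  unfold Au
  rw [mul_comm]
  refine (Real.norm_exp_I_mul_ofReal_sub_one_le).trans ?_
  rw [Real.norm_of_nonneg (by positivity)]

lemma Au_tendsto : Tendsto Au atTop (𝓝 1) := by
  rw [tendsto_iff_norm_sub_tendsto_zero]
  refine squeeze_zero (fun N => norm_nonneg _) Au_dist ?_
  exact tendsto_const_div_atTop_nhds_zero_nat _

/-- all eigenvalues on the unit circle are unimodular -/
def Unimod (n : ℕ) (w : List (ℕ × Bool)) : Prop :=
  ∀ A : ℂ, ‖A‖ = 1 → ∀ l, Eig (wordMat n A A⁻¹ w) l → ‖l‖ = 1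

/-- If all eigenvalues on the circle are unimodular, those at roots of unity are roots of unity. -/
lemma roots_of_unimod {n : ℕ} {w : List (ℕ × Bool)} (h : Unimod n w) {N : ℕ} (hN : 0 < N) {A : ℂ}
    (hA : IsPrimitiveRoot A N) {l : ℂ} (hl : Eig (wordMat n A A⁻¹ w) l) :
    ∃ m, 0 < m ∧ l ^ m = 1 :=
  kronecker hN w (fun A' hA' l hl => h A' (hA'.norm'_eq_one (by omega)) l hl) hA hl

lemma exists_bound {n k : ℕ} {F : ℂ → Matrix (Idx n) (Idx n) ℂ} (hF : Ord k F) :
    ∃ C : ℝ, 0 < C ∧ ∀ᶠ A in 𝓝 (1 : ℂ), ∀ x y, ‖F A x y‖ ≤ C * ‖A - 1‖ ^ k := by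
  have h1 : ∀ p : Idx n × Idx n, ∃ C : ℝ, 0 < C ∧ ∀ᶠ A in 𝓝 (1 : ℂ),
      ‖F A p.1 p.2‖ ≤ C * ‖A - 1‖ ^ k := by
    intro p
    obtain ⟨C, hC, h2⟩ := (hF p.1 p.2).exists_pos
    refine ⟨C, hC, ?_⟩
    filter_upwards [h2.bound] with A hA
    simpa using hA
  choose C hC hC' using h1
  refine ⟨∑ p, C p + 1, by
    have : 0 ≤ ∑ p, C p := Finset.sum_nonneg fun p _ => (hC p).le
    linarith, ?_⟩
  filter_upwards [Filter.eventually_all.2 hC'] with A hA x y
  refine (hA (x, y)).trans (mul_le_mul_of_nonneg_right ?_ (by positivity))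
  have : C (x, y) ≤ ∑ p, C p :=
    Finset.single_le_sum (fun p _ => (hC p).le) (Finset.mem_univ (x, y))
  linarith

/-- Identity theorem: if the matrices agree at the points `Au N` for large `N`, they agree. -/
lemma identity_word {n : ℕ} {w w' : List (ℕ × Bool)}
    (h : ∀ᶠ N : ℕ in atTop, wordMat n (Au N) (Au N)⁻¹ w = wordMat n (Au N) (Au N)⁻¹ w') {A : ℂ}
    (hA : A ≠ 0) : wordMat n A A⁻¹ w = wordMat n A A⁻¹ w' := by
  ext x y
  have hd : DifferentiableOn ℂ (fun A : ℂ => wordMat n A A⁻¹ w x y - wordMat n A A⁻¹ w' x y)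
      ({0}ᶜ : Set ℂ) := fun A hA =>
    ((diffAt_word n w x y hA).sub (diffAt_word n w' x y hA)).differentiableWithinAt
  have ha := hd.analyticOnNhd isOpen_compl_singleton
  have hpre : IsPreconnected ({0}ᶜ : Set ℂ) :=
    (isConnected_compl_singleton_of_one_lt_rank (by simp) 0).isPreconnected
  have hfreq : ∃ᶠ z in 𝓝[≠] (1 : ℂ),
      wordMat n z z⁻¹ w x y - wordMat n z z⁻¹ w' x y = 0 := by
    have h1 : Tendsto Au atTop (𝓝[≠] 1) := by
      refine tendsto_nhdsWithin_iff.2 ⟨Au_tendsto, ?_⟩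
      filter_upwards [eventually_gt_atTop 1] with N hN
      exact (Au_prim (by omega)).ne_one hN
    refine h1.frequently (Eventually.frequently ?_)
    filter_upwards [h] with N hN
    rw [hN, sub_self]
  have := ha.eqOn_zero_of_preconnected_of_frequently_eq_zero hpre
    (show (1 : ℂ) ∈ ({0}ᶜ : Set ℂ) by simp) hfreq hA
  exact sub_eq_zero.1 this

/-- A braid whose operator is the identity up to second order at `A = 1` has an eigenvalue off the
unit circle for some `A` on it, or acts trivially for all `A`. -/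
lemma trivial_of_unimod {n : ℕ} (hn : 0 < n) {w : List (ℕ × Bool)}
    (h2 : Ord 2 (fun A : ℂ => wordMat n A A⁻¹ w - 1)) (h : Unimod n w) {A : ℂ} (hA : A ≠ 0) :
    wordMat n A A⁻¹ w = 1 := by
  obtain ⟨C, hC, hC'⟩ := exists_bound h2
  set D : ℝ := (Fintype.card (Idx n) : ℝ) with hD
  set M := (2 * Fintype.card (Idx n)).factorial with hM
  have hM0 : 0 < M := Nat.factorial_pos _
  have hMr : (0 : ℝ) < M := by exact_mod_cast hM0
  have hD0 : 0 ≤ D := by positivity
  have hev : ∀ᶠ N : ℕ in atTop, wordMat n (Au N) (Au N)⁻¹ w = wordMat n (Au N) (Au N)⁻¹ [] := by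
    -- large `N`
    have e1 : ∀ᶠ N : ℕ in atTop, (M : ℝ) * (D * (C * (2 * Real.pi / N) ^ 2)) * N < 1 := by
      have : Tendsto (fun N : ℕ => (M : ℝ) * (D * (C * (2 * Real.pi) ^ 2)) / N) atTop (𝓝 0) :=
        tendsto_const_div_atTop_nhds_zero_nat _
      filter_upwards [this.eventually (gt_mem_nhds one_pos), eventually_gt_atTop 0] with N hN hN0
      have hN0' : (0 : ℝ) < N := by exact_mod_cast hN0
      have e : (M : ℝ) * (D * (C * (2 * Real.pi / N) ^ 2)) * N =
          (M : ℝ) * (D * (C * (2 * Real.pi) ^ 2)) / N := by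
        field_simp
      rwa [e]
    filter_upwards [e1, eventually_gt_atTop (4 * n), Au_tendsto.eventually hC'] with N h1 h3 h4
    have hN0 : 0 < N := by omega
    have hN0' : (0 : ℝ) < N := by exact_mod_cast hN0
    have hN1' : (1 : ℝ) ≤ N := by exact_mod_cast hN0
    have hprim := Au_prim hN0
    have hd : ‖Au N - 1‖ ^ 2 ≤ (2 * Real.pi / N) ^ 2 :=
      pow_le_pow_left₀ (norm_nonneg _) (Au_dist N) 2
    have hclose : ∀ l, Eig (wordMat n (Au N) (Au N)⁻¹ w) l →
        ‖l - 1‖ ≤ D * (C * (2 * Real.pi / N) ^ 2) := by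
      intro l hl
      refine (eig_close (ε := C * (2 * Real.pi / N) ^ 2) (fun x y => ?_) hl)
      exact (h4 x y).trans (mul_le_mul_of_nonneg_left hd hC.le)
    have hone : ∀ l, Eig (wordMat n (Au N) (Au N)⁻¹ w) l → l ^ 1 = 1 := by
      intro l hl
      obtain ⟨m, hm, hlm⟩ := roots_of_unimod h hN0 hprim hl
      have hln := norm_eq_one_of_pow hm hlm
      obtain ⟨a, ha⟩ := exponent hN0 hprim w hl ⟨m, hm, hlm⟩
      have hcl := hclose l hl
      have h5 : l ^ M = 1 := by
        by_contra hne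
        have h6 : (l ^ M) ^ N = 1 := by
          rw [hM, ha, ← pow_mul, mul_comm, pow_mul, hprim.pow_eq_one, one_pow]
        have h7 := root_dist hN0 h6 hne
        have h8 := norm_pow_sub_one_le hln M
        have h9 : (M : ℝ) * ‖l - 1‖ ≤ M * (D * (C * (2 * Real.pi / N) ^ 2)) :=
          mul_le_mul_of_nonneg_left hcl hMr.le
        have h10 : (N : ℝ) * ‖l ^ M - 1‖ ≤ M * (D * (C * (2 * Real.pi / N) ^ 2)) * N := by
          rw [mul_comm]
          exact mul_le_mul_of_nonneg_right (h8.trans h9) hN0'.le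
        linarith
      rw [pow_one]
      by_contra hne
      have h7 := root_dist hM0 h5 hne
      have h9 : (M : ℝ) * ‖l - 1‖ ≤ M * (D * (C * (2 * Real.pi / N) ^ 2)) :=
        mul_le_mul_of_nonneg_left hcl hMr.le
      have h10 : (M : ℝ) * (D * (C * (2 * Real.pi / N) ^ 2)) ≤
          M * (D * (C * (2 * Real.pi / N) ^ 2)) * N :=
        le_mul_of_one_le_right (by positivity) hN1'
      linarith
    have huni := unipotent_of_eig _ 1 hone
    rw [pow_one] at huni
    have := trivial_of_unipotent rfl (angle_pos hn h3) w _ huni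
    rw [wordMat_nil]
    exact this
  have := identity_word hev hA
  rwa [wordMat_nil] at this

/-- A braid whose operator is the identity up to second order at `A = 1` satisfies the AMU
property or acts trivially for all `A`. -/
lemma trivial_of_ord_two {n : ℕ} (hn : 0 < n) {w : List (ℕ × Bool)}
    (h2 : Ord 2 (fun A : ℂ => wordMat n A A⁻¹ w - 1)) (h : ¬ AMUProp n w) {A : ℂ} (hA : A ≠ 0) :
    wordMat n A A⁻¹ w = 1 :=
  trivial_of_unimod hn h2 (fun A0 hA0 l hl => unimodular_of_not h A0 hA0 l hl) hA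

end Pool.Agent.AMU
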