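import Mathlib

open Matrix

namespace Pool.Agent.AMU

/-- Spin configurations on `n` strands, built one strand at a time: `inl` adds a strand carrying the
bit `0`, `inr` adds a strand carrying the bit `1`. -/
def Idx : ℕ → Type
  | 0 => Unit
  | n + 1 => Idx n ⊕ Idx n

instance instFintypeIdx : (n : ℕ) → Fintype (Idx n)
  | 0 => inferInstanceAs (Fintype Unit)
  | n + 1 => by
    have := instFintypeIdx n
    exact inferInstanceAs (Fintype (Idx n ⊕ Idx n))

instance instDecEqIdx : (n : ℕ) → DecidableEq (Idx n)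
  | 0 => inferInstanceAs (DecidableEq Unit)
  | n + 1 => by
    have := instDecEqIdx n
    exact inferInstanceAs (DecidableEq (Idx n ⊕ Idx n))

/-- The number of strands carrying the bit `1`. -/
def ones : (n : ℕ) → Idx n → ℕ
  | 0, _ => 0
  | n + 1, Sum.inl x => ones n x
  | n + 1, Sum.inr x => ones n x + 1

variable {R : Type*} [CommRing R]

/-- The operator on `n + 1` strands with the blocks `a, b, c, d` with respect to the bit of the last
strand (rows and columns `0`, `1`). -/
def blk {n : ℕ} (a b c d : Matrix (Idx n) (Idx n) R) : Matrix (Idx (n + 1)) (Idx (n + 1)) R :=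
  Matrix.fromBlocks a b c d

/-- The Temperley–Lieb generator (cup after cap) on the last two of `n + 2` strands; `y = A` and
`z = A⁻¹`. -/
def tlLast (n : ℕ) (y z : R) : Matrix (Idx (n + 2)) (Idx (n + 2)) R :=
  blk (blk 0 0 0 (-(z ^ 2) • 1)) (blk 0 0 1 0) (blk 0 1 0 0) (blk (-(y ^ 2) • 1) 0 0 0)

/-- The Temperley–Lieb generator on the strands number `i` and `i + 1` (counted from `0`) of `n`
strands, acting on the `n`-th tensor power of `R ^ 2`. -/
def tl : (n : ℕ) → (y z : R) → ℕ → Matrix (Idx n) (Idx n) R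
  | 0, _, _, _ => 0
  | 1, _, _, _ => 0
  | n + 2, y, z, i => if i = n then tlLast n y z else blk (tl (n + 1) y z i) 0 0 (tl (n + 1) y z i)

/-- The operator of a letter: `(i, true)` is the braid generator `σ_i`, acting as `A + A⁻¹ e_i`,
and `(i, false)` is its inverse, acting as `A⁻¹ + A e_i` (Kauffman bracket skein relation). -/
def letter (n : ℕ) (y z : R) (l : ℕ × Bool) : Matrix (Idx n) (Idx n) R :=
  if l.2 then y • 1 + z • tl n y z l.1 else z • 1 + y • tl n y z l.1

/-- The operator of a braid word. -/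
def wordMat (n : ℕ) (y z : R) (w : List (ℕ × Bool)) : Matrix (Idx n) (Idx n) R :=
  (w.map (letter n y z)).prod

/-- The diagonal operator used to close the strands: `-A²` for every bit `0`, `-A⁻²` for every
bit `1`. -/
def clos : (n : ℕ) → (y z : R) → Matrix (Idx n) (Idx n) R
  | 0, _, _ => 1
  | n + 1, y, z => blk (-(y ^ 2) • clos n y z) 0 0 (-(z ^ 2) • clos n y z)

/-- The Kauffman bracket of the closure of a braid word, by its vertex model; it takes the value
`-A² - A⁻²` on the closure of the one-strand braid. -/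
def bracket (n : ℕ) (y z : R) (w : List (ℕ × Bool)) : R :=
  (clos n y z * wordMat n y z w).trace

/-- The operator `K⁻¹` of quantum `sl_2` on `n` strands: `A⁻¹` for every bit `0`, `A` for every
bit `1`. -/
def kinv : (n : ℕ) → (y z : R) → Matrix (Idx n) (Idx n) R
  | 0, _, _ => 1
  | n + 1, y, z => blk (z • kinv n y z) 0 0 (y • kinv n y z)

/-- The raising operator `E` of quantum `sl_2` on `n` strands; on `n + 1` strands it is
`E ⊗ K + K⁻¹ ⊗ E`. -/
def raise : (n : ℕ) → (y z : R) → Matrix (Idx n) (Idx n) R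
  | 0, _, _ => 0
  | n + 1, y, z => blk (y • raise n y z) (kinv n y z) 0 (z • raise n y z)

/-- The space `V_r(Σ_{0,n+1}; 1, …, 1, n - 2k)`: the highest weight vectors of weight `n - 2k` in the
`n`-th tensor power of the two-dimensional representation of quantum `sl_2` at `q = A²` (up to the
usual conventions), that is, `Hom(V_{n-2k}, V_1^{⊗ n})`. -/
noncomputable def block (n : ℕ) (A : ℂ) (k : ℕ) : Submodule ℂ (Idx n → ℂ) where
  carrier := {v | raise n A A⁻¹ *ᵥ v = 0 ∧ ∀ x, ones n x ≠ k → v x = 0}
  zero_mem' := ⟨by simp, fun _ _ => rfl⟩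
  add_mem' := by
    rintro u v ⟨hu, hu'⟩ ⟨hv, hv'⟩
    exact ⟨by rw [Matrix.mulVec_add, hu, hv, add_zero], fun x hx => by simp [hu' x hx, hv' x hx]⟩
  smul_mem' := by
    rintro c v ⟨hv, hv'⟩
    exact ⟨by rw [Matrix.mulVec_smul, hv, smul_zero], fun x hx => by simp [hv' x hx]⟩

/-- The braid word `w` acts on `V_r(Σ_{0,n+1}; 1, …, 1, n - 2k)` by an element of infinite order of
the projective group: no positive power of it is a scalar map. -/
def InfiniteOrder (n : ℕ) (A : ℂ) (w : List (ℕ × Bool)) (k : ℕ) : Prop :=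
  ∀ p : ℕ, 0 < p → ∀ c : ℂ, ∃ v ∈ block n A k, (wordMat n A A⁻¹ w ^ p) *ᵥ v ≠ c • v

end Pool.Agent.AMU
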