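import Pool.Agent.AMU.Galois

open Matrix

namespace Pool.Agent.AMU

/-- a number congruent to `1` modulo `d` in every interval of length `d` -/
lemma exists_one_mod (d x : ℕ) (hd : 0 < d) : ∃ a, x ≤ a ∧ a ≤ x + d ∧ a ≡ 1 [MOD d] := by
  refine ⟨d * (x / d + 1) + 1 - (if x ≤ d * (x / d) + 1 then d else 0), ?_, ?_, ?_⟩
  · have h1 := Nat.div_add_mod x d
    have h2 := Nat.mod_lt x hd
    rw [Nat.mul_add, Nat.mul_one]
    split_ifs with h <;> omega
  · have h1 := Nat.div_add_mod x d
    have h2 := Nat.mod_lt x hd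
    rw [Nat.mul_add, Nat.mul_one]
    split_ifs with h <;> omega
  · rw [Nat.mul_add, Nat.mul_one]
    split_ifs with h
    · have : d * (x / d) + d + 1 - d = d * (x / d) + 1 := by omega
      rw [this]
      unfold Nat.ModEq
      simp [Nat.add_mod]
    · unfold Nat.ModEq
      simp [Nat.add_mod]

lemma coprime_of_one_mod {a d N : ℕ} (h : a ≡ 1 [MOD d]) (hN : ∀ p, p.Prime → p ∣ N → p ∣ d) :
    a.Coprime N := by
  rw [Nat.coprime_iff_gcd_eq_one]
  by_contra hg
  obtain ⟨p, hp, hpg⟩ := Nat.exists_prime_and_dvd hg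
  have h1 : p ∣ a := hpg.trans (Nat.gcd_dvd_left _ _)
  have h2 : p ∣ d := hN p hp (hpg.trans (Nat.gcd_dvd_right _ _))
  have h3 : a ≡ 1 [MOD p] := h.of_dvd h2
  have h4 : p ∣ 1 := (Nat.modEq_zero_iff_dvd.1 (h3.symm.trans (Nat.modEq_zero_iff_dvd.2 h1)))
  exact hp.one_lt.ne' (Nat.dvd_one.1 h4)

/-- Integers coprime to `N` are dense on the scale `N`. -/
lemma coprime_near (B : ℕ) (hB : 0 < B) (N : ℕ) (hN : B * B.factorial ≤ N) (x : ℕ) :
    ∃ a, x ≤ a ∧ B * (a - x) ≤ 2 * N ∧ a.Coprime N := by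
  have hN0 : 0 < N := lt_of_lt_of_le (Nat.mul_pos hB (Nat.factorial_pos B)) hN
  by_cases h : ∃ p, p.Prime ∧ p ∣ N ∧ B < p
  · obtain ⟨p, hp, ⟨m, hm⟩, hBp⟩ := h
    have hm0 : 0 < m := Nat.pos_of_ne_zero (by rintro rfl; omega)
    have hBm : B * m ≤ N := by rw [hm]; exact Nat.mul_le_mul_right m hBp.le
    obtain ⟨a, ha1, ha2, ha3⟩ := exists_one_mod m x hm0
    by_cases hpm : p ∣ m
    · refine ⟨a, ha1, ?_, coprime_of_one_mod ha3 fun q hq hqN => ?_⟩
      · calc B * (a - x) ≤ B * m := Nat.mul_le_mul_left _ (by omega)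
          _ ≤ 2 * N := by omega
      · rw [hm] at hqN
        rcases (hq.dvd_mul).1 hqN with h1 | h1
        · rw [(Nat.prime_dvd_prime_iff_eq hq hp).1 h1]
          exact hpm
        · exact h1
    · have key : ∀ b, b ≡ 1 [MOD m] → ¬ p ∣ b → b.Coprime N := by
        intro b hb hpb
        rw [hm]
        refine Nat.Coprime.mul_right ?_ (coprime_of_one_mod hb fun q _ hq => hq)
        exact ((Nat.Prime.coprime_iff_not_dvd hp).2 hpb).symm
      by_cases hpa : p ∣ a
      · refine ⟨a + m, by omega, ?_, key _ ?_ ?_⟩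
        · calc B * (a + m - x) ≤ B * (2 * m) := Nat.mul_le_mul_left _ (by omega)
            _ = 2 * (B * m) := by ring
            _ ≤ 2 * N := by omega
        · have : a + m ≡ 1 + 0 [MOD m] := Nat.ModEq.add ha3 (by unfold Nat.ModEq; simp)
          simpa using this
        · intro h1
          exact hpm ((Nat.dvd_add_right hpa).1 h1)
      · refine ⟨a, ha1, ?_, key _ ha3 hpa⟩
        calc B * (a - x) ≤ B * m := Nat.mul_le_mul_left _ (by omega)
          _ ≤ 2 * N := by omega
  · obtain ⟨a, ha1, ha2, ha3⟩ := exists_one_mod B.factorial x (Nat.factorial_pos B)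
    refine ⟨a, ha1, ?_, coprime_of_one_mod ha3 fun q hq hqN => ?_⟩
    · calc B * (a - x) ≤ B * B.factorial := Nat.mul_le_mul_left _ (by omega)
        _ ≤ 2 * N := by omega
    · have : ¬ B < q := fun h1 => h ⟨q, hq, hqN, h1⟩
      exact (hq.dvd_factorial).2 (by omega)

/-- Primitive `N`-th roots of unity become dense on the circle. -/
lemma primitive_dense (A0 : ℂ) (hA0 : ‖A0‖ = 1) (ε : ℝ) (hε : 0 < ε) :
    ∃ N0 : ℕ, ∀ N, N0 ≤ N → ∃ A, IsPrimitiveRoot A N ∧ dist A A0 < ε := by
  obtain ⟨t, ht⟩ : ∃ t : ℝ, 0 ≤ t ∧ Complex.exp (2 * Real.pi * Complex.I * t) = A0 := by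
    have h1 : A0 = Complex.exp (A0.arg * Complex.I) := by
      have := Complex.norm_mul_exp_arg_mul_I A0
      rw [hA0] at this
      simpa using this.symm
    refine ⟨A0.arg / (2 * Real.pi) + 1, ?_, ?_⟩
    · have h2 := Complex.neg_pi_lt_arg A0
      have h3 : -1 ≤ A0.arg / (2 * Real.pi) := by
        rw [le_div_iff₀ (by positivity)]
        nlinarith [Real.pi_pos]
      linarith
    · have h4 : (2 * Real.pi * Complex.I * ((A0.arg / (2 * Real.pi) + 1 : ℝ) : ℂ)) =
          A0.arg * Complex.I + 2 * Real.pi * Complex.I := by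
        push_cast
        have : (Real.pi : ℂ) ≠ 0 := Complex.ofReal_ne_zero.2 Real.pi_ne_zero
        field_simp
      rw [h4, Complex.exp_add, Complex.exp_two_pi_mul_I, mul_one]
      exact h1.symm
  obtain ⟨ht0, ht⟩ := ht
  have hcont : Continuous fun s : ℝ => Complex.exp (2 * Real.pi * Complex.I * s) := by fun_prop
  obtain ⟨δ, hδ, hδ'⟩ := Metric.continuous_iff.1 hcont t ε hε
  obtain ⟨B, hB⟩ := exists_nat_gt (4 / δ)
  have hB0 : 0 < B := by
    have : (0 : ℝ) < B := lt_trans (by positivity) hB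
    exact_mod_cast this
  refine ⟨max (B * B.factorial) (B + 1), fun N hN => ?_⟩
  have hN1 : B * B.factorial ≤ N := (le_max_left _ _).trans hN
  have hN2 : B + 1 ≤ N := (le_max_right _ _).trans hN
  have hN0 : (0 : ℝ) < N := by
    have : 0 < N := by omega
    exact_mod_cast this
  obtain ⟨a, ha1, ha2, ha3⟩ := coprime_near B hB0 N hN1 ⌊t * N⌋₊
  refine ⟨Complex.exp (2 * Real.pi * Complex.I * (a / N)),
    Complex.isPrimitiveRoot_exp_of_coprime a N (by omega) ha3, ?_⟩
  have h5 := hδ' ((a : ℝ) / N) ?_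
  · rw [ht] at h5
    push_cast at h5
    exact h5
  · have h6 : (⌊t * N⌋₊ : ℝ) ≤ t * N := Nat.floor_le (by positivity)
    have h7 : t * N < ⌊t * N⌋₊ + 1 := Nat.lt_floor_add_one _
    have h8 : (⌊t * N⌋₊ : ℝ) ≤ a := by exact_mod_cast ha1
    have h9 : (B : ℝ) * (a - ⌊t * N⌋₊) ≤ 2 * N := by
      have h10 : ((B * (a - ⌊t * N⌋₊) : ℕ) : ℝ) ≤ ((2 * N : ℕ) : ℝ) := by exact_mod_cast ha2
      rw [Nat.cast_mul, Nat.cast_sub ha1] at h10
      push_cast at h10
      exact h10
    have hB' : (0 : ℝ) < B := by exact_mod_cast hB0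
    have hBN : (B : ℝ) ≤ N := by
      have : B ≤ N := by omega
      exact_mod_cast this
    have h11 : 4 < δ * B := by
      rw [div_lt_iff₀ hδ] at hB
      linarith
    rw [Real.dist_eq]
    have h12 : |(a : ℝ) / N - t| = |(a : ℝ) - t * N| / N := by
      rw [← abs_of_pos hN0, ← abs_div, abs_of_pos hN0]
      congr 1
      field_simp
    rw [h12, div_lt_iff₀ hN0, abs_lt]
    have h13 : (a : ℝ) - ⌊t * N⌋₊ ≤ δ / 2 * N := by
      have : (B : ℝ) * (a - ⌊t * N⌋₊) ≤ B * (δ / 2 * N) := by
        calc (B : ℝ) * (a - ⌊t * N⌋₊) ≤ 2 * N := h9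
          _ ≤ (δ * B) / 2 * N := by nlinarith
          _ = B * (δ / 2 * N) := by ring
      exact le_of_mul_le_mul_left this hB'
    have h14 : 1 < δ / 2 * N := by
      nlinarith
    constructor <;> nlinarith

lemma continuous_word (n : ℕ) (w : List (ℕ × Bool)) :
    Continuous fun p : ℂ × ℂ => wordMat n p.1 p.2 w := by
  have hblk : ∀ {m : ℕ} {a b c d : ℂ × ℂ → Matrix (Idx m) (Idx m) ℂ}, Continuous a → Continuous b →
      Continuous c → Continuous d → Continuous fun p => blk (a p) (b p) (c p) (d p) :=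
    fun ha hb hc hd => Continuous.matrix_fromBlocks ha hb hc hd
  have htl : ∀ n i : ℕ, Continuous fun p : ℂ × ℂ => tl n p.1 p.2 i := by
    intro n
    induction n using Nat.strong_induction_on with
    | _ n ih =>
      intro i
      match n, ih with
      | 0, _ => exact continuous_const
      | 1, _ => exact continuous_const
      | n + 2, ih =>
        by_cases hi : i = n
        · subst hi
          simp only [tl_last]
          unfold tlLast
          refine hblk (hblk continuous_const continuous_const continuous_const ?_)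
            continuous_const continuous_const (hblk ?_ continuous_const continuous_const
            continuous_const)
          · exact ((continuous_snd.pow 2).neg).smul continuous_const
          · exact ((continuous_fst.pow 2).neg).smul continuous_const
        · simp only [tl_of_ne hi]
          exact hblk (ih (n + 1) (by omega) i) continuous_const continuous_const
            (ih (n + 1) (by omega) i)
  have hl : ∀ l : ℕ × Bool, Continuous fun p : ℂ × ℂ => letter n p.1 p.2 l := by
    intro l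
    unfold letter
    by_cases h : l.2 = true
    · simp only [h, if_true]
      exact (continuous_fst.smul continuous_const).add (continuous_snd.smul (htl n l.1))
    · simp only [h]
      exact (continuous_snd.smul continuous_const).add (continuous_fst.smul (htl n l.1))
  induction w with
  | nil => exact continuous_const
  | cons l w ih =>
    simp only [wordMat_cons]
    exact (hl l).matrix_mul ih

lemma continuousAt_word (n : ℕ) (w : List (ℕ × Bool)) {A0 : ℂ} (h : A0 ≠ 0) :
    ContinuousAt (fun A : ℂ => wordMat n A A⁻¹ w) A0 := by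
  have h1 : ContinuousAt (fun A : ℂ => (A, A⁻¹)) A0 :=
    continuousAt_id.prodMk (continuousAt_inv₀ h)
  exact ContinuousAt.comp (f := fun A : ℂ => (A, A⁻¹)) (g := fun p : ℂ × ℂ => wordMat n p.1 p.2 w)
    (continuous_word n w).continuousAt h1

/-- If for arbitrarily large `N` all eigenvalues at all primitive `N`-th roots of unity are
unimodular, then they are unimodular on the whole circle. -/
lemma unimodular_of_frequently (n : ℕ) (w : List (ℕ × Bool))
    (h : ∀ N0 : ℕ, ∃ N, N0 ≤ N ∧ ∀ A : ℂ, IsPrimitiveRoot A N →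
      ∀ l, Eig (wordMat n A A⁻¹ w) l → ‖l‖ = 1) (A0 : ℂ) (hA0 : ‖A0‖ = 1) (l : ℂ)
    (hl : Eig (wordMat n A0 A0⁻¹ w) l) : ‖l‖ = 1 := by
  by_contra hne
  have hη : 0 < |‖l‖ - 1| ^ Fintype.card (Idx n) := by
    have : 0 < |‖l‖ - 1| := abs_pos.2 (sub_ne_zero.2 hne)
    positivity
  have hA0' : A0 ≠ 0 := by rintro rfl; simp at hA0
  have hc : ContinuousAt (fun A : ℂ => ‖(Matrix.scalar (Idx n) l - wordMat n A A⁻¹ w).det‖) A0 := by
    have h1 : ContinuousAt (fun A : ℂ => Matrix.scalar (Idx n) l - wordMat n A A⁻¹ w) A0 :=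
      continuousAt_const.sub (continuousAt_word n w hA0')
    have h2 : Continuous fun M : Matrix (Idx n) (Idx n) ℂ => ‖M.det‖ :=
      continuous_id.matrix_det.norm
    exact ContinuousAt.comp (g := fun M : Matrix (Idx n) (Idx n) ℂ => ‖M.det‖) h2.continuousAt h1
  rw [Metric.continuousAt_iff] at hc
  obtain ⟨ε, hε, hc⟩ := hc _ hη
  obtain ⟨N0, hN0⟩ := primitive_dense A0 hA0 ε hε
  obtain ⟨N, hN, hN'⟩ := h N0
  obtain ⟨A, hA, hAd⟩ := hN0 N hN
  have h1 := hc hAd
  rw [(eig_iff_det _ _).1 hl, norm_zero, Real.dist_eq, sub_zero, abs_of_nonneg (norm_nonneg _)] at h1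
  have h2 := norm_det_ge _ (hN' A hA) l
  linarith

end Pool.Agent.AMU
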