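import Pool.Agent.AMU.Letters

open Matrix

namespace Pool.Agent.AMU

variable {R : Type*} [CommRing R]

/-- `e_{q+k} ⋯ e_{q+1} e_q` -/
def down (n : ℕ) (y z : R) (q : ℕ) : ℕ → Matrix (Idx n) (Idx n) R
  | 0 => tl n y z q
  | k + 1 => tl n y z (q + k + 1) * down n y z q k

lemma down_zero (n : ℕ) (y z : R) (q : ℕ) : down n y z q 0 = tl n y z q := rfl

lemma down_succ (n : ℕ) (y z : R) (q k : ℕ) :
    down n y z q (k + 1) = tl n y z (q + k + 1) * down n y z q k := rfl

lemma down_succ' (n : ℕ) (y z : R) (q : ℕ) : ∀ k,
    down n y z q (k + 1) = down n y z (q + 1) k * tl n y z q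
  | 0 => rfl
  | k + 1 => by
    rw [down_succ, down_succ' n y z q k, down_succ, ← Matrix.mul_assoc,
      show q + (k + 1) + 1 = q + 1 + k + 1 by ring]

/-- generators far from all factors commute with the product -/
lemma down_comm_low (n : ℕ) (y z : R) {q i : ℕ} (h : i + 2 ≤ q) : ∀ k,
    down n y z q k * tl n y z i = tl n y z i * down n y z q k
  | 0 => (tl_far y z n i q h).symm
  | k + 1 => by
    rw [down_succ, Matrix.mul_assoc, down_comm_low n y z h k, ← Matrix.mul_assoc,
      ← tl_far y z n i (q + k + 1) (by omega), Matrix.mul_assoc]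

lemma down_comm_high (n : ℕ) (y z : R) {q i : ℕ} : ∀ k, q + k + 2 ≤ i →
    down n y z q k * tl n y z i = tl n y z i * down n y z q k
  | 0, h => tl_far y z n q i (by omega)
  | k + 1, h => by
    rw [down_succ, Matrix.mul_assoc, down_comm_high n y z k (by omega), ← Matrix.mul_assoc,
      tl_far y z n (q + k + 1) i (by omega), Matrix.mul_assoc]

/-- sliding a generator through the product -/
lemma down_slide (n : ℕ) (y z : R) (h : y * z = 1) {q i : ℕ} (hqi : q ≤ i) : ∀ k,
    i + 2 ≤ q + k → q + k + 1 < n →
    down n y z q k * tl n y z (i + 2) = tl n y z i * down n y z q k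
  | 0, h1, h2 => by omega
  | 1, h1, h2 => by omega
  | k + 2, h1, h2 => by
    rcases Nat.lt_or_ge (i + 2) (q + (k + 2)) with h3 | h3
    · rw [down_succ, Matrix.mul_assoc, down_slide n y z h hqi (k + 1) (by omega) (by omega),
        ← Matrix.mul_assoc, ← tl_far y z n i (q + (k + 1) + 1) (by omega), Matrix.mul_assoc]
    · obtain rfl : i = q + k := by omega
      have e1 : down n y z q k * tl n y z (q + k + 2) = tl n y z (q + k + 2) * down n y z q k :=
        down_comm_high n y z k le_rfl
      obtain ⟨n1, n2⟩ := tl_near y z h n (q + k) (by omega)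
      obtain ⟨m1, m2⟩ := tl_near y z h n (q + k + 1) (by omega)
      have e2 : tl n y z (q + k) * down n y z q k = (if k = 0 then tl n y z (q + k) * tl n y z q else
          tl n y z (q + k) * down n y z q k) := by
        split_ifs with hk
        · subst hk; rfl
        · rfl
      have e3 : tl n y z (q + k) * tl n y z (q + k + 1) * down n y z q k = down n y z q k := by
        rcases k with _ | k
        · exact n1
        · rw [down_succ, ← Matrix.mul_assoc, show q + (k + 1) = q + k + 1 by ring] at *
          rw [n1]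
      rw [down_succ, down_succ, show q + (k + 1) + 1 = q + k + 2 by ring]
      calc tl n y z (q + k + 2) * (tl n y z (q + k + 1) * down n y z q k) * tl n y z (q + k + 2)
          = tl n y z (q + k + 2) * tl n y z (q + k + 1) *
              (down n y z q k * tl n y z (q + k + 2)) := by simp only [Matrix.mul_assoc]
        _ = (tl n y z (q + k + 1 + 1) * tl n y z (q + k + 1) * tl n y z (q + k + 1 + 1)) *
              down n y z q k := by rw [e1]; simp only [Matrix.mul_assoc]
        _ = tl n y z (q + k + 2) * down n y z q k := by rw [m2]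
        _ = tl n y z (q + k + 2) * (tl n y z (q + k) * tl n y z (q + k + 1) * down n y z q k) := by
            rw [e3]
        _ = (tl n y z (q + k + 2) * tl n y z (q + k)) * (tl n y z (q + k + 1) * down n y z q k) := by
            simp only [Matrix.mul_assoc]
        _ = tl n y z (q + k) * (tl n y z (q + k + 2) * (tl n y z (q + k + 1) * down n y z q k)) := by
            rw [← tl_far y z n (q + k) (q + k + 2) le_rfl]; simp only [Matrix.mul_assoc]

/-- letters commute with whatever the generators commute with -/
lemma letter_comm_of {n : ℕ} (y z : R) {M : Matrix (Idx n) (Idx n) R} {i j : ℕ}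
    (h : M * tl n y z i = tl n y z j * M) (s : Bool) :
    M * letter n y z (i, s) = letter n y z (j, s) * M := by
  cases s
  · simp only [letter, Bool.false_eq_true, if_false, Matrix.mul_add, Matrix.add_mul, Matrix.mul_smul,
      Matrix.smul_mul, Matrix.mul_one, Matrix.one_mul, h]
  · simp only [letter, if_true, Matrix.mul_add, Matrix.add_mul, Matrix.mul_smul,
      Matrix.smul_mul, Matrix.mul_one, Matrix.one_mul, h]

/-- `e_j σ_i σ_j = e_j e_i` for neighbouring `i`, `j`. -/
lemma tl_letters {n : ℕ} (y z : R) (h : y * z = 1) {i j : ℕ}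
    (hij : tl n y z j * tl n y z i * tl n y z j = tl n y z j) (s : Bool) :
    tl n y z j * letter n y z (i, s) * letter n y z (j, s) = tl n y z j * tl n y z i := by
  have h1 := tl_mul_self n y z j h
  have key : ∀ a b : R, a * b = 1 → (a * a + b * b - (y ^ 2 + z ^ 2)) = 0 →
      tl n y z j * (a • 1 + b • tl n y z i) * (a • 1 + b • tl n y z j) =
        tl n y z j * tl n y z i := by
    intro a b hab hk
    have hz : z ^ 2 * y ^ 2 = 1 := by rw [← mul_pow, mul_comm z y, h, one_pow]
    have e1 : tl n y z j * (a • 1 + b • tl n y z i) * (a • 1 + b • tl n y z j) =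
        (a * a) • tl n y z j + (a * b) • (tl n y z j * tl n y z j) +
          (b * a) • (tl n y z j * tl n y z i) + (b * b) • (tl n y z j * tl n y z i * tl n y z j) := by
      simp only [Matrix.add_mul, Matrix.mul_add, Matrix.mul_smul, Matrix.smul_mul, Matrix.mul_one,
        smul_smul, smul_add]
      module
    rw [e1, hij, h1, smul_smul]
    have e2 : (a * a) • tl n y z j + (a * b * (-(y ^ 2) - z ^ 2)) • tl n y z j +
        (b * a) • (tl n y z j * tl n y z i) + (b * b) • tl n y z j =
        (a * a + a * b * (-(y ^ 2) - z ^ 2) + b * b) • tl n y z j +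
          (b * a) • (tl n y z j * tl n y z i) := by module
    have e3 : a * a + a * b * (-(y ^ 2) - z ^ 2) + b * b = 0 := by
      linear_combination hk + (-(y ^ 2) - z ^ 2) * hab
    rw [e2, e3, zero_smul, zero_add, mul_comm b a, hab, one_smul]
  cases s
  · simp only [letter, Bool.false_eq_true, if_false]
    exact key z y (by rw [mul_comm]; exact h) (by ring)
  · simp only [letter, if_true]
    exact key y z h (by ring)

/-- the product `e_{n-2} ⋯ e_q` -/
def Phi (n : ℕ) (y z : R) (q : ℕ) : Matrix (Idx n) (Idx n) R := down n y z q (n - 2 - q)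

lemma phi_low (n : ℕ) (y z : R) {q i : ℕ} (h : i + 2 ≤ q) (s : Bool) :
    Phi n y z q * letter n y z (i, s) = letter n y z (i, s) * Phi n y z q :=
  letter_comm_of y z (down_comm_low n y z h _) s

lemma phi_slide (n : ℕ) (y z : R) (h : y * z = 1) {q i : ℕ} (hqi : q ≤ i) (hi : i + 3 < n + 0)
    (s : Bool) : Phi n y z q * letter n y z (i + 2, s) = letter n y z (i, s) * Phi n y z q :=
  letter_comm_of y z (down_slide n y z h hqi _ (by omega) (by omega)) s

lemma phi_succ (n : ℕ) (y z : R) {q : ℕ} (hq : q + 2 < n) :
    Phi n y z q = Phi n y z (q + 1) * tl n y z q := by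
  unfold Phi
  rw [show n - 2 - q = (n - 2 - (q + 1)) + 1 by omega, down_succ']

/-- `Φ_q = D * e_q` -/
lemma phi_factor (n : ℕ) (y z : R) (q : ℕ) :
    ∃ D, Phi n y z q = D * tl n y z q := by
  unfold Phi
  rcases h : n - 2 - q with _ | k
  · exact ⟨1, by rw [down_zero, Matrix.one_mul]⟩
  · exact ⟨_, down_succ' n y z q k⟩

lemma phi_right (n : ℕ) (y z : R) (h : y * z = 1) {q : ℕ} (hq : q + 2 < n) (s : Bool) :
    Phi n y z (q + 1) * letter n y z (q, s) * letter n y z (q + 1, s) = Phi n y z q := by
  obtain ⟨D, hD⟩ := phi_factor n y z (q + 1)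
  have h1 := tl_letters y z h (tl_near y z h n q hq).2 s
  rw [phi_succ n y z hq, hD]
  calc D * tl n y z (q + 1) * letter n y z (q, s) * letter n y z (q + 1, s) =
      D * (tl n y z (q + 1) * letter n y z (q, s) * letter n y z (q + 1, s)) := by
        simp only [Matrix.mul_assoc]
    _ = D * tl n y z (q + 1) * tl n y z q := by rw [h1, Matrix.mul_assoc]

lemma phi_left (n : ℕ) (y z : R) (h : y * z = 1) {q : ℕ} (hq : q + 2 < n) (s : Bool) :
    Phi n y z q * letter n y z (q + 1, s) * letter n y z (q, s) = Phi n y z (q + 1) := by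
  obtain ⟨D, hD⟩ := phi_factor n y z (q + 1)
  have h1 := tl_letters y z h (tl_near y z h n q hq).1 s
  rw [phi_succ n y z hq, hD]
  calc D * tl n y z (q + 1) * tl n y z q * letter n y z (q + 1, s) * letter n y z (q, s) =
      D * tl n y z (q + 1) * (tl n y z q * letter n y z (q + 1, s) * letter n y z (q, s)) := by
        simp only [Matrix.mul_assoc]
    _ = D * (tl n y z (q + 1) * tl n y z q * tl n y z (q + 1)) := by
        rw [h1]; simp only [Matrix.mul_assoc]
    _ = D * tl n y z (q + 1) := by rw [(tl_near y z h n q hq).2]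

/-- `e_q` factors through `Φ_q`. -/
lemma exists_left (n : ℕ) (y z : R) (h : y * z = 1) {q : ℕ} : ∀ k, q + k + 1 < n →
    ∃ P, P * down n y z q k = tl n y z q
  | 0, _ => ⟨1, by rw [Matrix.one_mul]; rfl⟩
  | k + 1, hk => by
    obtain ⟨P, hP⟩ := exists_left n y z h (q := q) k (by omega)
    rcases k with _ | k
    · refine ⟨tl n y z q, ?_⟩
      rw [down_succ, down_zero, ← Matrix.mul_assoc, (tl_near y z h n q (by omega)).1]
    · refine ⟨P * tl n y z (q + k + 1), ?_⟩
      have e : tl n y z (q + k + 1) * (tl n y z (q + (k + 1) + 1) * down n y z q (k + 1)) =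
          down n y z q (k + 1) := by
        rw [down_succ, ← Matrix.mul_assoc, ← Matrix.mul_assoc,
          show q + (k + 1) + 1 = q + k + 1 + 1 by ring,
          (tl_near y z h n (q + k + 1) (by omega)).1]
      rw [down_succ, Matrix.mul_assoc, e, hP]

lemma exists_phi_left (n : ℕ) (y z : R) (h : y * z = 1) {q : ℕ} (hq : q + 1 < n) :
    ∃ P, P * Phi n y z q = tl n y z q := exists_left n y z h _ (by omega)

end Pool.Agent.AMU
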