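import Pool.Agent.AMU.Unit
import Pool.Agent.AMU.Dens

open Matrix

namespace Pool.Agent.AMU

lemma mulVec_sub_one_pow {n : ℕ} (U : Matrix (Idx n) (Idx n) ℂ) (j : ℕ) (u : Idx n → ℂ) :
    ((U - 1) ^ (j + 1)) *ᵥ u = U *ᵥ (((U - 1) ^ j) *ᵥ u) - ((U - 1) ^ j) *ᵥ u := by
  rw [pow_succ', ← Matrix.mulVec_mulVec, Matrix.sub_mulVec, Matrix.one_mulVec]

/-- Unipotent braids at a positive root of unity are trivial. -/
lemma trivial_of_unipotent {n : ℕ} {t : ℝ} {A : ℂ} (hA : A = Complex.exp (t * Complex.I))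
    (ht : PosAngle n t) (w : List (ℕ × Bool)) (D : ℕ)
    (h : (wordMat n A A⁻¹ w - 1) ^ D = 0) : wordMat n A A⁻¹ w = 1 := by
  have hun := unit_of hA
  have hu0 : A ≠ 0 := ne_zero_of_unit hun
  have h6 : A * A⁻¹ = 1 := mul_inv_cancel₀ hu0
  have hgen := gen_of_angle ht hA
  have hpos := pos_block hA n ht
  set U := wordMat n A A⁻¹ w with hU
  -- a vector of the form `U x - x` fixed by `U` in a block vanishes
  have step0 : ∀ k, 2 * k ≤ n → ∀ x : Idx n → ℂ, U *ᵥ x - x ∈ block n A k →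
      U *ᵥ (U *ᵥ x - x) = U *ᵥ x - x → U *ᵥ x - x = 0 := by
    intro k hk x hx hfix
    obtain ⟨r, -, hr1, hr⟩ := hpos k hk _ hx
    apply hr1
    have e1 : form n A (n - 2 * k) (U *ᵥ x - x) (U *ᵥ x - x) = 0 := by
      rw [form_sub_left]
      conv_lhs =>
        enter [1]
        rw [← hfix]
      rw [form_word hun, sub_self]
    rw [e1] at hr
    have h7 : ((-1 : ℂ)) ^ k ≠ 0 := pow_ne_zero _ (by norm_num)
    exact Complex.ofReal_eq_zero.1 ((mul_eq_zero.1 hr.symm).resolve_left h7)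
  have hmem : ∀ k, ∀ x ∈ block n A k, U *ᵥ x - x ∈ block n A k := fun k x hx =>
    (block n A k).sub_mem (block_word hu0 hx w) hx
  have hmem2 : ∀ k, ∀ x ∈ block n A k, ∀ j, ((U - 1) ^ j) *ᵥ x ∈ block n A k := by
    intro k x hx j
    induction j with
    | zero => simpa using hx
    | succ j ih => rw [mulVec_sub_one_pow]; exact hmem k _ ih
  -- `U` is trivial on the blocks
  have step1 : ∀ k, 2 * k ≤ n → ∀ x ∈ block n A k, U *ᵥ x - x = 0 := by
    intro k hk x hx
    have key : ∀ j, ((U - 1) ^ (j + 1)) *ᵥ x = 0 → U *ᵥ x - x = 0 := by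
      intro j
      induction j with
      | zero =>
        intro h1
        rw [mulVec_sub_one_pow, pow_zero, Matrix.one_mulVec] at h1
        exact h1
      | succ j ih =>
        intro h1
        apply ih
        rw [mulVec_sub_one_pow] at h1 ⊢
        rw [mulVec_sub_one_pow] at h1
        exact step0 k hk _ (hmem k _ (hmem2 k x hx j)) (sub_eq_zero.1 h1)
    exact key D (by rw [pow_succ', h, Matrix.mul_zero, Matrix.zero_mulVec])
  -- `U` is trivial on every weight space
  have step2 : ∀ k, ∀ x : Idx n → ℂ, Wt n k x → U *ᵥ x - x = 0 := by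
    intro k
    induction k with
    | zero => exact fun x hx => step1 0 (by omega) x ⟨raise_wt_zero _ _ hx, hx⟩
    | succ k ih =>
      intro x hx
      have hg : raise n A A⁻¹ *ᵥ (U *ᵥ x - x) = 0 := by
        have h1 := ih (raise n A A⁻¹ *ᵥ x) (Wt.raise _ _ hx)
        rw [Matrix.mulVec_sub, Matrix.mulVec_mulVec, raise_comm_word _ _ h6,
          ← Matrix.mulVec_mulVec]
        exact h1
      have hw : Wt n (k + 1) (U *ᵥ x - x) := by
        intro y hy
        rw [Pi.sub_apply, Wt.mulVec (graded_wordMat _ _ _ _) hx y hy, hx y hy, sub_zero]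
      rcases Nat.lt_or_ge n (2 * (k + 1)) with h1 | h1
      · exact lefschetz hu0 n hgen.2 1 (k + 1) _ hw (by omega) (by rw [pow_one]; exact hg)
      · exact step0 (k + 1) h1 x ⟨hg, hw⟩ (sub_eq_zero.1 (step1 (k + 1) h1 _ ⟨hg, hw⟩))
  have step3 : ∀ x : Idx n → ℂ, U *ᵥ x = x := by
    intro x
    by_contra hne
    obtain ⟨k, -, hk⟩ := exists_part_ne (sub_ne_zero.2 hne)
    apply hk
    have h1 : part k (U *ᵥ x - x) = part k (U *ᵥ x) - part k x := by
      funext y
      by_cases hy : ones n y = k <;> simp [part, hy]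
    rw [h1, ← part_mulVec (graded_wordMat _ _ _ _)]
    exact step2 k _ (part_wt k x)
  have h8 : Matrix.toLin' U = Matrix.toLin' 1 := by
    ext1 i
    ext1
    simp only [LinearMap.comp_apply, Matrix.toLin'_apply, Matrix.one_mulVec]
    rw [step3]
  exact Matrix.toLin'.injective h8

/-- The root of unity `exp(2πi/N)` is positive for `n` strands if `N > 4 n`. -/
lemma angle_pos {n N : ℕ} (hn : 0 < n) (hN : 4 * n < N) : PosAngle n (2 * Real.pi / N) := by
  have hN0 : (0 : ℝ) < N := by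
    have : 0 < N := by omega
    exact_mod_cast this
  have h1 : 4 * (n : ℝ) < N := by exact_mod_cast hN
  have hn' : (1 : ℝ) ≤ n := by exact_mod_cast hn
  refine ⟨by positivity, ?_, ?_⟩
  · rw [← mul_div_assoc, div_lt_iff₀ hN0]
    nlinarith [Real.pi_pos]
  · rw [← mul_div_assoc, div_lt_iff₀ hN0]
    nlinarith [Real.pi_pos]

/-- If all eigenvalues at a primitive `N`-th root of unity are `M`-th roots of unity, the braid has
order dividing `M` there. -/
lemma pow_eq_one_of_eig {n N : ℕ} (hn : 0 < n) (hN : 4 * n < N) {A : ℂ} (hA : IsPrimitiveRoot A N)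
    (w : List (ℕ × Bool)) (M : ℕ) (h : ∀ l, Eig (wordMat n A A⁻¹ w) l → l ^ M = 1) :
    wordMat n A A⁻¹ w ^ M = 1 := by
  have hN0 : 0 < N := by omega
  have h1 := unipotent_of_eig _ M h
  set Au : ℂ := Complex.exp (((2 * Real.pi / N : ℝ) : ℂ) * Complex.I) with hAu
  have hAu' : IsPrimitiveRoot Au N := by
    have := Complex.isPrimitiveRoot_exp N (by omega)
    convert this using 2
    push_cast
    ring
  have h2 := transfer hN0 hA hAu' w M _ h1
  rw [← wordMat_pow] at h2
  have h3 := trivial_of_unipotent hAu (angle_pos hn hN) _ _ h2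
  rw [wordMat_pow] at h3
  have h4 := transfer hN0 hAu' hA w M 1 (by rw [h3, sub_self, pow_one])
  rw [pow_one] at h4
  exact sub_eq_zero.1 h4

/-- A common exponent for finitely many roots of unity. -/
lemma common_exponent {n : ℕ} (T : Matrix (Idx n) (Idx n) ℂ)
    (h : ∀ l, Eig T l → ∃ M, 0 < M ∧ l ^ M = 1) : ∃ M, 0 < M ∧ ∀ l, Eig T l → l ^ M = 1 := by
  have key : ∀ s : Multiset ℂ, (∀ l ∈ s, ∃ M, 0 < M ∧ l ^ M = 1) →
      ∃ M, 0 < M ∧ ∀ l ∈ s, l ^ M = 1 := by
    intro s
    induction s using Multiset.induction_on with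
    | empty => exact fun _ => ⟨1, one_pos, by simp⟩
    | cons a s ih =>
      intro hs
      obtain ⟨M, hM, hM'⟩ := ih fun l hl => hs l (Multiset.mem_cons_of_mem hl)
      obtain ⟨P, hP, hP'⟩ := hs a (Multiset.mem_cons_self a s)
      refine ⟨M * P, Nat.mul_pos hM hP, fun l hl => ?_⟩
      rcases Multiset.mem_cons.1 hl with rfl | hl
      · rw [mul_comm, pow_mul, hP', one_pow]
      · rw [pow_mul, hM' l hl, one_pow]
  obtain ⟨M, hM, hM'⟩ := key T.charpoly.roots fun l hl => h l ((eig_iff_root T l).2 hl)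
  exact ⟨M, hM, fun l hl => hM' l ((eig_iff_root T l).1 hl)⟩

/-- If no block is of infinite order at a root of unity, then all eigenvalues are roots of unity. -/
lemma eig_of_finite {n N : ℕ} {A : ℂ} (hA : IsPrimitiveRoot A N) (hN : 4 * n < N) (hN8 : 8 < N)
    (w : List (ℕ × Bool)) (h : ∀ k, 2 * k ≤ n → ¬ InfiniteOrder n A w k) (l : ℂ)
    (hl : Eig (wordMat n A A⁻¹ w) l) : ∃ M, 0 < M ∧ l ^ M = 1 := by
  have hg := gen_of_primitive hA hN
  obtain ⟨k, hk, v, hv, hv0, hvl⟩ := eig_on_block hg w hl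
  have h1 := h k hk
  unfold InfiniteOrder at h1
  push Not at h1
  obtain ⟨p, hp, c, hc⟩ := h1
  have h4 : A ^ 4 ≠ -1 := by
    intro h5
    have h6 : A ^ 8 = 1 := by rw [show 8 = 4 * 2 by rfl, pow_mul, h5]; norm_num
    have := Nat.le_of_dvd (by norm_num) (hA.dvd_of_pow_eq_one _ h6)
    omega
  have hB : ∀ l : ℕ × Bool, ∀ v ∈ block n A k, letter n A A⁻¹ l *ᵥ v ∈ block n A k := by
    intro l v hv
    have := block_word hg.1 hv [l]
    simpa [wordMat] using this
  obtain ⟨M, hM, hM1⟩ := root_of_scalar hA.pow_eq_one (by omega) h4 (block n A k) w hB p c hc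
    ⟨v, hv, hv0⟩
  have h7 := hc v hv
  rw [eig_pow _ hvl] at h7
  have h8 : l ^ p = c := by
    have h9 : (l ^ p - c) • v = 0 := by rw [sub_smul, h7, sub_self]
    exact sub_eq_zero.1 ((smul_eq_zero.1 h9).resolve_right hv0)
  exact ⟨p * M, Nat.mul_pos hp hM, by rw [pow_mul, h8, hM1]⟩

/-- If at one primitive `N`-th root of unity the eigenvalues are `M`-th roots of unity, then at all
of them. -/
lemma eig_transfer {n N : ℕ} (hN : 0 < N) {A A' : ℂ} (hA : IsPrimitiveRoot A N)
    (hA' : IsPrimitiveRoot A' N) (w : List (ℕ × Bool)) {M : ℕ}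
    (h : ∀ l, Eig (wordMat n A A⁻¹ w) l → l ^ M = 1) (l : ℂ)
    (hl : Eig (wordMat n A' A'⁻¹ w) l) : l ^ M = 1 :=
  eig_of_unipotent _ M _ (transfer hN hA hA' w M _ (unipotent_of_eig _ M h)) hl

end Pool.Agent.AMU
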