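import Pool.Agent.AMU.Blocks

open Matrix

namespace Pool.Agent.AMU

section map

variable {R S : Type*} [CommRing R] [CommRing S] (f : R →+* S)

lemma blk_map {n : ℕ} (a b c d : Matrix (Idx n) (Idx n) R) :
    (blk a b c d).map f = blk (a.map f) (b.map f) (c.map f) (d.map f) :=
  Matrix.fromBlocks_map a b c d f

lemma smul_one_map {n : ℕ} (c : R) :
    (c • (1 : Matrix (Idx n) (Idx n) R)).map f = f c • (1 : Matrix (Idx n) (Idx n) S) := by
  ext i j
  by_cases h : i = j
  · subst h; simp
  · simp [Matrix.one_apply_ne h]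

lemma tl_map (y z : R) : ∀ (n i : ℕ), (tl n y z i).map f = tl n (f y) (f z) i
  | 0, i => by ext a b; simp [tl]
  | 1, i => by ext a b; simp [tl]
  | n + 2, i => by
    by_cases hi : i = n
    · subst hi
      rw [tl_last, tl_last]
      unfold tlLast
      rw [blk_map, blk_map, blk_map, blk_map, blk_map, smul_one_map, smul_one_map]
      have h0 : (0 : Matrix (Idx i) (Idx i) R).map f = 0 := by ext a b; simp
      have h1 : (1 : Matrix (Idx i) (Idx i) R).map f = 1 := by
        have := smul_one_map (n := i) f 1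
        simpa using this
      rw [h0, h1]
      simp
    · rw [tl_of_ne hi, tl_of_ne hi, blk_map, tl_map y z (n + 1) i]
      have h0 : (0 : Matrix (Idx (n + 1)) (Idx (n + 1)) R).map f = 0 := by ext a b; simp
      rw [h0]

lemma letter_map (n : ℕ) (y z : R) (l : ℕ × Bool) :
    (letter n y z l).map f = letter n (f y) (f z) l := by
  unfold letter
  split_ifs
  · rw [Matrix.map_add f (by simp), smul_one_map, ← tl_map f y z n l.1]
    congr 1
    ext a b
    simp
  · rw [Matrix.map_add f (by simp), smul_one_map, ← tl_map f y z n l.1]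
    congr 1
    ext a b
    simp

lemma wordMat_map (n : ℕ) (y z : R) (w : List (ℕ × Bool)) :
    (wordMat n y z w).map f = wordMat n (f y) (f z) w := by
  induction w with
  | nil =>
    have := smul_one_map (n := n) f 1
    simpa [wordMat] using this
  | cons l w ih => rw [wordMat_cons, wordMat_cons, Matrix.map_mul, letter_map, ih]

end map

open Polynomial in
/-- Galois transfer of the unipotency of a power. -/
lemma transfer {n N : ℕ} (hN : 0 < N) {A A' : ℂ} (hA : IsPrimitiveRoot A N)
    (hA' : IsPrimitiveRoot A' N) (w : List (ℕ × Bool)) (M D : ℕ)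
    (h : (wordMat n A A⁻¹ w ^ M - 1) ^ D = 0) : (wordMat n A' A'⁻¹ w ^ M - 1) ^ D = 0 := by
  have key : ∀ B : ℂ, IsPrimitiveRoot B N →
      ((wordMat n (X : ℤ[X]) (X ^ (N - 1)) w ^ M - 1) ^ D).map (aeval B : ℤ[X] →ₐ[ℤ] ℂ).toRingHom =
        (wordMat n B B⁻¹ w ^ M - 1) ^ D := by
    intro B hB
    have h1 : B ^ (N - 1) = B⁻¹ := by
      have h2 : B ^ (N - 1) * B = 1 := by rw [← pow_succ, Nat.sub_add_cancel hN, hB.pow_eq_one]
      exact eq_inv_of_mul_eq_one_left h2
    have h3 := wordMat_map (aeval B : ℤ[X] →ₐ[ℤ] ℂ).toRingHom n (X : ℤ[X]) (X ^ (N - 1)) w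
    have h4 : (aeval B : ℤ[X] →ₐ[ℤ] ℂ).toRingHom X = B := by simp
    have h5 : (aeval B : ℤ[X] →ₐ[ℤ] ℂ).toRingHom (X ^ (N - 1)) = B⁻¹ := by simp [h1]
    rw [h4, h5] at h3
    rw [← h3]
    show (RingHom.mapMatrix _ _) = _
    rw [map_pow, map_sub, map_pow, map_one]
    rfl
  rw [← key A' hA']
  rw [← key A hA] at h
  ext i j
  have h1 := congrFun (congrFun h i) j
  simp only [Matrix.map_apply, Matrix.zero_apply] at h1 ⊢
  generalize ((wordMat n (X : ℤ[X]) (X ^ (N - 1)) w ^ M - 1) ^ D) i j = P at h1 ⊢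
  have h2 : aeval A P = 0 := h1
  have h3 : minpoly ℤ A ∣ P := minpoly.isIntegrallyClosed_dvd (hA.isIntegral hN) h2
  have h4 : minpoly ℤ A = minpoly ℤ A' := by
    rw [← cyclotomic_eq_minpoly hA hN, ← cyclotomic_eq_minpoly hA' hN]
  obtain ⟨Q, hQ⟩ := h3
  show aeval A' P = 0
  rw [hQ, h4, map_mul, minpoly.aeval, zero_mul]

/-- Eigenvalues of braids at roots of unity are algebraic integers. -/
lemma eig_isIntegral {n N : ℕ} (hN : 0 < N) {A : ℂ} (hA : A ^ N = 1) (w : List (ℕ × Bool)) {l : ℂ}
    (hl : Eig (wordMat n A A⁻¹ w) l) : IsIntegral ℤ l := by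
  have hA1 : IsIntegral ℤ A := ⟨Polynomial.X ^ N - 1, Polynomial.monic_X_pow_sub_C 1 (by omega), by
    simp [hA]⟩
  have hA2 : IsIntegral ℤ A⁻¹ := ⟨Polynomial.X ^ N - 1, Polynomial.monic_X_pow_sub_C 1 (by omega), by
    simp [hA]⟩
  set O := integralClosure ℤ ℂ
  let y : O := ⟨A, hA1⟩
  let z : O := ⟨A⁻¹, hA2⟩
  have h1 := wordMat_map (algebraMap O ℂ) n y z w
  have h2 : (wordMat n y z w).charpoly.map (algebraMap O ℂ) = (wordMat n A A⁻¹ w).charpoly := by
    rw [← Matrix.charpoly_map, h1]
    rfl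
  have h3 : IsIntegral O l := by
    refine ⟨(wordMat n y z w).charpoly, Matrix.charpoly_monic _, ?_⟩
    rw [← Polynomial.eval_map, h2, Matrix.eval_charpoly]
    exact (eig_iff_det _ _).1 hl
  exact isIntegral_trans (A := O) l h3

/-- Kronecker: if at all primitive `N`-th roots of unity all eigenvalues of the braid are
unimodular, they are roots of unity. -/
lemma kronecker {n N : ℕ} (hN : 0 < N) (w : List (ℕ × Bool))
    (h : ∀ A' : ℂ, IsPrimitiveRoot A' N → ∀ l, Eig (wordMat n A' A'⁻¹ w) l → ‖l‖ = 1)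
    {A : ℂ} (hA : IsPrimitiveRoot A N) {l : ℂ} (hl : Eig (wordMat n A A⁻¹ w) l) :
    ∃ M, 0 < M ∧ l ^ M = 1 := by
  have hl1 : IsIntegral ℤ l := eig_isIntegral hN hA.pow_eq_one w hl
  have hA1 : IsIntegral ℤ A := hA.isIntegral hN
  let K := IntermediateField.adjoin ℚ ({A, l} : Set ℂ)
  have hfin : FiniteDimensional ℚ K := by
    refine IntermediateField.finiteDimensional_adjoin fun x hx => ?_
    rcases hx with rfl | rfl
    · exact hA1.tower_top
    · exact hl1.tower_top
  have : NumberField K := { to_charZero := inferInstance, to_finiteDimensional := hfin }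
  have hAK : A ∈ K := IntermediateField.subset_adjoin _ _ (by simp)
  have hlK : l ∈ K := IntermediateField.subset_adjoin _ _ (by simp)
  let a : K := ⟨A, hAK⟩
  let x : K := ⟨l, hlK⟩
  have hx : IsIntegral ℤ x := by
    have h1 : IsIntegral ℤ (algebraMap K ℂ x) := hl1
    exact (isIntegral_algebraMap_iff (algebraMap K ℂ).injective).1 h1
  have hap : IsPrimitiveRoot a N := by
    have h1 : IsPrimitiveRoot (algebraMap K ℂ a) N := hA
    exact IsPrimitiveRoot.of_map_of_injective h1 (algebraMap K ℂ).injective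
  have hdet : (Matrix.scalar (Idx n) x - wordMat n a a⁻¹ w).det = 0 := by
    apply (algebraMap K ℂ).injective
    rw [map_zero, RingHom.map_det, map_sub]
    have h1 : (algebraMap K ℂ).mapMatrix (wordMat n a a⁻¹ w) = wordMat n A A⁻¹ w := by
      have := wordMat_map (algebraMap K ℂ) n a a⁻¹ w
      rw [map_inv₀] at this
      exact this
    have h2 : (algebraMap K ℂ).mapMatrix (Matrix.scalar (Idx n) x) = Matrix.scalar (Idx n) l := by
      ext i j
      by_cases hij : i = j
      · subst hij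
        simp [x]
      · simp [hij]
    rw [h1, h2]
    exact (eig_iff_det _ _).1 hl
  obtain ⟨M, hM, hM1⟩ := NumberField.Embeddings.pow_eq_one_of_norm_eq_one K ℂ hx (fun φ => by
    refine h (φ a) (hap.map_of_injective φ.injective) (φ x) ?_
    rw [eig_iff_det]
    have h0 := congrArg φ hdet
    rw [map_zero, RingHom.map_det, map_sub] at h0
    have h1 : φ.mapMatrix (wordMat n a a⁻¹ w) = wordMat n (φ a) (φ a)⁻¹ w := by
      have := wordMat_map φ n a a⁻¹ w
      rw [map_inv₀] at this
      exact this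
    have h2 : φ.mapMatrix (Matrix.scalar (Idx n) x) = Matrix.scalar (Idx n) (φ x) := by
      ext i j
      by_cases hij : i = j
      · subst hij
        simp
      · simp [hij]
    rw [h1, h2] at h0
    exact h0)
  refine ⟨M, hM, ?_⟩
  have := congrArg (algebraMap K ℂ) hM1
  rw [map_pow, map_one] at this
  exact this

end Pool.Agent.AMU
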