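import Pool.Agent.AMU.Main

open Matrix

namespace Pool.Agent.AMU

/-- The relations of Artin's presentation of the braid group on `n` strands. -/
def braidRels (n : ℕ) : Set (FreeGroup (Fin (n - 1))) :=
  {r | (∃ i j : Fin (n - 1), (i : ℕ) + 1 = j ∧
      r = FreeGroup.of i * FreeGroup.of j * FreeGroup.of i *
        (FreeGroup.of j * FreeGroup.of i * FreeGroup.of j)⁻¹) ∨
    (∃ i j : Fin (n - 1), (i : ℕ) + 2 ≤ j ∧
      r = FreeGroup.of i * FreeGroup.of j * (FreeGroup.of j * FreeGroup.of i)⁻¹)}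

/-- The braid group on `n` strands, that is, the mapping class group of the disc with `n`
punctures. -/
abbrev BraidGroup (n : ℕ) : Type := PresentedGroup (braidRels n)

/-- The operator of a generator as an invertible matrix. -/
noncomputable def genUnit (n : ℕ) (A : ℂˣ) (i : ℕ) : (Matrix (Idx n) (Idx n) ℂ)ˣ where
  val := letter n (A : ℂ) (A : ℂ)⁻¹ (i, true)
  inv := letter n (A : ℂ) (A : ℂ)⁻¹ (i, false)
  val_inv := letter_mul_linv n _ _ (mul_inv_cancel₀ A.ne_zero) (i, true)
  inv_val := letter_mul_linv n _ _ (mul_inv_cancel₀ A.ne_zero) (i, false)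

lemma gen_far (n : ℕ) (A : ℂˣ) {i j : ℕ} (h : i + 2 ≤ j) :
    genUnit n A i * genUnit n A j = genUnit n A j * genUnit n A i := by
  apply Units.ext
  show letter n (A : ℂ) (A : ℂ)⁻¹ (i, true) * letter n (A : ℂ) (A : ℂ)⁻¹ (j, true) =
    letter n (A : ℂ) (A : ℂ)⁻¹ (j, true) * letter n (A : ℂ) (A : ℂ)⁻¹ (i, true)
  have h1 := tl_far (A : ℂ) (A : ℂ)⁻¹ n i j h
  simp only [letter, if_true]
  rw [Matrix.add_mul, Matrix.mul_add, Matrix.mul_add, Matrix.add_mul, Matrix.mul_add, Matrix.mul_add]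
  simp only [smul_mul_smul_comm, Matrix.one_mul, Matrix.mul_one, h1]
  module

lemma gen_near (n : ℕ) (A : ℂˣ) {i : ℕ} (h : i + 2 < n) :
    genUnit n A i * genUnit n A (i + 1) * genUnit n A i =
      genUnit n A (i + 1) * genUnit n A i * genUnit n A (i + 1) := by
  apply Units.ext
  show letter n (A : ℂ) (A : ℂ)⁻¹ (i, true) * letter n (A : ℂ) (A : ℂ)⁻¹ (i + 1, true) *
      letter n (A : ℂ) (A : ℂ)⁻¹ (i, true) =
    letter n (A : ℂ) (A : ℂ)⁻¹ (i + 1, true) * letter n (A : ℂ) (A : ℂ)⁻¹ (i, true) *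
      letter n (A : ℂ) (A : ℂ)⁻¹ (i + 1, true)
  have hyz : (A : ℂ) * (A : ℂ)⁻¹ = 1 := mul_inv_cancel₀ A.ne_zero
  obtain ⟨h1, h2⟩ := tl_near (A : ℂ) (A : ℂ)⁻¹ hyz n i h
  have h3 := tl_mul_self n (A : ℂ) (A : ℂ)⁻¹ i hyz
  have h4 := tl_mul_self n (A : ℂ) (A : ℂ)⁻¹ (i + 1) hyz
  simp only [letter, if_true]
  generalize (A : ℂ)⁻¹ = z at *
  generalize (A : ℂ) = y at *
  generalize tl n y z i = e at *
  generalize tl n y z (i + 1) = f at *
  have e1 : (y • (1 : Matrix (Idx n) (Idx n) ℂ) + z • e) * (y • 1 + z • f) * (y • 1 + z • e) =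
      (y * y * y) • 1 + (y * y * z) • e + (y * y * z) • f + (y * y * z) • e + (y * z * z) • (e * f) +
        (y * z * z) • (f * e) + (y * z * z) • (e * e) + (z * z * z) • (e * f * e) := by
    simp only [Matrix.add_mul, Matrix.mul_add, smul_mul_smul_comm, Matrix.one_mul, Matrix.mul_one]
    module
  have e2 : (y • (1 : Matrix (Idx n) (Idx n) ℂ) + z • f) * (y • 1 + z • e) * (y • 1 + z • f) =
      (y * y * y) • 1 + (y * y * z) • f + (y * y * z) • e + (y * y * z) • f + (y * z * z) • (f * e) +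
        (y * z * z) • (e * f) + (y * z * z) • (f * f) + (z * z * z) • (f * e * f) := by
    simp only [Matrix.add_mul, Matrix.mul_add, smul_mul_smul_comm, Matrix.one_mul, Matrix.mul_one]
    module
  rw [e1, e2, h1, h2, h3, h4, smul_smul, smul_smul]
  have k : y * y * z + y * z * z * (-(y ^ 2) - z ^ 2) + z * z * z = 0 := by
    linear_combination (-(y ^ 2 * z + z ^ 3)) * hyz
  have k1 : ∀ M : Matrix (Idx n) (Idx n) ℂ, (y * y * z) • M + (y * z * z * (-(y ^ 2) - z ^ 2)) • M +
      (z * z * z) • M = 0 := fun M => by rw [← add_smul, ← add_smul, k, zero_smul]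
  have k2 := k1 e
  have k3 := k1 f
  have k4 : (y * y * z) • e + (y * z * z * (-(y ^ 2) - z ^ 2)) • e + (z * z * z) • e =
      (y * y * z) • f + (y * z * z * (-(y ^ 2) - z ^ 2)) • f + (z * z * z) • f := by rw [k2, k3]
  refine eq_of_sub_eq_zero ?_
  rw [← sub_eq_zero.2 k4]
  module

/-- The representation of the braid group on the `n`-th tensor power of the two-dimensional
representation of quantum `sl_2`. -/
noncomputable def rep (n : ℕ) (A : ℂˣ) : BraidGroup n →* (Matrix (Idx n) (Idx n) ℂ)ˣ :=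
  PresentedGroup.toGroup (f := fun i : Fin (n - 1) => genUnit n A i) (by
    rintro r (⟨i, j, hij, rfl⟩ | ⟨i, j, hij, rfl⟩)
    · rw [map_mul, map_inv, map_mul, map_mul, map_mul, map_mul, FreeGroup.lift_apply_of,
        FreeGroup.lift_apply_of, mul_inv_eq_one, ← hij]
      exact gen_near n A (by have := j.2; omega)
    · rw [map_mul, map_inv, map_mul, map_mul, FreeGroup.lift_apply_of,
        FreeGroup.lift_apply_of, mul_inv_eq_one]
      exact gen_far n A hij)

lemma rep_of (n : ℕ) (A : ℂˣ) (i : Fin (n - 1)) :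
    rep n A (PresentedGroup.of i) = genUnit n A i := PresentedGroup.toGroup.of _

/-- Every braid is given by a word, uniformly in `A`. -/
lemma exists_word {n : ℕ} (f : BraidGroup n) : ∃ w : List (ℕ × Bool), ∀ A : ℂˣ,
    (rep n A f : Matrix (Idx n) (Idx n) ℂ) = wordMat n (A : ℂ) (A : ℂ)⁻¹ w := by
  obtain ⟨x, rfl⟩ := PresentedGroup.mk_surjective (braidRels n) f
  induction x using FreeGroup.induction_on with
  | C1 => exact ⟨[], fun A => by rw [map_one, map_one]; rfl⟩
  | of i =>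
    refine ⟨[((i : ℕ), true)], fun A => ?_⟩
    have h := rep_of n A i
    show (rep n A (PresentedGroup.of i)).val = _
    rw [h]
    simp [wordMat, genUnit]
  | inv_of i _ =>
    refine ⟨[((i : ℕ), false)], fun A => ?_⟩
    have h := rep_of n A i
    show (rep n A (PresentedGroup.of i)⁻¹).val = _
    rw [map_inv, h]
    simp [wordMat, genUnit]
  | mul x y hx hy =>
    obtain ⟨w, hw⟩ := hx
    obtain ⟨w', hw'⟩ := hy
    refine ⟨w ++ w', fun A => ?_⟩
    rw [map_mul, map_mul, Units.val_mul, hw, hw', wordMat_append]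

end Pool.Agent.AMU
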