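import Pool.Agent.AMU.Blocks

open Matrix

namespace Pool.Agent.AMU

/-! ### The invariant Hermitian form -/

section ring

variable {R : Type*} [CommRing R]

omit [CommRing R] in
lemma blk_transpose {m : ℕ} (a b c d : Matrix (Idx m) (Idx m) R) :
    (blk a b c d)ᵀ = blk aᵀ cᵀ bᵀ dᵀ := Matrix.fromBlocks_transpose a b c d

lemma diagOp_transpose (a b : R) : ∀ n, (diagOp a b n)ᵀ = diagOp a b n
  | 0 => Matrix.transpose_one
  | n + 1 => by
    rw [diagOp_succ, blk_transpose, Matrix.transpose_smul, Matrix.transpose_smul,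
      diagOp_transpose a b n, Matrix.transpose_zero]

lemma lower_pow (y z : R) (h : y * z = 1) (n j : ℕ) :
    lower (n + 1) y z ^ (j + 1) = blk (y ^ (j + 1) • lower n y z ^ (j + 1)) 0
      (sco y z j • (kinv n y z * lower n y z ^ j)) (z ^ (j + 1) • lower n y z ^ (j + 1)) := by
  have h1 := congrArg Matrix.transpose (raise_pow y z h n j)
  rw [Matrix.transpose_pow, blk_transpose] at h1
  unfold lower
  rw [h1]
  rw [Matrix.transpose_smul, Matrix.transpose_smul, Matrix.transpose_smul, Matrix.transpose_mul,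
    Matrix.transpose_pow, Matrix.transpose_pow, Matrix.transpose_zero, kinv_eq, diagOp_transpose]

/-- the commutation relation of the raising and the lowering operator -/
lemma comm_EF (y z : R) (h : y * z = 1) : ∀ n,
    (y ^ 2 - z ^ 2) • (raise n y z * lower n y z - lower n y z * raise n y z) =
      diagOp (y ^ 2) (z ^ 2) n - diagOp (z ^ 2) (y ^ 2) n
  | 0 => by
    show (y ^ 2 - z ^ 2) • ((0 : Matrix (Idx 0) (Idx 0) R) * 0ᵀ - 0ᵀ * 0) = 1 - 1
    simp
  | n + 1 => by
    have ih := comm_EF y z h n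
    have hk := kinv_raise y z h n
    have hkk : kinv n y z * kinv n y z = diagOp (z ^ 2) (y ^ 2) n := by
      rw [kinv_eq, diagOp_mul, sq, sq]
    have hkt : (kinv n y z)ᵀ = kinv n y z := by rw [kinv_eq, diagOp_transpose]
    have hk2 : lower n y z * kinv n y z = z ^ 2 • (kinv n y z * lower n y z) := by
      have := congrArg Matrix.transpose hk
      rw [Matrix.transpose_mul, Matrix.transpose_smul, Matrix.transpose_mul, hkt] at this
      exact this
    have hlow : lower (n + 1) y z = blk (y • lower n y z) 0 (kinv n y z) (z • lower n y z) := by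
      unfold lower
      rw [raise_succ, blk_transpose, Matrix.transpose_smul, Matrix.transpose_smul, hkt,
        Matrix.transpose_zero]
    have hsub : ∀ {m : ℕ} (a b c d a' b' c' d' : Matrix (Idx m) (Idx m) R),
        blk a b c d - blk a' b' c' d' = blk (a - a') (b - b') (c - c') (d - d') := by
      intro m a b c d a' b' c' d'
      have h1 := blk_add a b c d (-a') (-b') (-c') (-d')
      have h2 : -blk a' b' c' d' = blk (-a') (-b') (-c') (-d') := Matrix.fromBlocks_neg a' b' c' d'
      rw [sub_eq_add_neg, h2, h1]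
      simp [sub_eq_add_neg]
    rw [hlow, raise_succ, blk_mul, blk_mul, hsub, blk_smul, diagOp_succ, diagOp_succ, hsub]
    simp only [Matrix.zero_mul, Matrix.mul_zero, add_zero, zero_add, Matrix.smul_mul,
      Matrix.mul_smul, smul_smul, hkk, hk, hk2]
    have h2 : z ^ 2 * y ^ 2 = 1 := by rw [← mul_pow, mul_comm z y, h, one_pow]
    have i1 : ∀ P Q : Matrix (Idx n) (Idx n) R, (y ^ 2 - z ^ 2) • (P - Q) =
        diagOp (y ^ 2) (z ^ 2) n - diagOp (z ^ 2) (y ^ 2) n → 
        (y ^ 2 - z ^ 2) • ((y * y) • P + diagOp (z ^ 2) (y ^ 2) n - (y * y) • Q) =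
          y ^ 2 • diagOp (y ^ 2) (z ^ 2) n - z ^ 2 • diagOp (z ^ 2) (y ^ 2) n := by
      intro P Q hPQ
      have : (y ^ 2 - z ^ 2) • ((y * y) • P + diagOp (z ^ 2) (y ^ 2) n - (y * y) • Q) =
          (y * y) • ((y ^ 2 - z ^ 2) • (P - Q)) + (y ^ 2 - z ^ 2) • diagOp (z ^ 2) (y ^ 2) n := by
        module
      rw [this, hPQ]
      module
    have i2 : ∀ P Q : Matrix (Idx n) (Idx n) R, (y ^ 2 - z ^ 2) • (P - Q) =
        diagOp (y ^ 2) (z ^ 2) n - diagOp (z ^ 2) (y ^ 2) n → 
        (y ^ 2 - z ^ 2) • ((z * z) • P - (diagOp (z ^ 2) (y ^ 2) n + (z * z) • Q)) =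
          z ^ 2 • diagOp (y ^ 2) (z ^ 2) n - y ^ 2 • diagOp (z ^ 2) (y ^ 2) n := by
      intro P Q hPQ
      have : (y ^ 2 - z ^ 2) • ((z * z) • P - (diagOp (z ^ 2) (y ^ 2) n + (z * z) • Q)) =
          (z * z) • ((y ^ 2 - z ^ 2) • (P - Q)) - (y ^ 2 - z ^ 2) • diagOp (z ^ 2) (y ^ 2) n := by
        module
      rw [this, hPQ]
      module
    congr 1
    · exact i1 _ _ ih
    · have : z = y * z ^ 2 := by linear_combination -z * h
      rw [smul_zero, add_zero, ← sub_smul, ← this, sub_self, zero_smul, smul_zero, sub_zero]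
    · have : z = y * z ^ 2 := by linear_combination -z * h
      rw [smul_zero, zero_add, ← sub_smul, ← this, sub_self, zero_smul, smul_zero, sub_zero]
    · exact i2 _ _ ih

end ring

/-- The bit flip. -/
def flip : (n : ℕ) → Matrix (Idx n) (Idx n) ℂ
  | 0 => 1
  | n + 1 => blk 0 (flip n) (flip n) 0

lemma flip_succ (n : ℕ) : flip (n + 1) = blk 0 (flip n) (flip n) 0 := rfl

lemma flip_mul_flip : ∀ n, flip n * flip n = 1
  | 0 => by show (1 : Matrix (Idx 0) (Idx 0) ℂ) * 1 = 1; simp
  | n + 1 => by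
    rw [flip_succ, blk_mul, blk_one, flip_mul_flip n]
    simp

lemma flip_blk {n : ℕ} (a b c d : Matrix (Idx n) (Idx n) ℂ) :
    flip (n + 1) * blk a b c d * flip (n + 1) =
      blk (flip n * d * flip n) (flip n * c * flip n) (flip n * b * flip n)
        (flip n * a * flip n) := by
  rw [flip_succ, blk_mul, blk_mul]
  simp

lemma blk_conjTranspose {m : ℕ} (a b c d : Matrix (Idx m) (Idx m) ℂ) :
    (blk a b c d)ᴴ = blk aᴴ cᴴ bᴴ dᴴ := Matrix.fromBlocks_conjTranspose a b c d

lemma flip_diagOp (a b : ℂ) : ∀ n, flip n * diagOp a b n * flip n = diagOp b a n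
  | 0 => by show (1 : Matrix (Idx 0) (Idx 0) ℂ) * 1 * 1 = 1; simp
  | n + 1 => by
    rw [diagOp_succ, flip_blk, diagOp_succ, ← flip_diagOp a b n]
    simp

lemma diagOp_conjTranspose (a b : ℂ) : ∀ n, (diagOp a b n)ᴴ = diagOp (star a) (star b) n
  | 0 => Matrix.conjTranspose_one
  | n + 1 => by
    rw [diagOp_succ, blk_conjTranspose, diagOp_succ, Matrix.conjTranspose_smul,
      Matrix.conjTranspose_smul, diagOp_conjTranspose a b n, Matrix.conjTranspose_zero]

lemma flip_conjTranspose : ∀ n, (flip n)ᴴ = flip n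
  | 0 => Matrix.conjTranspose_one
  | n + 1 => by
    rw [flip_succ, blk_conjTranspose, flip_conjTranspose n, Matrix.conjTranspose_zero]

lemma flip_transpose : ∀ n, (flip n)ᵀ = flip n
  | 0 => Matrix.transpose_one
  | n + 1 => by
    rw [flip_succ, blk_transpose, flip_transpose n, Matrix.transpose_zero]

section unit

variable {A : ℂ} (hA : ‖A‖ = 1)

include hA

lemma ne_zero_of_unit : A ≠ 0 := by
  rintro rfl
  simp at hA

lemma star_unit : star A = A⁻¹ := by
  rw [Complex.star_def, Complex.inv_def, Complex.normSq_eq_norm_sq, hA]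
  simp

lemma star_inv_unit : star A⁻¹ = A := by
  rw [← star_unit hA, star_star]

lemma flip_raise : ∀ n, flip n * raise n A A⁻¹ * flip n = (raise n A A⁻¹)ᴴ
  | 0 => by
    show (1 : Matrix (Idx 0) (Idx 0) ℂ) * 0 * 1 = 0ᴴ
    simp
  | n + 1 => by
    have ih := flip_raise n
    rw [raise_succ, flip_blk, blk_conjTranspose, Matrix.conjTranspose_smul,
      Matrix.conjTranspose_smul, star_unit hA, star_inv_unit hA, ← ih]
    congr 1
    · simp
    · simp
    · rw [kinv_eq, flip_diagOp, diagOp_conjTranspose, star_unit hA, star_inv_unit hA]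
    · simp

lemma flip_lower (n : ℕ) : flip n * lower n A A⁻¹ * flip n = (lower n A A⁻¹)ᴴ := by
  have h1 := congrArg Matrix.transpose (flip_raise hA n)
  rw [Matrix.transpose_mul, Matrix.transpose_mul, flip_transpose, ← Matrix.mul_assoc] at h1
  exact h1

lemma lower_conj_flip (n : ℕ) : (lower n A A⁻¹)ᴴ * flip n = flip n * lower n A A⁻¹ := by
  rw [← flip_lower hA, Matrix.mul_assoc, flip_mul_flip, Matrix.mul_one]

lemma flip_tl : ∀ n i, flip n * tl n A A⁻¹ i * flip n = (tl n A A⁻¹ i)ᴴ
  | 0, i => by simp [tl]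
  | 1, i => by simp [tl]
  | n + 2, i => by
    by_cases hi : i = n
    · subst hi
      rw [tl_last]
      unfold tlLast
      rw [flip_blk, flip_blk, flip_blk, flip_blk, flip_blk]
      simp only [blk_conjTranspose, Matrix.conjTranspose_zero, Matrix.conjTranspose_one,
        Matrix.conjTranspose_smul, Matrix.mul_zero, Matrix.zero_mul, Matrix.mul_smul,
        Matrix.smul_mul, Matrix.mul_one, flip_mul_flip, star_neg, star_pow, star_unit hA,
        star_inv_unit hA]
    · rw [tl_of_ne hi, flip_blk, blk_conjTranspose, flip_tl (n + 1) i]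
      simp

lemma flip_letter (n : ℕ) (l : ℕ × Bool) :
    flip n * letter n A A⁻¹ l * flip n = (letter n A A⁻¹ (linv l))ᴴ := by
  rcases l with ⟨i, b⟩
  rcases b with _ | _
  · simp only [letter, linv]
    simp only [Bool.not_false, if_true, Bool.false_eq_true, if_false, Matrix.conjTranspose_add,
      Matrix.conjTranspose_smul, Matrix.conjTranspose_one, star_unit hA, star_inv_unit hA,
      ← flip_tl hA]
    rw [Matrix.mul_add, Matrix.add_mul]
    simp [flip_mul_flip]
  · simp only [letter, linv]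
    simp only [Bool.not_true, if_true, Bool.false_eq_true, if_false, Matrix.conjTranspose_add,
      Matrix.conjTranspose_smul, Matrix.conjTranspose_one, star_unit hA, star_inv_unit hA,
      ← flip_tl hA]
    rw [Matrix.mul_add, Matrix.add_mul]
    simp [flip_mul_flip]

lemma flip_word (n : ℕ) (w : List (ℕ × Bool)) :
    flip n * wordMat n A A⁻¹ w * flip n = (wordMat n A A⁻¹ (winv w))ᴴ := by
  induction w with
  | nil => simp [wordMat, winv, flip_mul_flip]
  | cons l w ih =>
    have h1 : winv (l :: w) = winv w ++ [linv l] := by simp [winv]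
    have h2 : wordMat n A A⁻¹ [linv l] = letter n A A⁻¹ (linv l) := by simp [wordMat]
    rw [wordMat_cons, h1, wordMat_append, h2, Matrix.conjTranspose_mul, ← ih, ← flip_letter hA]
    have h3 : flip n * letter n A A⁻¹ l * flip n * (flip n * wordMat n A A⁻¹ w * flip n) =
        flip n * letter n A A⁻¹ l * (flip n * flip n) * (wordMat n A A⁻¹ w * flip n) := by
      simp only [Matrix.mul_assoc]
    rw [h3, flip_mul_flip, Matrix.mul_one]
    simp only [Matrix.mul_assoc]

end unit

/-- The invariant sesquilinear form. -/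
noncomputable def form (n : ℕ) (A : ℂ) (m : ℕ) (u v : Idx n → ℂ) : ℂ :=
  star u ⬝ᵥ ((flip n * lower n A A⁻¹ ^ m) *ᵥ v)

lemma form_add_left (n : ℕ) (A : ℂ) (m : ℕ) (u u' v : Idx n → ℂ) :
    form n A m (u + u') v = form n A m u v + form n A m u' v := by
  unfold form
  rw [star_add, add_dotProduct]

lemma form_sub_left (n : ℕ) (A : ℂ) (m : ℕ) (u u' v : Idx n → ℂ) :
    form n A m (u - u') v = form n A m u v - form n A m u' v := by
  unfold form
  rw [star_sub, sub_dotProduct]

lemma form_add_right (n : ℕ) (A : ℂ) (m : ℕ) (u v v' : Idx n → ℂ) :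
    form n A m u (v + v') = form n A m u v + form n A m u v' := by
  unfold form
  rw [Matrix.mulVec_add, dotProduct_add]

lemma form_smul_left (n : ℕ) (A : ℂ) (m : ℕ) (c : ℂ) (u v : Idx n → ℂ) :
    form n A m (c • u) v = star c * form n A m u v := by
  unfold form
  rw [star_smul, smul_dotProduct, smul_eq_mul]

lemma form_smul_right (n : ℕ) (A : ℂ) (m : ℕ) (c : ℂ) (u v : Idx n → ℂ) :
    form n A m u (c • v) = c * form n A m u v := by
  unfold form
  rw [Matrix.mulVec_smul, dotProduct_smul, smul_eq_mul]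

lemma form_lower_right (n : ℕ) (A : ℂ) (m : ℕ) (u v : Idx n → ℂ) :
    form n A m u (lower n A A⁻¹ *ᵥ v) = form n A (m + 1) u v := by
  unfold form
  rw [Matrix.mulVec_mulVec, Matrix.mul_assoc, ← pow_succ]

lemma form_lower_left {n : ℕ} {A : ℂ} (hA : ‖A‖ = 1) (m : ℕ) (u v : Idx n → ℂ) :
    form n A m (lower n A A⁻¹ *ᵥ u) v = form n A (m + 1) u v := by
  unfold form
  rw [Matrix.star_mulVec, ← Matrix.dotProduct_mulVec, Matrix.mulVec_mulVec, ← Matrix.mul_assoc,
    lower_conj_flip hA, Matrix.mul_assoc, ← pow_succ']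

lemma form_right_zero {n : ℕ} {A : ℂ} {m : ℕ} (u : Idx n → ℂ) {v : Idx n → ℂ}
    (h : (lower n A A⁻¹ ^ m) *ᵥ v = 0) : form n A m u v = 0 := by
  unfold form
  rw [← Matrix.mulVec_mulVec, h, Matrix.mulVec_zero, dotProduct_zero]

lemma form_left_zero {n : ℕ} {A : ℂ} (hA : ‖A‖ = 1) {m : ℕ} {u : Idx n → ℂ} (v : Idx n → ℂ)
    (h : (lower n A A⁻¹ ^ m) *ᵥ u = 0) : form n A m u v = 0 := by
  have key : ∀ i j : ℕ, form n A j ((lower n A A⁻¹ ^ i) *ᵥ u) v = form n A (j + i) u v := by
    intro i
    induction i with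
    | zero => intro j; simp
    | succ i ih =>
      intro j
      rw [pow_succ', ← Matrix.mulVec_mulVec, form_lower_left hA, ih (j + 1)]
      congr 1
      omega
  have h1 := key m 0
  rw [h, zero_add] at h1
  rw [← h1]
  unfold form
  simp

lemma form_word {n : ℕ} {A : ℂ} (hA : ‖A‖ = 1) (w : List (ℕ × Bool)) (m : ℕ) (u v : Idx n → ℂ) :
    form n A m (wordMat n A A⁻¹ w *ᵥ u) (wordMat n A A⁻¹ w *ᵥ v) = form n A m u v := by
  have hyz : A * A⁻¹ = 1 := mul_inv_cancel₀ (ne_zero_of_unit hA)
  have h1 := flip_word hA n (winv w)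
  have h2 : winv (winv w) = w := by
    simp [winv, List.map_reverse, List.map_map, Function.comp_def, linv_linv]
  rw [h2] at h1
  have h3 : lower n A A⁻¹ ^ m * wordMat n A A⁻¹ w = wordMat n A A⁻¹ w * lower n A A⁻¹ ^ m := by
    induction m with
    | zero => simp
    | succ m ih =>
      rw [pow_succ, Matrix.mul_assoc, lower_comm_word _ _ hyz, ← Matrix.mul_assoc, ih,
        Matrix.mul_assoc]
  unfold form
  rw [Matrix.star_mulVec, ← Matrix.dotProduct_mulVec, Matrix.mulVec_mulVec, Matrix.mulVec_mulVec,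
    ← h1]
  congr 2
  have h4 : flip n * wordMat n A A⁻¹ (winv w) * flip n * (flip n * lower n A A⁻¹ ^ m) * wordMat n A A⁻¹ w
      = flip n * wordMat n A A⁻¹ (winv w) * (flip n * flip n) * (lower n A A⁻¹ ^ m * wordMat n A A⁻¹ w) := by
    simp only [Matrix.mul_assoc]
  rw [h4, flip_mul_flip, Matrix.mul_one, h3, ← Matrix.mul_assoc, Matrix.mul_assoc (flip n),
    winv_mul_wordMat n _ _ hyz, Matrix.mul_one]

end Pool.Agent.AMU
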