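import Pool.Agent.AMU.Rep

open Matrix

namespace Pool.Agent.AMU

section ring

variable {R : Type*} [CommRing R]

lemma kinv_raise (y z : R) (h : y * z = 1) : ∀ n,
    kinv n y z * raise n y z = z ^ 2 • (raise n y z * kinv n y z)
  | 0 => by
    show (1 : Matrix (Idx 0) (Idx 0) R) * 0 = z ^ 2 • (0 * 1)
    simp
  | n + 1 => by
    have ih := kinv_raise y z h n
    have h2 : z ^ 2 * y = z := by linear_combination z * h
    rw [kinv_succ, raise_succ, blk_mul, blk_mul, blk_smul]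
    simp only [Matrix.zero_mul, Matrix.mul_zero, add_zero, zero_add, smul_zero, smul_smul,
      Matrix.smul_mul, Matrix.mul_smul, ih]
    congr 1 <;> congr 1 <;> first
      | ring1
      | exact h2.symm

/-- the off-diagonal coefficient of the powers of the raising operator -/
def sco (y z : R) : ℕ → R
  | 0 => 1
  | j + 1 => y ^ (j + 1) + z ^ 3 * sco y z j

lemma raise_pow (y z : R) (h : y * z = 1) (n : ℕ) : ∀ j,
    raise (n + 1) y z ^ (j + 1) = blk (y ^ (j + 1) • raise n y z ^ (j + 1))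
      (sco y z j • (raise n y z ^ j * kinv n y z)) 0 (z ^ (j + 1) • raise n y z ^ (j + 1))
  | 0 => by
    rw [raise_succ]
    simp [sco]
  | j + 1 => by
    rw [pow_succ, raise_pow y z h n j, raise_succ, blk_mul]
    have ih := kinv_raise y z h n
    have e1 : raise n y z ^ j * kinv n y z * raise n y z =
        z ^ 2 • (raise n y z ^ (j + 1) * kinv n y z) := by
      rw [Matrix.mul_assoc, ih, Matrix.mul_smul, ← Matrix.mul_assoc, ← pow_succ]
    simp only [Matrix.zero_mul, Matrix.mul_zero, add_zero, zero_add,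
      Matrix.smul_mul, Matrix.mul_smul, e1, smul_smul, ← pow_succ, ← add_smul, sco]
    congr 1
    · congr 1; ring
    · congr 1; ring
    · exact smul_zero y
    · congr 1; ring

lemma sco_eq (y z : R) (h : y * z = 1) : ∀ j, sco y z j = y ^ j * ∑ b ∈ Finset.range (j + 1), (z ^ 4) ^ b
  | 0 => by simp [sco]
  | j + 1 => by
    rw [sco, sco_eq y z h j, Finset.sum_range_succ' (fun b => (z ^ 4) ^ b) (j + 1)]
    simp only [pow_succ (z ^ 4), ← Finset.sum_mul, pow_zero]
    linear_combination (-(y ^ j) * z ^ 3 * ∑ b ∈ Finset.range (j + 1), (z ^ 4) ^ b) * h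

end ring

variable {A : ℂ}

lemma sco_ne (hA : A ≠ 0) {n : ℕ} (hn : ∀ i, 1 ≤ i → i ≤ n → A ^ (4 * i) ≠ 1) {j : ℕ} (hj : j + 1 ≤ n) :
    sco A A⁻¹ j ≠ 0 := by
  rw [sco_eq A A⁻¹ (mul_inv_cancel₀ hA)]
  refine mul_ne_zero (pow_ne_zero _ hA) ?_
  intro h
  have h1 := Commute.geom_sum₂_mul (Commute.all (A⁻¹ ^ 4) 1) (j + 1)
  have h2 : (∑ b ∈ Finset.range (j + 1), (A⁻¹ ^ 4) ^ b) * (A⁻¹ ^ 4 - 1) = (A⁻¹ ^ 4) ^ (j + 1) - 1 := by
    simpa using h1
  rw [h, zero_mul] at h2
  have h3 : (A⁻¹ ^ 4) ^ (j + 1) = 1 := by linear_combination -h2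
  apply hn (j + 1) (by omega) hj
  rw [← pow_mul, inv_pow] at h3
  exact inv_eq_one.1 h3

/-- Injectivity of the powers of the raising operator on vectors of negative weight. -/
lemma lefschetz (hA : A ≠ 0) : ∀ (n : ℕ), (∀ i, 1 ≤ i → i ≤ n → A ^ (4 * i) ≠ 1) →
    ∀ (j k : ℕ) (v : Idx n → ℂ), Wt n k v → n + j ≤ 2 * k → (raise n A A⁻¹ ^ j) *ᵥ v = 0 → v = 0
  | 0, _, j, k, v, hv, hjk, h => by
    rcases Nat.eq_zero_or_pos j with hj | hj
    · subst hj; simpa using h
    · funext x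
      exact hv x (by show (0 : ℕ) ≠ k; omega)
  | n + 1, hn, 0, k, v, hv, hjk, h => by simpa using h
  | n + 1, hn, j + 1, k, v, hv, hjk, h => by
    by_cases hkn : n + 1 < k
    · funext x
      exact hv x (by have := ones_le (n + 1) x; omega)
    have hyz : A * A⁻¹ = 1 := mul_inv_cancel₀ hA
    have hn' : ∀ i, 1 ≤ i → i ≤ n → A ^ (4 * i) ≠ 1 := fun i h1 h2 => hn i h1 (by omega)
    rw [raise_pow A A⁻¹ hyz] at h
    have h1 : vl (0 : Idx (n + 1) → ℂ) = 0 := rfl
    have h2 : vr (0 : Idx (n + 1) → ℂ) = 0 := rfl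
    have hl := congrArg vl h
    have hr := congrArg vr h
    rw [vl_blk, h1, Matrix.smul_mulVec, Matrix.smul_mulVec] at hl
    rw [vr_blk, h2, Matrix.zero_mulVec, zero_add, Matrix.smul_mulVec] at hr
    have hAi : A⁻¹ ≠ 0 := inv_ne_zero hA
    have hr' : raise n A A⁻¹ ^ (j + 1) *ᵥ vr v = 0 := by
      rcases smul_eq_zero.1 hr with h3 | h3
      · exact absurd h3 (pow_ne_zero _ hAi)
      · exact h3
    have hwl : Wt n k (vl v) := fun x hx => hv (Sum.inl x) hx
    have hwr : Wt n (k - 1) (vr v) := fun x hx => hv (Sum.inr x) (by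
      show ones n x + 1 ≠ k
      omega)
    -- kinv acts on `vr v` by a scalar
    obtain ⟨kap, hkap, hk⟩ : ∃ kap : ℂ, kap ≠ 0 ∧ kinv n A A⁻¹ *ᵥ vr v = kap • vr v := by
      refine ⟨A⁻¹ ^ (n - (k - 1)) * A ^ (k - 1), mul_ne_zero (pow_ne_zero _ hAi) (pow_ne_zero _ hA), ?_⟩
      rw [kinv_eq]
      exact diagOp_wt _ _ hwr
    rw [← Matrix.mulVec_mulVec, hk, Matrix.mulVec_smul] at hl
    have h3 := congrArg (fun u => raise n A A⁻¹ *ᵥ u) hl
    simp only [Matrix.mulVec_add, Matrix.mulVec_smul, Matrix.mulVec_mulVec, Matrix.mulVec_zero,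
      ← pow_succ'] at h3
    rw [hr', smul_zero, smul_zero, add_zero] at h3
    have h4 : raise n A A⁻¹ ^ (j + 1 + 1) *ᵥ vl v = 0 := by
      rcases smul_eq_zero.1 h3 with h5 | h5
      · exact absurd h5 (pow_ne_zero _ hA)
      · exact h5
    have hvl : vl v = 0 := lefschetz hA n hn' (j + 1 + 1) k (vl v) hwl (by omega) h4
    rw [hvl, Matrix.mulVec_zero, smul_zero, zero_add] at hl
    have h6 : raise n A A⁻¹ ^ j *ᵥ vr v = 0 := by
      rcases smul_eq_zero.1 hl with h5 | h5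
      · exact absurd h5 (sco_ne hA (n := n + 1) hn (by omega))
      · rcases smul_eq_zero.1 h5 with h7 | h7
        · exact absurd h7 hkap
        · exact h7
    have hvr : vr v = 0 := lefschetz hA n hn' j (k - 1) (vr v) hwr (by omega) h6
    exact ext_lr hvl hvr

end Pool.Agent.AMU
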