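import Mathlib

open Matrix Polynomial

namespace Pool.Agent.AMU

variable {ι : Type*} [Fintype ι] [DecidableEq ι]

/-- `l` is an eigenvalue of `M`. -/
def Eig (M : Matrix ι ι ℂ) (l : ℂ) : Prop := ∃ v : ι → ℂ, v ≠ 0 ∧ M *ᵥ v = l • v

lemma eig_iff_det (M : Matrix ι ι ℂ) (l : ℂ) : Eig M l ↔ (Matrix.scalar ι l - M).det = 0 := by
  rw [← Matrix.exists_mulVec_eq_zero_iff]
  unfold Eig
  refine exists_congr fun v => and_congr_right fun _ => ?_
  rw [Matrix.sub_mulVec, sub_eq_zero]
  have h : Matrix.scalar ι l *ᵥ v = l • v := by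
    rw [Matrix.scalar_apply]
    funext i
    rw [Matrix.mulVec_diagonal]
    rfl
  rw [h]
  exact eq_comm

lemma eig_iff_root (M : Matrix ι ι ℂ) (l : ℂ) : Eig M l ↔ l ∈ M.charpoly.roots := by
  rw [eig_iff_det, Polynomial.mem_roots M.charpoly_monic.ne_zero, Polynomial.IsRoot.def,
    Matrix.eval_charpoly]

lemma card_roots (M : Matrix ι ι ℂ) : Multiset.card M.charpoly.roots = Fintype.card ι := by
  rw [← Matrix.charpoly_natDegree_eq_dim M]
  exact (IsAlgClosed.splits M.charpoly).natDegree_eq_card_roots.symm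

lemma charpoly_prod (M : Matrix ι ι ℂ) :
    M.charpoly = (M.charpoly.roots.map fun a => X - C a).prod :=
  (IsAlgClosed.splits M.charpoly).eq_prod_roots_of_monic M.charpoly_monic

/-- If all eigenvalues are `P`-th roots of unity, then `M ^ P` is unipotent. -/
lemma unipotent_of_eig (M : Matrix ι ι ℂ) (P : ℕ) (h : ∀ l, Eig M l → l ^ P = 1) :
    (M ^ P - 1) ^ Fintype.card ι = 0 := by
  have h1 : M.charpoly ∣ (X ^ P - 1) ^ Fintype.card ι := by
    rw [charpoly_prod M, ← card_roots M, ← Multiset.prod_replicate, ← Multiset.map_const']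
    refine Multiset.prod_dvd_prod_of_dvd _ _ fun a ha => ?_
    rw [Polynomial.dvd_iff_isRoot]
    have := h a ((eig_iff_root M a).2 ha)
    simp [this]
  obtain ⟨q, hq⟩ := h1
  have h2 := congrArg (aeval M) hq
  rw [map_mul, Matrix.aeval_self_charpoly, zero_mul] at h2
  simpa using h2

lemma eig_pow (M : Matrix ι ι ℂ) {v : ι → ℂ} {l : ℂ} (h : M *ᵥ v = l • v) (P : ℕ) :
    (M ^ P) *ᵥ v = l ^ P • v := by
  induction P with
  | zero => simp
  | succ P ih =>
    rw [pow_succ, ← Matrix.mulVec_mulVec, h, Matrix.mulVec_smul, ih, smul_smul, pow_succ, mul_comm]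

lemma eig_of_unipotent (M : Matrix ι ι ℂ) (P D : ℕ) (h : (M ^ P - 1) ^ D = 0) {l : ℂ}
    (hl : Eig M l) : l ^ P = 1 := by
  obtain ⟨v, hv, hl⟩ := hl
  have h1 : (M ^ P - 1) *ᵥ v = (l ^ P - 1) • v := by
    rw [Matrix.sub_mulVec, eig_pow M hl, Matrix.one_mulVec, sub_smul, one_smul]
  have h2 := eig_pow (M ^ P - 1) h1 D
  rw [h, Matrix.zero_mulVec] at h2
  rcases smul_eq_zero.1 h2.symm with h3 | h3
  · exact sub_eq_zero.1 (eq_zero_of_pow_eq_zero h3)
  · exact absurd h3 hv

lemma norm_eq_one_of_pow {l : ℂ} {P : ℕ} (hP : 0 < P) (h : l ^ P = 1) : ‖l‖ = 1 := by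
  have h1 : ‖l‖ ^ P = 1 := by rw [← norm_pow, h, norm_one]
  exact (pow_eq_one_iff_of_nonneg (norm_nonneg _) (by omega)).1 h1

/-- The trace is bounded by the size if all eigenvalues are unimodular. -/
lemma norm_trace_le (M : Matrix ι ι ℂ) (h : ∀ l, Eig M l → ‖l‖ = 1) :
    ‖M.trace‖ ≤ Fintype.card ι := by
  rw [Matrix.trace_eq_sum_roots_charpoly, ← card_roots M]
  have h1 : ∀ s : Multiset ℂ, (∀ l ∈ s, ‖l‖ = 1) → ‖s.sum‖ ≤ Multiset.card s := by
    intro s
    induction s using Multiset.induction_on with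
    | empty => intro _; simp
    | cons a s ih =>
      intro hs
      rw [Multiset.sum_cons, Multiset.card_cons]
      refine (norm_add_le _ _).trans ?_
      rw [hs a (Multiset.mem_cons_self a s), Nat.cast_add, Nat.cast_one, add_comm]
      exact add_le_add (ih fun l hl => hs l (Multiset.mem_cons_of_mem hl)) le_rfl
  exact h1 _ fun l hl => h l ((eig_iff_root M l).2 hl)

/-- Lower bound for the characteristic polynomial if all eigenvalues are unimodular. -/
lemma norm_det_ge (M : Matrix ι ι ℂ) (h : ∀ l, Eig M l → ‖l‖ = 1) (l : ℂ) :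
    |‖l‖ - 1| ^ Fintype.card ι ≤ ‖(Matrix.scalar ι l - M).det‖ := by
  rw [← Matrix.eval_charpoly, ← card_roots M]
  conv_rhs => rw [charpoly_prod M]
  have h1 : ∀ s : Multiset ℂ, (∀ a ∈ s, ‖a‖ = 1) →
      |‖l‖ - 1| ^ Multiset.card s ≤ ‖((s.map fun a => X - C a).prod).eval l‖ := by
    intro s
    induction s using Multiset.induction_on with
    | empty => intro _; simp
    | cons a s ih =>
      intro hs
      rw [Multiset.card_cons, Multiset.map_cons, Multiset.prod_cons, Polynomial.eval_mul, norm_mul,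
        pow_succ, mul_comm]
      refine mul_le_mul ?_ (ih fun l hl => hs l (Multiset.mem_cons_of_mem hl)) (by positivity)
        (norm_nonneg _)
      have h2 := hs a (Multiset.mem_cons_self a s)
      have h3 := abs_norm_sub_norm_le l a
      rw [h2] at h3
      simpa using h3
  exact h1 _ fun a ha => h a ((eig_iff_root M a).2 ha)

end Pool.Agent.AMU
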