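import Pool.Agent.AMU.Lef
import Pool.Agent.AMU.Spec

open Matrix

namespace Pool.Agent.AMU

section ring

variable {R : Type*} [CommRing R]

lemma wordMat_nil (n : ℕ) (y z : R) : wordMat n y z [] = 1 := rfl

lemma wordMat_cons (n : ℕ) (y z : R) (l : ℕ × Bool) (w : List (ℕ × Bool)) :
    wordMat n y z (l :: w) = letter n y z l * wordMat n y z w := by simp [wordMat]

lemma wordMat_append (n : ℕ) (y z : R) (w w' : List (ℕ × Bool)) :
    wordMat n y z (w ++ w') = wordMat n y z w * wordMat n y z w' := by simp [wordMat]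

lemma wordMat_pow (n : ℕ) (y z : R) (w : List (ℕ × Bool)) (p : ℕ) :
    wordMat n y z (List.replicate p w).flatten = wordMat n y z w ^ p := by
  induction p with
  | zero => simp [wordMat_nil]
  | succ p ih => rw [List.replicate_succ, List.flatten_cons, wordMat_append, ih, pow_succ']

/-- the inverse letter -/
def linv (l : ℕ × Bool) : ℕ × Bool := (l.1, !l.2)

lemma letter_mul_linv (n : ℕ) (y z : R) (h : y * z = 1) (l : ℕ × Bool) :
    letter n y z l * letter n y z (linv l) = 1 := by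
  have h1 := tl_mul_self n y z l.1 h
  rcases l with ⟨i, b⟩
  have key : ∀ a b : R, a * b = 1 → (b * b + a * a + a * b * (-(y ^ 2) - z ^ 2)) = 0 →
      (a • (1 : Matrix (Idx n) (Idx n) R) + b • tl n y z i) * (b • 1 + a • tl n y z i) = 1 := by
    intro a b hab hk
    rw [Matrix.add_mul, Matrix.mul_add, Matrix.mul_add, s_mul, hab, one_smul]
    simp only [smul_mul_smul_comm, Matrix.one_mul, Matrix.mul_one, h1, smul_smul]
    rw [add_assoc, ← add_assoc ((a * a) • _), ← add_smul, ← add_smul]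
    have : a * a + b * b + b * a * (-(y ^ 2) - z ^ 2) = 0 := by linear_combination hk
    rw [this, zero_smul, add_zero]
  rcases b with _ | _
  · simp only [letter, linv]
    exact key z y (by rw [mul_comm]; exact h) (by linear_combination (-(y ^ 2) - z ^ 2) * h)
  · simp only [letter, linv]
    exact key y z h (by linear_combination (-(y ^ 2) - z ^ 2) * h)

lemma linv_linv (l : ℕ × Bool) : linv (linv l) = l := by
  rcases l with ⟨i, b⟩
  cases b <;> rfl

/-- the inverse word -/
def winv (w : List (ℕ × Bool)) : List (ℕ × Bool) := (w.map linv).reverse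

lemma wordMat_mul_winv (n : ℕ) (y z : R) (h : y * z = 1) (w : List (ℕ × Bool)) :
    wordMat n y z w * wordMat n y z (winv w) = 1 := by
  induction w with
  | nil => simp [winv, wordMat]
  | cons l w ih =>
    have h1 : winv (l :: w) = winv w ++ [linv l] := by simp [winv]
    rw [h1, wordMat_append, wordMat_cons, Matrix.mul_assoc, ← Matrix.mul_assoc (wordMat n y z w), ih,
      Matrix.one_mul]
    have h2 : wordMat n y z [linv l] = letter n y z (linv l) := by simp [wordMat]
    rw [h2, letter_mul_linv n y z h]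

lemma winv_mul_wordMat (n : ℕ) (y z : R) (h : y * z = 1) (w : List (ℕ × Bool)) :
    wordMat n y z (winv w) * wordMat n y z w = 1 := by
  have h1 := wordMat_mul_winv n y z h (winv w)
  have h2 : winv (winv w) = w := by
    simp [winv, List.map_reverse, List.map_map, Function.comp_def, linv_linv]
  rwa [h2] at h1

/-- commutation with letters from commutation with the generators -/
lemma comm_letter {n : ℕ} (y z : R) {M : Matrix (Idx n) (Idx n) R}
    (h : ∀ i, M * tl n y z i = tl n y z i * M) (l : ℕ × Bool) :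
    M * letter n y z l = letter n y z l * M := by
  unfold letter
  split_ifs
  · rw [Matrix.mul_add, Matrix.add_mul, Matrix.mul_smul, Matrix.mul_smul, Matrix.smul_mul,
      Matrix.smul_mul, Matrix.mul_one, Matrix.one_mul, h]
  · rw [Matrix.mul_add, Matrix.add_mul, Matrix.mul_smul, Matrix.mul_smul, Matrix.smul_mul,
      Matrix.smul_mul, Matrix.mul_one, Matrix.one_mul, h]

lemma comm_wordMat {n : ℕ} (y z : R) {M : Matrix (Idx n) (Idx n) R}
    (h : ∀ i, M * tl n y z i = tl n y z i * M) (w : List (ℕ × Bool)) :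
    M * wordMat n y z w = wordMat n y z w * M := by
  induction w with
  | nil => simp [wordMat]
  | cons l w ih =>
    rw [wordMat_cons, ← Matrix.mul_assoc, comm_letter y z h l, Matrix.mul_assoc, ih,
      Matrix.mul_assoc]

lemma tl_transpose (y z : R) : ∀ (n i : ℕ), (tl n y z i)ᵀ = tl n y z i
  | 0, i => by simp [tl]
  | 1, i => by simp [tl]
  | n + 2, i => by
    have hb : ∀ {m : ℕ} (a b c d : Matrix (Idx m) (Idx m) R), (blk a b c d)ᵀ = blk aᵀ cᵀ bᵀ dᵀ :=
      fun a b c d => Matrix.fromBlocks_transpose a b c d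
    by_cases hi : i = n
    · subst hi
      rw [tl_last]
      unfold tlLast
      rw [hb, hb, hb, hb, hb]
      simp
    · rw [tl_of_ne hi, hb, tl_transpose y z (n + 1) i, Matrix.transpose_zero]

/-- the lowering operator -/
def lower (n : ℕ) (y z : R) : Matrix (Idx n) (Idx n) R := (raise n y z)ᵀ

lemma lower_comm (y z : R) (h : y * z = 1) (n i : ℕ) :
    lower n y z * tl n y z i = tl n y z i * lower n y z := by
  have h1 := congrArg Matrix.transpose (raise_comm y z h n i)
  rw [Matrix.transpose_mul, Matrix.transpose_mul, tl_transpose] at h1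
  exact h1.symm

lemma raise_comm_word (y z : R) (h : y * z = 1) (n : ℕ) (w : List (ℕ × Bool)) :
    raise n y z * wordMat n y z w = wordMat n y z w * raise n y z :=
  comm_wordMat y z (raise_comm y z h n) w

lemma lower_comm_word (y z : R) (h : y * z = 1) (n : ℕ) (w : List (ℕ × Bool)) :
    lower n y z * wordMat n y z w = wordMat n y z w * lower n y z :=
  comm_wordMat y z (lower_comm y z h n) w

lemma clos_comm_word (y z : R) (n : ℕ) (w : List (ℕ × Bool)) :
    clos n y z * wordMat n y z w = wordMat n y z w * clos n y z := by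
  refine comm_wordMat y z (fun i => ?_) w
  rw [clos_eq]
  exact diagOp_comm _ _ _ _ _ _

/-- powers of a letter -/
lemma letter_pow_aux {n : ℕ} (y z : R) (h : y * z = 1) (i : ℕ) (a b : R) (p : ℕ) :
    (-(y ^ 2) - z ^ 2) • (a • (1 : Matrix (Idx n) (Idx n) R) + b • tl n y z i) ^ p =
      (a ^ p * (-(y ^ 2) - z ^ 2)) • (1 : Matrix (Idx n) (Idx n) R) +
        ((a + b * (-(y ^ 2) - z ^ 2)) ^ p - a ^ p) • tl n y z i := by
  induction p with
  | zero => simp
  | succ p ih =>
    have e : ∀ M : Matrix (Idx n) (Idx n) R, M ^ (p + 1) = M ^ p * M := fun M => pow_succ M p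
    rw [e, ← Matrix.smul_mul, ih, Matrix.add_mul, Matrix.mul_add, Matrix.mul_add]
    simp only [smul_mul_smul_comm, Matrix.one_mul, Matrix.mul_one, tl_mul_self n y z i h, smul_smul]
    rw [add_assoc, ← add_smul, ← add_smul]
    congr 1
    · congr 1; ring
    · congr 1; ring

end ring

lemma neg_pow_two_mul {u : ℂ} {N : ℕ} (hu : u ^ N = 1) (k : ℕ) : (-(u ^ k)) ^ (2 * N) = 1 := by
  rw [pow_mul, neg_sq, ← pow_mul, ← pow_mul, show k * (2 * N) = N * (k * 2) by ring, pow_mul, hu,
    one_pow]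

/-- At an `N`-th root of unity with `A ^ 4 ≠ -1` the letters have order dividing `2 N`. -/
lemma letter_pow {n : ℕ} {A : ℂ} {N : ℕ} (hA : A ^ N = 1) (hN : 0 < N) (h4 : A ^ 4 ≠ -1)
    (l : ℕ × Bool) : letter n A A⁻¹ l ^ (2 * N) = 1 := by
  have hA0 : A ≠ 0 := by
    rintro rfl
    rw [zero_pow (by omega)] at hA
    exact zero_ne_one hA
  have hyz : A * A⁻¹ = 1 := mul_inv_cancel₀ hA0
  have hd : (-(A ^ 2) - A⁻¹ ^ 2) ≠ 0 := by
    intro h
    apply h4
    have : A ^ 4 + 1 = -A ^ 2 * (-(A ^ 2) - A⁻¹ ^ 2) - ((A * A⁻¹) ^ 2 - 1) := by ring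
    rw [h, hyz] at this
    linear_combination this
  have hi : A⁻¹ ^ N = 1 := by rw [inv_pow, hA, inv_one]
  have e1 : A + A⁻¹ * (-(A ^ 2) - A⁻¹ ^ 2) = -(A⁻¹ ^ 3) := by linear_combination -A * hyz
  have e2 : A⁻¹ + A * (-(A ^ 2) - A⁻¹ ^ 2) = -(A ^ 3) := by linear_combination -A⁻¹ * hyz
  have f1 : (-(A⁻¹ ^ 3)) ^ (2 * N) = 1 := neg_pow_two_mul hi 3
  have f2 : (-(A ^ 3)) ^ (2 * N) = 1 := neg_pow_two_mul hA 3
  have g1 : A ^ (2 * N) = 1 := by rw [mul_comm, pow_mul, hA, one_pow]
  have g2 : A⁻¹ ^ (2 * N) = 1 := by rw [mul_comm, pow_mul, hi, one_pow]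
  have key : ∀ M : Matrix (Idx n) (Idx n) ℂ, (-(A ^ 2) - A⁻¹ ^ 2) • M =
      (1 * (-(A ^ 2) - A⁻¹ ^ 2)) • 1 + ((1 : ℂ) - 1) • tl n A A⁻¹ l.1 → M = 1 := by
    intro M hM
    rw [one_mul, sub_self, zero_smul, add_zero] at hM
    exact smul_right_injective _ hd hM
  apply key
  unfold letter
  split_ifs
  · rw [letter_pow_aux A A⁻¹ hyz, e1, f1, g1]
  · rw [letter_pow_aux A A⁻¹ hyz, e2, f2, g2]

lemma clos_pow {n : ℕ} {A : ℂ} {N : ℕ} (hA : A ^ N = 1) : clos n A A⁻¹ ^ (2 * N) = 1 := by
  have hi : A⁻¹ ^ N = 1 := by rw [inv_pow, hA, inv_one]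
  rw [clos_eq, diagOp_pow]
  have f1 : (-(A ^ 2)) ^ (2 * N) = 1 := neg_pow_two_mul hA 2
  have f2 : (-(A⁻¹ ^ 2)) ^ (2 * N) = 1 := neg_pow_two_mul hi 2
  rw [f1, f2, diagOp_one]

end Pool.Agent.AMU
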