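import Pool.Agent.AMU.Finite

open Matrix

namespace Pool.Agent.AMU

/-- The conclusion of the AMU conjecture for the braid `w` on `n` strands, with the colour `1` at
all punctures and any colour at the outer boundary: for all large `N` and all primitive `N`-th
roots of unity `A` there is a colour `n - 2 k` of the outer boundary such that `w` has infinite order
in the quantum representation. -/
def AMUProp (n : ℕ) (w : List (ℕ × Bool)) : Prop :=
  ∃ N0 : ℕ, ∀ N, N0 ≤ N → ∀ A : ℂ, IsPrimitiveRoot A N → ∃ k, 2 * k ≤ n ∧ InfiniteOrder n A w k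

lemma card_idx : ∀ n, Fintype.card (Idx n) = 2 ^ n
  | 0 => rfl
  | n + 1 => by
    show Fintype.card (Idx n ⊕ Idx n) = 2 ^ (n + 1)
    rw [Fintype.card_sum, card_idx n]
    ring

/-- If the AMU property fails, all eigenvalues on the circle are unimodular. -/
lemma unimodular_of_not {n : ℕ} {w : List (ℕ × Bool)} (h : ¬ AMUProp n w) (A0 : ℂ) (hA0 : ‖A0‖ = 1)
    (l : ℂ) (hl : Eig (wordMat n A0 A0⁻¹ w) l) : ‖l‖ = 1 := by
  refine unimodular_of_frequently n w (fun N0 => ?_) A0 hA0 l hl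
  unfold AMUProp at h
  push Not at h
  obtain ⟨N, hN, A, hA, hk⟩ := h (max N0 (4 * n + 9))
  have hN1 : N0 ≤ N := (le_max_left _ _).trans hN
  have hN2 : 4 * n + 9 ≤ N := (le_max_right _ _).trans hN
  refine ⟨N, hN1, fun A' hA' l hl => ?_⟩
  obtain ⟨M, hM, hM'⟩ := common_exponent _ (eig_of_finite hA (by omega) (by omega) w hk)
  exact norm_eq_one_of_pow hM (eig_transfer (by omega) hA hA' w hM' l hl)

/-- If all eigenvalues on the circle are unimodular, the braid has finite order at all roots of unity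
in the stable range. -/
lemma finite_of_unimodular {n : ℕ} (hn : 0 < n) {w : List (ℕ × Bool)}
    (h : ∀ A0 : ℂ, ‖A0‖ = 1 → ∀ l, Eig (wordMat n A0 A0⁻¹ w) l → ‖l‖ = 1) {N : ℕ} (hN : 4 * n < N)
    {A : ℂ} (hA : IsPrimitiveRoot A N) : ∃ M, 0 < M ∧ wordMat n A A⁻¹ w ^ M = 1 := by
  obtain ⟨M, hM, hM'⟩ := common_exponent _ fun l hl =>
    kronecker (n := n) (N := N) (by omega) w (fun A' hA' l hl =>
      h A' (hA'.norm'_eq_one (by omega)) l hl) hA hl
  exact ⟨M, hM, pow_eq_one_of_eig hn hN hA w M hM'⟩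

lemma finite_contra {n : ℕ} {A : ℂ} {w : List (ℕ × Bool)} {k M : ℕ} (hM : 0 < M)
    (h : wordMat n A A⁻¹ w ^ M = 1) : ¬ InfiniteOrder n A w k := by
  intro hi
  obtain ⟨v, -, hv⟩ := hi M hM 1
  apply hv
  rw [h, Matrix.one_mulVec, one_smul]

theorem main (n : ℕ) (hn : 0 < n) (w : List (ℕ × Bool)) :
    (AMUProp n w ∨ ∀ N, 4 * n < N → ∀ A : ℂ, IsPrimitiveRoot A N →
      ∃ M, 0 < M ∧ wordMat n A A⁻¹ w ^ M = 1) ∧
    (AMUProp n w ↔ ∃ A l : ℂ, ‖A‖ = 1 ∧ ‖l‖ ≠ 1 ∧ Eig (wordMat n A A⁻¹ w) l) ∧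
    (∀ N, 4 * n < N → ∀ A : ℂ, IsPrimitiveRoot A N → ∀ k, InfiniteOrder n A w k → AMUProp n w) ∧
    (∀ N, 0 < N → ∀ A : ℂ, IsPrimitiveRoot A N → ∀ l : ℂ, Eig (wordMat n A A⁻¹ w) l →
      (∀ M, 0 < M → l ^ M ≠ 1) → AMUProp n w) ∧
    (∀ p : ℕ, ∀ A : ℂ, ‖A‖ = 1 → 2 ^ n < ‖bracket n A A⁻¹ (List.replicate p w).flatten‖ →
      AMUProp n w) := by
  have hdich : ∀ (h : ¬ AMUProp n w) N, 4 * n < N → ∀ A : ℂ, IsPrimitiveRoot A N →
      ∃ M, 0 < M ∧ wordMat n A A⁻¹ w ^ M = 1 := fun h N hN A hA =>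
    finite_of_unimodular hn (unimodular_of_not h) hN hA
  refine ⟨?_, ⟨?_, ?_⟩, ?_, ?_, ?_⟩
  · by_cases h : AMUProp n w
    · exact Or.inl h
    · exact Or.inr (hdich h)
  · intro h
    by_contra hne
    push Not at hne
    have h1 : ∀ A0 : ℂ, ‖A0‖ = 1 → ∀ l, Eig (wordMat n A0 A0⁻¹ w) l → ‖l‖ = 1 := by
      intro A0 hA0 l hl
      by_contra h2
      exact hne A0 l hA0 h2 hl
    obtain ⟨N0, hN0⟩ := h
    set N := max N0 (4 * n + 1)
    have hN1 : N0 ≤ N := le_max_left _ _
    have hN2 : 4 * n + 1 ≤ N := le_max_right _ _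
    have hA := Complex.isPrimitiveRoot_exp N (by omega)
    obtain ⟨k, -, hk⟩ := hN0 N hN1 _ hA
    obtain ⟨M, hM, hM1⟩ := finite_of_unimodular hn h1 (by omega) hA
    exact finite_contra hM hM1 hk
  · rintro ⟨A0, l, hA0, hl1, hl⟩
    by_contra h
    exact hl1 (unimodular_of_not h A0 hA0 l hl)
  · intro N hN A hA k hk
    by_contra h
    obtain ⟨M, hM, hM1⟩ := hdich h N hN A hA
    exact finite_contra hM hM1 hk
  · intro N hN A hA l hl hne
    by_contra h
    obtain ⟨M, hM, hM1⟩ := kronecker hN w (fun A' hA' l hl =>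
      unimodular_of_not h A' (hA'.norm'_eq_one (by omega)) l hl) hA hl
    exact hne M hM hM1
  · intro p A0 hA0 hbr
    by_contra h
    -- the set of `A` with large bracket is open
    have hA0' : A0 ≠ 0 := ne_zero_of_unit hA0
    have hcont : ContinuousAt (fun A : ℂ => ‖bracket n A A⁻¹ (List.replicate p w).flatten‖) A0 := by
      have h1 := continuousAt_word n (List.replicate p w).flatten hA0'
      have h2 : ContinuousAt (fun A : ℂ => clos n A A⁻¹) A0 := by
        have h3 : ∀ m, ContinuousAt (fun A : ℂ => clos m A A⁻¹) A0 := by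
          intro m
          induction m with
          | zero => exact continuousAt_const
          | succ m ih =>
            have h4 : ContinuousAt (fun A : ℂ => -(A ^ 2) • clos m A A⁻¹) A0 :=
              (continuousAt_id.pow 2).neg.smul ih
            have h5 : ContinuousAt (fun A : ℂ => -(A⁻¹ ^ 2) • clos m A A⁻¹) A0 :=
              ((continuousAt_inv₀ hA0').pow 2).neg.smul ih
            have h6 : Continuous fun q : Matrix (Idx m) (Idx m) ℂ × Matrix (Idx m) (Idx m) ℂ =>
                blk q.1 0 0 q.2 :=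
              Continuous.matrix_fromBlocks continuous_fst continuous_const continuous_const
                continuous_snd
            exact ContinuousAt.comp (f := fun A : ℂ => (-(A ^ 2) • clos m A A⁻¹,
              -(A⁻¹ ^ 2) • clos m A A⁻¹)) (g := fun q : Matrix (Idx m) (Idx m) ℂ ×
              Matrix (Idx m) (Idx m) ℂ => blk q.1 0 0 q.2) h6.continuousAt (h4.prodMk h5)
        exact h3 n
      have h7 : Continuous fun q : Matrix (Idx n) (Idx n) ℂ × Matrix (Idx n) (Idx n) ℂ =>
          ‖(q.1 * q.2).trace‖ := (continuous_fst.matrix_mul continuous_snd).matrix_trace.norm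
      exact ContinuousAt.comp (f := fun A : ℂ => (clos n A A⁻¹,
        wordMat n A A⁻¹ (List.replicate p w).flatten)) (g := fun q : Matrix (Idx n) (Idx n) ℂ ×
        Matrix (Idx n) (Idx n) ℂ => ‖(q.1 * q.2).trace‖) h7.continuousAt (h2.prodMk h1)
    have hev := hcont.eventually (lt_mem_nhds hbr)
    obtain ⟨ε, hε, hball⟩ := Metric.eventually_nhds_iff.1 hev
    obtain ⟨N0, hN0⟩ := primitive_dense A0 hA0 ε hε
    set N := max N0 (4 * n + 1)
    have hN1 : N0 ≤ N := le_max_left _ _
    have hN2 : 4 * n + 1 ≤ N := le_max_right _ _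
    obtain ⟨A, hA, hAd⟩ := hN0 N hN1
    have h1 := hball hAd
    obtain ⟨M, hM, hM1⟩ := hdich h N (by omega) A hA
    -- the closure operator times the braid has finite order
    have h2 : (clos n A A⁻¹ * wordMat n A A⁻¹ (List.replicate p w).flatten) ^ (2 * N * M) = 1 := by
      have hc : Commute (clos n A A⁻¹) (wordMat n A A⁻¹ (List.replicate p w).flatten) :=
        clos_comm_word _ _ _ _
      rw [hc.mul_pow, pow_mul, clos_pow hA.pow_eq_one, one_pow, one_mul, wordMat_pow, ← pow_mul,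
        show p * (2 * N * M) = M * (p * (2 * N)) by ring, pow_mul, hM1, one_pow]
    have h3 := norm_trace_le (clos n A A⁻¹ * wordMat n A A⁻¹ (List.replicate p w).flatten)
      (fun l hl => norm_eq_one_of_pow (P := 2 * N * M) (Nat.mul_pos (by omega) hM)
        (eig_of_unipotent _ (2 * N * M) 1 (by rw [h2, sub_self, pow_one]) hl))
    rw [card_idx] at h3
    push_cast at h3
    unfold bracket at h1
    linarith

end Pool.Agent.AMU
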