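import Pool.Agent.AMU.Perm
import Pool.Agent.AMU.Expo

open Matrix Filter Topology Asymptotics

namespace Pool.Agent.AMU

/-! ### Differentiability in `A` -/

lemma diffAt_tl : ∀ (n i : ℕ) (x x' : Idx n) {A0 : ℂ}, A0 ≠ 0 →
    DifferentiableAt ℂ (fun A : ℂ => tl n A A⁻¹ i x x') A0
  | 0, i, x, x', A0, h => by simp [tl]
  | 1, i, x, x', A0, h => by simp [tl]
  | n + 2, i, x, x', A0, h => by
    by_cases hi : i = n
    · subst hi
      simp only [tl_last]
      have h1 : DifferentiableAt ℂ (fun A : ℂ => -(A⁻¹ ^ 2)) A0 :=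
        ((differentiableAt_inv h).pow 2).neg
      have h2 : DifferentiableAt ℂ (fun A : ℂ => -(A ^ 2)) A0 := (differentiableAt_id.pow 2).neg
      rcases x with (x | x) | (x | x) <;> rcases x' with (x' | x') | (x' | x')
      all_goals first
        | exact differentiableAt_const _
        | exact h1.mul (differentiableAt_const _)
        | exact h2.mul (differentiableAt_const _)
    · simp only [tl_of_ne hi]
      rcases x with x | x <;> rcases x' with x' | x'
      · exact diffAt_tl (n + 1) i x x' h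
      · exact differentiableAt_const _
      · exact differentiableAt_const _
      · exact diffAt_tl (n + 1) i x x' h

lemma diffAt_letter (n : ℕ) (l : ℕ × Bool) (x x' : Idx n) {A0 : ℂ} (h : A0 ≠ 0) :
    DifferentiableAt ℂ (fun A : ℂ => letter n A A⁻¹ l x x') A0 := by
  have h1 := diffAt_tl n l.1 x x' h
  rcases l with ⟨i, b⟩
  cases b
  · simp only [letter, Bool.false_eq_true, if_false, Matrix.add_apply, Matrix.smul_apply,
      smul_eq_mul]
    exact ((differentiableAt_inv h).mul (differentiableAt_const _)).add (differentiableAt_id.mul h1)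
  · simp only [letter, if_true, Matrix.add_apply, Matrix.smul_apply, smul_eq_mul]
    exact (differentiableAt_id.mul (differentiableAt_const _)).add ((differentiableAt_inv h).mul h1)

lemma diffAt_word (n : ℕ) : ∀ (w : List (ℕ × Bool)) (x x' : Idx n) {A0 : ℂ}, A0 ≠ 0 →
    DifferentiableAt ℂ (fun A : ℂ => wordMat n A A⁻¹ w x x') A0
  | [], x, x', A0, h => differentiableAt_const _
  | l :: w, x, x', A0, h => by
    simp only [wordMat_cons, Matrix.mul_apply]
    exact DifferentiableAt.fun_sum fun y _ => (diffAt_letter n l x y h).mul (diffAt_word n w y x' h)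

/-! ### Orders of vanishing at `A = 1` -/

/-- all entries of the matrix valued function are `O((A - 1)^k)` at `A = 1` -/
def Ord {n : ℕ} (k : ℕ) (F : ℂ → Matrix (Idx n) (Idx n) ℂ) : Prop :=
  ∀ x x', (fun A => F A x x') =O[𝓝 1] fun A => (A - 1) ^ k

lemma Ord.add {n k : ℕ} {F G : ℂ → Matrix (Idx n) (Idx n) ℂ} (hF : Ord k F) (hG : Ord k G) :
    Ord k (fun A => F A + G A) := fun x x' => (hF x x').add (hG x x')

lemma Ord.sub {n k : ℕ} {F G : ℂ → Matrix (Idx n) (Idx n) ℂ} (hF : Ord k F) (hG : Ord k G) :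
    Ord k (fun A => F A - G A) := fun x x' => (hF x x').sub (hG x x')

lemma Ord.mul {n j k : ℕ} {F G : ℂ → Matrix (Idx n) (Idx n) ℂ} (hF : Ord j F) (hG : Ord k G) :
    Ord (j + k) (fun A => F A * G A) := by
  intro x x'
  simp only [Matrix.mul_apply, pow_add]
  exact (IsBigO.sum (s := Finset.univ) fun y _ => (hF x y).mul (hG y x')).congr_left
    fun A => by simp

lemma ord_word (n : ℕ) (w : List (ℕ × Bool)) : Ord 0 (fun A : ℂ => wordMat n A A⁻¹ w) := by
  intro x x'
  simp only [pow_zero]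
  exact (diffAt_word n w x x' one_ne_zero).continuousAt.isBigO_one ℂ

lemma ord_word_one {n : ℕ} {w : List (ℕ × Bool)} (h : wordMat n (1 : ℂ) 1 w = 1) :
    Ord 1 (fun A : ℂ => wordMat n A A⁻¹ w - 1) := by
  intro x x'
  have h1 := (diffAt_word n w x x' one_ne_zero).isBigO_sub
  simp only [inv_one, h] at h1
  simpa [Matrix.sub_apply] using h1

/-- The words of a product and of a commutator. -/
lemma ord_mul {n k : ℕ} {u v : List (ℕ × Bool)} (hu : Ord k (fun A : ℂ => wordMat n A A⁻¹ u - 1))
    (hv : Ord k (fun A : ℂ => wordMat n A A⁻¹ v - 1)) :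
    Ord k (fun A : ℂ => wordMat n A A⁻¹ (u ++ v) - 1) := by
  have h1 := (hu.mul (ord_word n v)).add hv
  refine fun x x' => (h1 x x').congr_left fun A => ?_
  simp only [wordMat_append]
  rw [Matrix.sub_mul, Matrix.one_mul, sub_add_sub_cancel]

lemma ord_comm {n : ℕ} {u v : List (ℕ × Bool)} (hu : Ord 1 (fun A : ℂ => wordMat n A A⁻¹ u - 1))
    (hv : Ord 1 (fun A : ℂ => wordMat n A A⁻¹ v - 1)) :
    Ord 2 (fun A : ℂ => wordMat n A A⁻¹ (u ++ v ++ winv u ++ winv v) - 1) := by
  have h1 := (((hu.mul hv).sub (hv.mul hu)).mul (ord_word n (winv u))).mul (ord_word n (winv v))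
  intro x x'
  refine (h1 x x').congr' ?_ (by simp)
  filter_upwards [isOpen_ne.mem_nhds (one_ne_zero : (1 : ℂ) ≠ 0)] with A hA
  have hA' : A * A⁻¹ = 1 := mul_inv_cancel₀ hA
  have e1 := wordMat_mul_winv n A A⁻¹ hA' u
  have e2 := wordMat_mul_winv n A A⁻¹ hA' v
  simp only [wordMat_append]
  generalize wordMat n A A⁻¹ u = U at *
  generalize wordMat n A A⁻¹ v = V at *
  generalize wordMat n A A⁻¹ (winv u) = U' at *
  generalize wordMat n A A⁻¹ (winv v) = V' at *
  have e3 : (U - 1) * (V - 1) - (V - 1) * (U - 1) = U * V - V * U := by noncomm_ring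
  rw [e3, Matrix.sub_mul, Matrix.sub_mul, Matrix.mul_assoc V U U', e1, Matrix.mul_one, e2]

lemma ord_inv {n k : ℕ} {u : List (ℕ × Bool)} (hu : Ord k (fun A : ℂ => wordMat n A A⁻¹ u - 1)) :
    Ord k (fun A : ℂ => wordMat n A A⁻¹ (winv u) - 1) := by
  have h1 := hu.mul (ord_word n (winv u))
  intro x x'
  refine ((h1 x x').neg_left).congr' ?_ (by simp)
  filter_upwards [isOpen_ne.mem_nhds (one_ne_zero : (1 : ℂ) ≠ 0)] with A hA
  have hA' : A * A⁻¹ = 1 := mul_inv_cancel₀ hA
  have e1 := wordMat_mul_winv n A A⁻¹ hA' u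
  simp only [Matrix.sub_mul, Matrix.one_mul, e1, Matrix.sub_apply]
  ring

/-- The word chosen for a braid. -/
noncomputable def word {n : ℕ} (f : BraidGroup n) : List (ℕ × Bool) := (exists_word f).choose

lemma word_spec {n : ℕ} (f : BraidGroup n) (A : ℂˣ) :
    (rep n A f).val = wordMat n (A : ℂ) (A : ℂ)⁻¹ (word f) := (exists_word f).choose_spec A

lemma word_spec' {n : ℕ} (f : BraidGroup n) {A : ℂ} (hA : A ≠ 0) :
    (rep n (Units.mk0 A hA) f).val = wordMat n A A⁻¹ (word f) := word_spec f _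

lemma ord_congr {n k : ℕ} {F G : ℂ → Matrix (Idx n) (Idx n) ℂ} (hF : Ord k F)
    (h : ∀ A, A ≠ 0 → F A = G A) : Ord k G := by
  intro x x'
  refine (hF x x').congr' ?_ (EventuallyEq.refl _ _)
  filter_upwards [isOpen_ne.mem_nhds (one_ne_zero : (1 : ℂ) ≠ 0)] with A hA
  rw [h A hA]

lemma ord_pure {n : ℕ} {f : BraidGroup n} (hf : f ∈ PureBraid n) :
    Ord 1 (fun A : ℂ => wordMat n A A⁻¹ (word f) - 1) := by
  apply ord_word_one
  have h1 := rep_one_pure hf
  rw [word_spec] at h1
  simpa using h1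

lemma ord_commutator {n : ℕ} {f : BraidGroup n} (hf : f ∈ ⁅PureBraid n, PureBraid n⁆) :
    Ord 2 (fun A : ℂ => wordMat n A A⁻¹ (word f) - 1) := by
  rw [Subgroup.commutator_def] at hf
  have e3 : ∀ (f : BraidGroup n) {A : ℂ} (hA : A ≠ 0), wordMat n A A⁻¹ (winv (word f)) =
      ((rep n (Units.mk0 A hA) f)⁻¹).val := by
    intro f A hA
    have e4 := wordMat_mul_winv n A A⁻¹ (mul_inv_cancel₀ hA) (word f)
    rw [← word_spec' f hA] at e4
    exact (Units.inv_eq_of_mul_eq_one_right e4).symm
  induction hf using Subgroup.closure_induction with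
  | mem f hf =>
    obtain ⟨g, hg, h, hh, rfl⟩ := hf
    refine ord_congr (ord_comm (ord_pure hg) (ord_pure hh)) fun A hA => ?_
    congr 1
    rw [← word_spec' _ hA, commutatorElement_def, map_mul, map_mul, map_mul, map_inv, map_inv,
      Units.val_mul, Units.val_mul, Units.val_mul, ← e3 g hA, ← e3 h hA, word_spec' g hA,
      word_spec' h hA, wordMat_append, wordMat_append, wordMat_append]
  | one =>
    have h0 : Ord 2 (fun A : ℂ => wordMat n A A⁻¹ [] - 1) := by
      intro x x'
      have : (fun A : ℂ => (wordMat n A A⁻¹ [] - 1) x x') = fun _ => 0 := by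
        funext A
        simp [wordMat]
      rw [this]
      exact isBigO_zero _ _
    refine ord_congr h0 fun A hA => ?_
    rw [← word_spec' _ hA, map_one]
    rfl
  | mul f g _ _ hf hg =>
    refine ord_congr (ord_mul hf hg) fun A hA => ?_
    rw [← word_spec' _ hA, map_mul, Units.val_mul, word_spec' f hA, word_spec' g hA, wordMat_append]
  | inv f _ hf =>
    refine ord_congr (ord_inv hf) fun A hA => ?_
    rw [← word_spec' _ hA, map_inv, e3 f hA]

end Pool.Agent.AMU
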