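import Pool.Agent.AMU.Herm

open Matrix

namespace Pool.Agent.AMU

/-- The quantum integers at `A = exp(i θ)`. -/
noncomputable def qr (t : ℝ) (j : ℕ) : ℝ := Real.sin (2 * j * t) / Real.sin (2 * t)

/-- The angle `t` is positive for `n` strands. -/
def PosAngle (n : ℕ) (t : ℝ) : Prop := 0 < t ∧ 2 * t < Real.pi ∧ 2 * n * t < Real.pi

lemma PosAngle.mono {n m : ℕ} (h : m ≤ n) {t : ℝ} (ht : PosAngle n t) : PosAngle m t := by
  refine ⟨ht.1, ht.2.1, lt_of_le_of_lt ?_ ht.2.2⟩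
  have : (m : ℝ) ≤ n := by exact_mod_cast h
  have := ht.1
  nlinarith

lemma sin_pos_of {n : ℕ} {t : ℝ} (ht : PosAngle n t) : 0 < Real.sin (2 * t) :=
  Real.sin_pos_of_pos_of_lt_pi (by have := ht.1; linarith) ht.2.1

lemma qr_pos {n : ℕ} {t : ℝ} (ht : PosAngle n t) {j : ℕ} (h1 : 1 ≤ j) (h2 : j ≤ n) : 0 < qr t j := by
  unfold qr
  refine div_pos (Real.sin_pos_of_pos_of_lt_pi ?_ ?_) (sin_pos_of ht)
  · have := ht.1
    have : (0 : ℝ) < j := by exact_mod_cast h1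
    positivity
  · refine lt_of_le_of_lt ?_ ht.2.2
    have := ht.1
    have : (j : ℝ) ≤ n := by exact_mod_cast h2
    nlinarith

lemma exp_diff (t : ℝ) (j : ℕ) :
    Complex.exp (t * Complex.I) ^ (2 * j) - (Complex.exp (t * Complex.I))⁻¹ ^ (2 * j) =
      2 * Complex.I * Real.sin (2 * j * t) := by
  rw [← Complex.exp_neg, ← Complex.exp_nat_mul, ← Complex.exp_nat_mul, Complex.ofReal_sin,
    Complex.sin]
  push_cast
  have e1 : (2 * (j : ℂ) * (t * Complex.I)) = 2 * j * t * Complex.I := by ring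
  have e2 : (2 * (j : ℂ) * -(t * Complex.I)) = -(2 * j * t) * Complex.I := by ring
  rw [e1, e2]
  linear_combination (Complex.exp (2 * j * t * Complex.I) - Complex.exp (-(2 * j * t) * Complex.I)) *
    Complex.I_sq

lemma qr_eq {n : ℕ} {t : ℝ} (ht : PosAngle n t) {A : ℂ} (hA : A = Complex.exp (t * Complex.I))
    (j : ℕ) : (A ^ 2 - A⁻¹ ^ 2) * (qr t j : ℂ) = A ^ (2 * j) - A⁻¹ ^ (2 * j) := by
  subst hA
  have h1 := exp_diff t 1
  rw [mul_one, Nat.cast_one, mul_one] at h1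
  rw [h1, exp_diff t j]
  have h2 : (Real.sin (2 * t) : ℂ) ≠ 0 := Complex.ofReal_ne_zero.2 (sin_pos_of ht).ne'
  unfold qr
  rw [Complex.ofReal_div]
  field_simp

lemma diff_ne {n : ℕ} {t : ℝ} (ht : PosAngle n t) {A : ℂ} (hA : A = Complex.exp (t * Complex.I)) :
    A ^ 2 - A⁻¹ ^ 2 ≠ 0 := by
  subst hA
  have h1 := exp_diff t 1
  rw [mul_one, Nat.cast_one, mul_one] at h1
  rw [h1]
  have h2 : (Real.sin (2 * t) : ℂ) ≠ 0 := Complex.ofReal_ne_zero.2 (sin_pos_of ht).ne'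
  exact mul_ne_zero (mul_ne_zero two_ne_zero Complex.I_ne_zero) h2

lemma unit_of {t : ℝ} {A : ℂ} (hA : A = Complex.exp (t * Complex.I)) : ‖A‖ = 1 := by
  subst hA
  exact Complex.norm_exp_ofReal_mul_I t

lemma gen_of_angle {n : ℕ} {t : ℝ} (ht : PosAngle n t) {A : ℂ} (hA : A = Complex.exp (t * Complex.I)) :
    Gen n A := by
  have h0 : A ≠ 0 := ne_zero_of_unit (unit_of hA)
  refine ⟨h0, fun i h1 h2 h => ?_⟩
  have h3 := qr_eq ht hA i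
  have h4 := (qr_pos ht h1 h2).ne'
  have h5 := diff_ne ht hA
  apply mul_ne_zero h5 (Complex.ofReal_ne_zero.2 h4)
  rw [h3]
  have h6 : A ^ (2 * i) * (A ^ (2 * i) - A⁻¹ ^ (2 * i)) = 0 := by
    have h8 : A ^ (2 * i) * A ^ (2 * i) = 1 := by
      rw [← pow_add, show 2 * i + 2 * i = 4 * i by ring, h]
    have h9 : A ^ (2 * i) * A⁻¹ ^ (2 * i) = 1 := by rw [← mul_pow, mul_inv_cancel₀ h0, one_pow]
    rw [mul_sub, h8, h9, sub_self]
  rcases mul_eq_zero.1 h6 with h7 | h7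
  · exact absurd h7 (pow_ne_zero _ h0)
  · exact h7

lemma qr_rec {n : ℕ} {t : ℝ} (ht : PosAngle n t) {A : ℂ} (hA : A = Complex.exp (t * Complex.I))
    (j : ℕ) : (A ^ 2 + A⁻¹ ^ 2) * (qr t (j + 1) : ℂ) = qr t (j + 2) + qr t j := by
  have h0 : A ≠ 0 := ne_zero_of_unit (unit_of hA)
  have h1 := qr_eq ht hA (j + 1)
  have h2 := qr_eq ht hA (j + 2)
  have h3 := qr_eq ht hA j
  have h5 := diff_ne ht hA
  have h6 : A * A⁻¹ = 1 := mul_inv_cancel₀ h0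
  apply mul_left_cancel₀ h5
  have e1 : A⁻¹ ^ 2 * A ^ (2 * (j + 1)) = A ^ (2 * j) := by
    rw [show 2 * (j + 1) = 2 + 2 * j by ring, pow_add, ← mul_assoc, ← mul_pow, mul_comm A⁻¹ A, h6,
      one_pow, one_mul]
  have e2 : A ^ 2 * A⁻¹ ^ (2 * (j + 1)) = A⁻¹ ^ (2 * j) := by
    rw [show 2 * (j + 1) = 2 + 2 * j by ring, pow_add, ← mul_assoc, ← mul_pow, h6,
      one_pow, one_mul]
  have e3 : A ^ 2 * A ^ (2 * (j + 1)) = A ^ (2 * (j + 2)) := by rw [← pow_add]; congr 1; ring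
  have e4 : A⁻¹ ^ 2 * A⁻¹ ^ (2 * (j + 1)) = A⁻¹ ^ (2 * (j + 2)) := by rw [← pow_add]; congr 1; ring
  calc (A ^ 2 - A⁻¹ ^ 2) * ((A ^ 2 + A⁻¹ ^ 2) * (qr t (j + 1) : ℂ)) =
      (A ^ 2 + A⁻¹ ^ 2) * ((A ^ 2 - A⁻¹ ^ 2) * (qr t (j + 1) : ℂ)) := by ring
    _ = (A ^ 2 + A⁻¹ ^ 2) * (A ^ (2 * (j + 1)) - A⁻¹ ^ (2 * (j + 1))) := by rw [h1]
    _ = (A ^ (2 * (j + 2)) - A⁻¹ ^ (2 * (j + 2))) + (A ^ (2 * j) - A⁻¹ ^ (2 * j)) := by
      linear_combination e1 - e2 + e3 - e4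
    _ = (A ^ 2 - A⁻¹ ^ 2) * (qr t (j + 2) + qr t j) := by rw [← h2, ← h3]; ring

lemma qr_zero (t : ℝ) : qr t 0 = 0 := by simp [qr]

lemma qr_one {n : ℕ} {t : ℝ} (ht : PosAngle n t) : qr t 1 = 1 := by
  unfold qr
  rw [Nat.cast_one, mul_one, div_self (sin_pos_of ht).ne']

lemma lower_wt {n k : ℕ} {v : Idx n → ℂ} (y z : ℂ) (hv : Wt n k v) :
    Wt n (k + 1) (lower n y z *ᵥ v) := by
  intro x hx
  rw [Matrix.mulVec, dotProduct]
  refine Finset.sum_eq_zero fun x' _ => ?_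
  by_cases h1 : ones n x = ones n x' + 1
  · rw [hv x' (fun h2 => hx (by omega)), mul_zero]
  · rw [lower, Matrix.transpose_apply, raise_entry y z n x' x h1, zero_mul]

lemma lower_pow_wt {n k : ℕ} {v : Idx n → ℂ} (y z : ℂ) (hv : Wt n k v) (j : ℕ) :
    Wt n (k + j) ((lower n y z ^ j) *ᵥ v) := by
  induction j with
  | zero => simpa using hv
  | succ j ih =>
    rw [pow_succ', ← Matrix.mulVec_mulVec]
    exact lower_wt y z ih

/-- the weight of the commutator -/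
noncomputable def kap (A : ℂ) (n k : ℕ) : ℂ :=
  (A ^ 2) ^ (n - k) * (A⁻¹ ^ 2) ^ k - (A⁻¹ ^ 2) ^ (n - k) * (A ^ 2) ^ k

lemma comm_wt {n k : ℕ} {A : ℂ} (hA : A ≠ 0) {v : Idx n → ℂ} (hv : Wt n k v) :
    (A ^ 2 - A⁻¹ ^ 2) • (raise n A A⁻¹ *ᵥ (lower n A A⁻¹ *ᵥ v)) =
      (A ^ 2 - A⁻¹ ^ 2) • (lower n A A⁻¹ *ᵥ (raise n A A⁻¹ *ᵥ v)) + kap A n k • v := by
  have h1 := congrArg (fun M => M *ᵥ v) (comm_EF A A⁻¹ (mul_inv_cancel₀ hA) n)
  simp only [Matrix.smul_mulVec, Matrix.sub_mulVec, ← Matrix.mulVec_mulVec, diagOp_wt _ _ hv,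
    smul_sub] at h1
  unfold kap
  rw [sub_smul ((A ^ 2) ^ (n - k) * (A⁻¹ ^ 2) ^ k), ← h1]
  abel

lemma raise_lower_pow {n k : ℕ} {A : ℂ} (hA : A ≠ 0) {v : Idx n → ℂ} (hv : Wt n k v)
    (h0 : raise n A A⁻¹ *ᵥ v = 0) (j : ℕ) :
    (A ^ 2 - A⁻¹ ^ 2) • (raise n A A⁻¹ *ᵥ ((lower n A A⁻¹ ^ (j + 1)) *ᵥ v)) =
      (∑ i ∈ Finset.range (j + 1), kap A n (k + i)) • ((lower n A A⁻¹ ^ j) *ᵥ v) := by
  induction j with
  | zero =>
    have := comm_wt hA hv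
    rw [h0, Matrix.mulVec_zero, smul_zero, zero_add] at this
    simpa using this
  | succ j ih =>
    rw [pow_succ' (lower n A A⁻¹) (j + 1), ← Matrix.mulVec_mulVec, comm_wt hA (lower_pow_wt _ _ hv (j + 1)),
      Finset.sum_range_succ, add_smul]
    congr 1
    rw [← Matrix.mulVec_smul, ih, Matrix.mulVec_smul, Matrix.mulVec_mulVec, ← pow_succ']

lemma kap_sum (A : ℂ) {n k : ℕ} (hk : 2 * k ≤ n) :
    ∑ i ∈ Finset.range (n - 2 * k + 1), kap A n (k + i) = 0 := by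
  have h1 := Finset.sum_range_reflect (fun i => kap A n (k + i)) (n - 2 * k + 1)
  have h2 : ∑ j ∈ Finset.range (n - 2 * k + 1), kap A n (k + (n - 2 * k + 1 - 1 - j)) =
      -∑ i ∈ Finset.range (n - 2 * k + 1), kap A n (k + i) := by
    rw [← Finset.sum_neg_distrib]
    refine Finset.sum_congr rfl fun j hj => ?_
    have hj' := Finset.mem_range.1 hj
    unfold kap
    rw [show k + (n - 2 * k + 1 - 1 - j) = n - (k + j) by omega,
      show n - (n - (k + j)) = k + j by omega]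
    ring
  rw [h1] at h2
  have h3 : (2 : ℂ) * ∑ i ∈ Finset.range (n - 2 * k + 1), kap A n (k + i) = 0 := by
    linear_combination h2
  exact (mul_eq_zero.1 h3).resolve_left two_ne_zero

/-- `F^{μ+1}` kills the highest weight vectors of weight `μ`. -/
lemma lower_vanish {n k : ℕ} {A : ℂ} (hg : Gen n A) (hd : A ^ 2 - A⁻¹ ^ 2 ≠ 0) {v : Idx n → ℂ}
    (hv : v ∈ block n A k) (hk : 2 * k ≤ n) : (lower n A A⁻¹ ^ (n - 2 * k + 1)) *ᵥ v = 0 := by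
  have h1 := raise_lower_pow hg.1 hv.2 hv.1 (n - 2 * k)
  rw [kap_sum A hk, zero_smul] at h1
  have h2 := (smul_eq_zero.1 h1).resolve_left hd
  refine lefschetz hg.1 n hg.2 1 (k + (n - 2 * k + 1)) _ (lower_pow_wt _ _ hv.2 _) (by omega) ?_
  rw [pow_one]
  exact h2

end Pool.Agent.AMU
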