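import Pool.Agent.AMU.Alg

open Matrix

namespace Pool.Agent.AMU

variable {R : Type*} [CommRing R]

/-! ### Entries and action of block operators -/

section blkEntries

variable {n : ℕ} (a b c d : Matrix (Idx n) (Idx n) R) (v : Idx (n + 1) → R)

/-- first half of a vector -/
def vl (v : Idx (n + 1) → R) : Idx n → R := fun x => v (Sum.inl x)

/-- second half of a vector -/
def vr (v : Idx (n + 1) → R) : Idx n → R := fun x => v (Sum.inr x)

lemma vl_blk : vl (blk a b c d *ᵥ v) = a *ᵥ vl v + b *ᵥ vr v := by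
  funext x
  have h := Matrix.fromBlocks_mulVec a b c d (v : Idx n ⊕ Idx n → R)
  exact congrFun h (Sum.inl x)

lemma vr_blk : vr (blk a b c d *ᵥ v) = c *ᵥ vl v + d *ᵥ vr v := by
  funext x
  have h := Matrix.fromBlocks_mulVec a b c d (v : Idx n ⊕ Idx n → R)
  exact congrFun h (Sum.inr x)

omit [CommRing R] in
lemma ext_lr {v w : Idx (n + 1) → R} (h1 : vl v = vl w) (h2 : vr v = vr w) : v = w := by
  funext x
  rcases x with x | x
  · exact congrFun h1 x
  · exact congrFun h2 x

end blkEntries

/-! ### Grading -/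

/-- `M` preserves the number of ones. -/
def Graded {n : ℕ} (M : Matrix (Idx n) (Idx n) R) : Prop :=
  ∀ x x', ones n x ≠ ones n x' → M x x' = 0

lemma graded_one {n : ℕ} : Graded (1 : Matrix (Idx n) (Idx n) R) := by
  intro x x' h
  rw [Matrix.one_apply_ne]
  rintro rfl
  exact h rfl

lemma graded_zero {n : ℕ} : Graded (0 : Matrix (Idx n) (Idx n) R) := fun _ _ _ => rfl

lemma Graded.add {n : ℕ} {M M' : Matrix (Idx n) (Idx n) R} (h : Graded M) (h' : Graded M') :
    Graded (M + M') := by
  intro x x' hx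
  rw [Matrix.add_apply, h x x' hx, h' x x' hx, add_zero]

lemma Graded.smul {n : ℕ} {M : Matrix (Idx n) (Idx n) R} (h : Graded M) (c : R) :
    Graded (c • M) := by
  intro x x' hx
  rw [Matrix.smul_apply, h x x' hx, smul_zero]

lemma Graded.mul {n : ℕ} {M M' : Matrix (Idx n) (Idx n) R} (h : Graded M) (h' : Graded M') :
    Graded (M * M') := by
  intro x x' hx
  rw [Matrix.mul_apply]
  refine Finset.sum_eq_zero fun y _ => ?_
  by_cases h1 : ones n x = ones n y
  · rw [h' y x' (fun h2 => hx (h1.trans h2)), mul_zero]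
  · rw [h x y h1, zero_mul]

lemma Graded.blk {n : ℕ} {a d : Matrix (Idx n) (Idx n) R} (h : Graded a) (h' : Graded d) :
    Graded (blk a 0 0 d) := by
  intro x x' hx
  rcases x with x | x <;> rcases x' with x' | x'
  · exact h x x' hx
  · rfl
  · rfl
  · exact h' x x' (fun h => hx (congrArg (· + 1) h))

lemma graded_tlLast (n : ℕ) (y z : R) : Graded (tlLast n y z) := by
  intro x x' hx
  unfold tlLast
  rcases x with (x | x) | (x | x) <;> rcases x' with (x' | x') | (x' | x')
  all_goals first
    | rfl
    | (show (1 : Matrix (Idx n) (Idx n) R) x x' = 0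
       exact graded_one x x' (fun h => hx (congrArg (· + 1) h)))
    | (show (-(z ^ 2) • (1 : Matrix (Idx n) (Idx n) R)) x x' = 0
       exact graded_one.smul _ x x' (fun h => hx (congrArg (· + 1) h)))
    | (show (-(y ^ 2) • (1 : Matrix (Idx n) (Idx n) R)) x x' = 0
       exact graded_one.smul _ x x' (fun h => hx (congrArg (· + 1) h)))

lemma graded_tl (y z : R) : ∀ n i, Graded (tl n y z i)
  | 0, i => graded_zero
  | 1, i => graded_zero
  | n + 2, i => by
    by_cases hi : i = n
    · subst hi
      rw [tl_last]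
      exact graded_tlLast _ _ _
    · rw [tl_of_ne hi]
      exact (graded_tl y z (n + 1) i).blk (graded_tl y z (n + 1) i)

lemma graded_letter (y z : R) (n : ℕ) (l : ℕ × Bool) : Graded (letter n y z l) := by
  unfold letter
  split_ifs
  · exact (graded_one.smul _).add ((graded_tl y z n l.1).smul _)
  · exact (graded_one.smul _).add ((graded_tl y z n l.1).smul _)

lemma graded_wordMat (y z : R) (n : ℕ) : ∀ w, Graded (wordMat n y z w)
  | [] => graded_one
  | l :: w => by
    have h : wordMat n y z (l :: w) = letter n y z l * wordMat n y z w := by simp [wordMat]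
    rw [h]
    exact (graded_letter y z n l).mul (graded_wordMat y z n w)

lemma graded_pow {n : ℕ} {M : Matrix (Idx n) (Idx n) R} (h : Graded M) : ∀ p : ℕ, Graded (M ^ p)
  | 0 => by rw [pow_zero]; exact graded_one
  | p + 1 => by rw [pow_succ]; exact (graded_pow h p).mul h

lemma graded_diagOp (a b : R) : ∀ n, Graded (diagOp a b n)
  | 0 => graded_one
  | n + 1 => ((graded_diagOp a b n).smul a).blk ((graded_diagOp a b n).smul b)

lemma raise_entry (y z : R) : ∀ n (x x' : Idx n), ones n x' ≠ ones n x + 1 → raise n y z x x' = 0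
  | 0, _, _, _ => rfl
  | n + 1, x, x', hx => by
    have h1 := raise_entry y z n
    have h2 : Graded (kinv n y z) := by rw [kinv_eq]; exact graded_diagOp _ _ _
    rw [raise_succ]
    rcases x with x | x <;> rcases x' with x' | x'
    · show (y • raise n y z) x x' = 0
      rw [Matrix.smul_apply, h1 x x' hx, smul_zero]
    · show kinv n y z x x' = 0
      exact h2 x x' (fun h => hx (by rw [show ones (n + 1) (Sum.inr x') = ones n x' + 1 from rfl, ← h]; rfl))
    · rfl
    · show (z • raise n y z) x x' = 0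
      rw [Matrix.smul_apply, h1 x x' (fun h => hx (congrArg (· + 1) h)), smul_zero]

/-- `v` is a vector of weight `k` (number of ones). -/
def Wt (n k : ℕ) (v : Idx n → R) : Prop := ∀ x, ones n x ≠ k → v x = 0

lemma Wt.mulVec {n k : ℕ} {M : Matrix (Idx n) (Idx n) R} (h : Graded M) {v : Idx n → R}
    (hv : Wt n k v) : Wt n k (M *ᵥ v) := by
  intro x hx
  rw [Matrix.mulVec, dotProduct]
  refine Finset.sum_eq_zero fun y _ => ?_
  by_cases h1 : ones n x = ones n y
  · rw [hv y (fun h2 => hx (h1.trans h2)), mul_zero]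
  · rw [h x y h1, zero_mul]

lemma Wt.raise {n k : ℕ} {v : Idx n → R} (y z : R) (hv : Wt n (k + 1) v) :
    Wt n k (raise n y z *ᵥ v) := by
  intro x hx
  rw [Matrix.mulVec, dotProduct]
  refine Finset.sum_eq_zero fun x' _ => ?_
  by_cases h1 : ones n x' = ones n x + 1
  · rw [hv x' (fun h2 => hx (by omega)), mul_zero]
  · rw [raise_entry y z n x x' h1, zero_mul]

lemma raise_wt_zero {n : ℕ} {v : Idx n → R} (y z : R) (hv : Wt n 0 v) :
    Pool.Agent.AMU.raise n y z *ᵥ v = 0 := by
  funext x
  rw [Matrix.mulVec, dotProduct]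
  refine Finset.sum_eq_zero fun x' _ => ?_
  by_cases h1 : ones n x' = ones n x + 1
  · rw [hv x' (by omega), mul_zero]
  · rw [raise_entry y z n x x' h1, zero_mul]

lemma ones_le : ∀ n (x : Idx n), ones n x ≤ n
  | 0, _ => le_rfl
  | n + 1, x => by
    rcases x with x | x
    · have := ones_le n x
      show ones n x ≤ n + 1
      omega
    · have := ones_le n x
      show ones n x + 1 ≤ n + 1
      omega

lemma diagOp_mulVec (a b : R) : ∀ n (v : Idx n → R) (x : Idx n),
    (diagOp a b n *ᵥ v) x = a ^ (n - ones n x) * b ^ ones n x * v x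
  | 0, v, x => by
    show ((1 : Matrix (Idx 0) (Idx 0) R) *ᵥ v) x = a ^ 0 * b ^ 0 * v x
    simp
  | n + 1, v, x => by
    rcases x with x | x
    · have h := congrFun (vl_blk (a • diagOp a b n) 0 0 (b • diagOp a b n) v) x
      have h1 := diagOp_mulVec a b n (vl v) x
      have h2 := ones_le n x
      show vl (blk (a • diagOp a b n) 0 0 (b • diagOp a b n) *ᵥ v) x =
        a ^ (n + 1 - ones n x) * b ^ ones n x * v (Sum.inl x)
      rw [h, Pi.add_apply, Matrix.smul_mulVec, Pi.smul_apply, h1, Matrix.zero_mulVec, Pi.zero_apply,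
        add_zero, show n + 1 - ones n x = (n - ones n x) + 1 by omega, pow_succ, smul_eq_mul]
      show a * (a ^ (n - ones n x) * b ^ ones n x * v (Sum.inl x)) = _
      ring
    · have h := congrFun (vr_blk (a • diagOp a b n) 0 0 (b • diagOp a b n) v) x
      have h1 := diagOp_mulVec a b n (vr v) x
      have h2 := ones_le n x
      show vr (blk (a • diagOp a b n) 0 0 (b • diagOp a b n) *ᵥ v) x =
        a ^ (n + 1 - (ones n x + 1)) * b ^ (ones n x + 1) * v (Sum.inr x)
      rw [h, Pi.add_apply, Matrix.smul_mulVec, Pi.smul_apply, h1, Matrix.zero_mulVec, Pi.zero_apply,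
        zero_add, show n + 1 - (ones n x + 1) = n - ones n x by omega, pow_succ, smul_eq_mul]
      show b * (a ^ (n - ones n x) * b ^ ones n x * v (Sum.inr x)) = _
      ring

lemma diagOp_wt (a b : R) {n k : ℕ} {v : Idx n → R} (hv : Wt n k v) :
    diagOp a b n *ᵥ v = (a ^ (n - k) * b ^ k) • v := by
  funext x
  rw [diagOp_mulVec, Pi.smul_apply, smul_eq_mul]
  by_cases h : ones n x = k
  · rw [h]
  · rw [hv x h]; ring

lemma diagOp_one (n : ℕ) : diagOp (1 : R) 1 n = 1 := by
  induction n with
  | zero => rfl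
  | succ n ih => rw [diagOp_succ, ih, blk_one]; simp

lemma diagOp_mul (a b a' b' : R) : ∀ n, diagOp a b n * diagOp a' b' n = diagOp (a * a') (b * b') n
  | 0 => by
    show (1 : Matrix (Idx 0) (Idx 0) R) * 1 = 1
    simp
  | n + 1 => by
    rw [diagOp_succ, diagOp_succ, diagOp_succ, blk_mul, ← diagOp_mul a b a' b' n]
    simp [smul_smul, mul_comm a' a, mul_comm b' b]

lemma diagOp_pow (a b : R) (n p : ℕ) : diagOp a b n ^ p = diagOp (a ^ p) (b ^ p) n := by
  induction p with
  | zero => simp [diagOp_one]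
  | succ p ih => rw [pow_succ, ih, diagOp_mul, pow_succ, pow_succ]

end Pool.Agent.AMU
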