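import Pool.Agent.AMU.Cable

open Matrix

namespace Pool.Agent.AMU

lemma off_succ (c : ℕ → ℕ) (i : ℕ) : off c (i + 1) = off c i + c i := by
  unfold off
  rw [Finset.sum_range_succ]

lemma off_mono (c : ℕ → ℕ) {i j : ℕ} (h : i ≤ j) : off c i ≤ off c j := by
  induction j, h using Nat.le_induction with
  | base => exact le_rfl
  | succ j _ ih => rw [off_succ]; omega

/-- remove two strands from the cable `l` -/
def red (c : ℕ → ℕ) (l : ℕ) : ℕ → ℕ := Function.update c l (c l - 2)

lemma off_red_le (c : ℕ → ℕ) {l i : ℕ} (h : i ≤ l) : off (red c l) i = off c i := by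
  unfold off red
  refine Finset.sum_congr rfl fun j hj => ?_
  have := Finset.mem_range.1 hj
  rw [Function.update_of_ne (by omega)]

lemma off_red_gt (c : ℕ → ℕ) {l i : ℕ} (h : l < i) (hl : 2 ≤ c l) :
    off (red c l) i + 2 = off c i := by
  induction i, h using Nat.le_induction with
  | base =>
    rw [off_succ, off_succ, off_red_le c le_rfl]
    unfold red
    rw [Function.update_self]
    omega
  | succ j hj ih =>
    rw [off_succ, off_succ, ← ih]
    unfold red
    rw [Function.update_of_ne (by omega)]
    omega

lemma cs_apply_left (c : ℕ → ℕ) (i : ℕ) : cs c i i = c (i + 1) := by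
  simp [cs]

lemma cs_apply_right (c : ℕ → ℕ) (i : ℕ) : cs c i (i + 1) = c i := by
  simp [cs]

lemma cs_apply_ne (c : ℕ → ℕ) {i j : ℕ} (h1 : j ≠ i) (h2 : j ≠ i + 1) : cs c i j = c j := by
  unfold cs
  rw [Function.comp_apply, Equiv.swap_apply_of_ne_of_ne h1 h2]

lemma cs_cs (c : ℕ → ℕ) (i : ℕ) : cs (cs c i) i = c := by
  funext j
  unfold cs
  simp

lemma cs_swap (c : ℕ → ℕ) (i l : ℕ) : cs c i (Equiv.swap i (i + 1) l) = c l := by
  unfold cs
  simp

lemma off_cs_le (c : ℕ → ℕ) {i j : ℕ} (h : j ≤ i) : off (cs c i) j = off c j := by
  unfold off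
  refine Finset.sum_congr rfl fun l hl => ?_
  have := Finset.mem_range.1 hl
  exact cs_apply_ne c (by omega) (by omega)

lemma off_cs_ge (c : ℕ → ℕ) {i j : ℕ} (h : i + 2 ≤ j) : off (cs c i) j = off c j := by
  induction j, h using Nat.le_induction with
  | base =>
    rw [off_succ, off_succ, off_succ, off_succ, off_cs_le c le_rfl, cs_apply_left, cs_apply_right]
    ring
  | succ j hj ih => rw [off_succ, off_succ, ih, cs_apply_ne c (by omega) (by omega)]

lemma red_cs (c : ℕ → ℕ) (i l : ℕ) : red (cs c i) (Equiv.swap i (i + 1) l) = cs (red c l) i := by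
  funext j
  unfold red
  rw [cs_swap]
  by_cases h : j = Equiv.swap i (i + 1) l
  · subst h
    rw [Function.update_self, cs_swap, Function.update_self]
  · rw [Function.update_of_ne h]
    unfold cs
    rw [Function.comp_apply, Function.comp_apply, Function.update_of_ne]
    intro h2
    apply h
    rw [← h2]
    simp

section slide

variable {R : Type*} [CommRing R] {n : ℕ} (y z : R) (h : y * z = 1)

include h

lemma slide_true {c : ℕ → ℕ} {i l u m : ℕ} (hi : i + 1 < m) (hl : l < m) (hu : u + 2 ≤ c l)
    (hn : off c m ≤ n) :
    Phi n y z (off (cs c i) (Equiv.swap i (i + 1) l) + u) *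
      wordMat n y z (blockLetter c (i, true)) =
    wordMat n y z (blockLetter (red c l) (i, true)) * Phi n y z (off c l + u) := by
  have hbl : ∀ c : ℕ → ℕ, blockLetter c (i, true) = bw (off c i) (c i) (c (i + 1)) := fun c => by
    simp [blockLetter]
  have hn2 : off c i + c i + c (i + 1) ≤ n := by
    have h1 := off_mono c (show i + 2 ≤ m by omega)
    rw [off_succ, off_succ] at h1
    omega
  rw [hbl, hbl]
  rcases Nat.lt_or_ge l i with h1 | h1
  · rw [Equiv.swap_apply_of_ne_of_ne (by omega) (by omega), off_cs_le c (by omega)]
    have h2 : off c (l + 1) ≤ off c i := off_mono c (by omega)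
    rw [off_succ] at h2
    have h3 := off_red_gt c (l := l) (i := i) (by omega) (by omega)
    have h4 : red c l i = c i := by unfold red; rw [Function.update_of_ne (by omega)]
    have h5 : red c l (i + 1) = c (i + 1) := by unfold red; rw [Function.update_of_ne (by omega)]
    rw [h4, h5, show off (red c l) i = off c i - 2 by omega]
    exact bw_outL n y z h (by omega) hn2
  · rcases Nat.eq_or_lt_of_le h1 with h1 | h1
    · subst h1
      rw [Equiv.swap_apply_left, off_succ, off_cs_le c le_rfl, cs_apply_left, off_red_le c le_rfl]
      have h4 : red c i i = c i - 2 := by unfold red; rw [Function.update_self]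
      have h5 : red c i (i + 1) = c (i + 1) := by
        unfold red; rw [Function.update_of_ne (by omega)]
      rw [h4, h5]
      exact bw_left n y z h hu _ hn2
    · rcases Nat.eq_or_lt_of_le h1 with h1 | h1
      · obtain rfl : l = i + 1 := by omega
        rw [Equiv.swap_apply_right, off_cs_le c le_rfl, off_red_le c (by omega), off_succ]
        have h4 : red c (i + 1) i = c i := by unfold red; rw [Function.update_of_ne (by omega)]
        have h5 : red c (i + 1) (i + 1) = c (i + 1) - 2 := by unfold red; rw [Function.update_self]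
        rw [h4, h5]
        exact bw_right n y z h _ hu hn2
      · rw [Equiv.swap_apply_of_ne_of_ne (by omega) (by omega), off_cs_ge c (by omega),
          off_red_le c (by omega)]
        have h4 : red c l i = c i := by unfold red; rw [Function.update_of_ne (by omega)]
        have h5 : red c l (i + 1) = c (i + 1) := by
          unfold red; rw [Function.update_of_ne (by omega)]
        rw [h4, h5]
        refine phi_word_low n y z _ fun x hx => ?_
        have h6 := mem_bw hx
        have h7 : off c (i + 2) ≤ off c l := off_mono c (by omega)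
        rw [off_succ, off_succ] at h7
        omega

lemma slide_letter {c : ℕ → ℕ} {x : ℕ × Bool} {l u m : ℕ} (hi : x.1 + 1 < m) (hl : l < m)
    (hu : u + 2 ≤ c l) (hn : off c m ≤ n) :
    Phi n y z (off (cs c x.1) (Equiv.swap x.1 (x.1 + 1) l) + u) *
      wordMat n y z (blockLetter c x) =
    wordMat n y z (blockLetter (red c l) x) * Phi n y z (off c l + u) := by
  rcases x with ⟨i, s⟩
  cases s
  · have hbl : ∀ c : ℕ → ℕ, blockLetter c (i, false) = winv (blockLetter (cs c i) (i, true)) := by
      intro c
      simp only [blockLetter, Bool.false_eq_true, if_false, if_true]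
      rw [off_cs_le c le_rfl, cs_apply_left, cs_apply_right]
    have hi' : i + 1 < m := hi
    have hls : Equiv.swap i (i + 1) l < m := by
      rcases eq_or_ne l i with h2 | h2
      · rw [h2, Equiv.swap_apply_left]; exact hi'
      · rcases eq_or_ne l (i + 1) with h3 | h3
        · rw [h3, Equiv.swap_apply_right]; omega
        · rw [Equiv.swap_apply_of_ne_of_ne h2 h3]; exact hl
    have h1 := slide_true y z h (c := cs c i) (i := i) (l := Equiv.swap i (i + 1) l) (u := u) (m := m)
      (n := n) hi' hls (by rw [cs_swap]; exact hu) (by rw [off_cs_ge c (by omega)]; exact hn)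
    rw [cs_cs, Equiv.swap_apply_self, red_cs] at h1
    show Phi n y z (off (cs c i) (Equiv.swap i (i + 1) l) + u) *
      wordMat n y z (blockLetter c (i, false)) =
      wordMat n y z (blockLetter (red c l) (i, false)) * Phi n y z (off c l + u)
    rw [hbl, hbl]
    have e1 := wordMat_mul_winv n y z h (blockLetter (cs c i) (i, true))
    have e2 := winv_mul_wordMat n y z h (blockLetter (cs (red c l) i) (i, true))
    calc Phi n y z (off (cs c i) (Equiv.swap i (i + 1) l) + u) *
          wordMat n y z (winv (blockLetter (cs c i) (i, true)))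
        = (wordMat n y z (winv (blockLetter (cs (red c l) i) (i, true))) *
            wordMat n y z (blockLetter (cs (red c l) i) (i, true))) *
            Phi n y z (off (cs c i) (Equiv.swap i (i + 1) l) + u) *
          wordMat n y z (winv (blockLetter (cs c i) (i, true))) := by rw [e2, Matrix.one_mul]
      _ = wordMat n y z (winv (blockLetter (cs (red c l) i) (i, true))) *
            (Phi n y z (off c l + u) * wordMat n y z (blockLetter (cs c i) (i, true))) *
          wordMat n y z (winv (blockLetter (cs c i) (i, true))) := by
            rw [h1]; simp only [Matrix.mul_assoc]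
      _ = wordMat n y z (winv (blockLetter (cs (red c l) i) (i, true))) *
            Phi n y z (off c l + u) := by
            rw [Matrix.mul_assoc, Matrix.mul_assoc, e1, Matrix.mul_one]
  · exact slide_true y z h hi hl hu hn

/-- letters on the first `m` strands -/
def Letters (m : ℕ) (w : List (ℕ × Bool)) : Prop := ∀ x ∈ w, x.1 + 1 < m

omit h in
lemma outl_lt {m l : ℕ} (hl : l < m) : ∀ {w : List (ℕ × Bool)}, Letters m w → outl l w < m
  | [], _ => hl
  | x :: w, hw => by
    have h1 := outl_lt hl (w := w) fun x hx => hw x (by simp [hx])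
    have h2 := hw x (by simp)
    rw [outl]
    rcases eq_or_ne (outl l w) x.1 with h3 | h3
    · rw [h3, Equiv.swap_apply_left]; exact h2
    · rcases eq_or_ne (outl l w) (x.1 + 1) with h4 | h4
      · rw [h4, Equiv.swap_apply_right]; omega
      · rw [Equiv.swap_apply_of_ne_of_ne h3 h4]; exact h1

omit h in
lemma off_outc (c : ℕ → ℕ) {m : ℕ} : ∀ {w : List (ℕ × Bool)}, Letters m w →
    off (outc c w) m = off c m
  | [], _ => rfl
  | x :: w, hw => by
    have h2 := hw x (by simp)
    rw [outc, off_cs_ge _ (by omega)]
    exact off_outc c fun x hx => hw x (by simp [hx])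

omit h in
lemma outc_outl (c : ℕ → ℕ) (l : ℕ) : ∀ w : List (ℕ × Bool), outc c w (outl l w) = c l
  | [] => rfl
  | x :: w => by rw [outc, outl, cs_swap, outc_outl c l w]

omit h in
lemma red_outc (c : ℕ → ℕ) (l : ℕ) : ∀ w : List (ℕ × Bool),
    red (outc c w) (outl l w) = outc (red c l) w
  | [] => rfl
  | x :: w => by rw [outc, outl, red_cs, red_outc c l w, outc]

/-- The cup inside the cable `l` slides through the cabled word. -/
lemma slide_word {c : ℕ → ℕ} {l u m : ℕ} (hl : l < m) (hu : u + 2 ≤ c l) (hn : off c m ≤ n) :
    ∀ {w : List (ℕ × Bool)}, Letters m w →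
    Phi n y z (off (outc c w) (outl l w) + u) * wordMat n y z (cab c w) =
      wordMat n y z (cab (red c l) w) * Phi n y z (off c l + u)
  | [], _ => by
    show Phi n y z (off c l + u) * wordMat n y z [] = wordMat n y z [] * Phi n y z (off c l + u)
    rw [wordMat_nil, Matrix.one_mul, Matrix.mul_one]
  | x :: w, hw => by
    have hw' : Letters m w := fun x hx => hw x (by simp [hx])
    have h1 := slide_word hl hu hn hw'
    have h2 := slide_letter y z h (c := outc c w) (x := x) (l := outl l w) (u := u) (m := m) (n := n)
      (hw x (by simp)) (outl_lt hl hw') (by rw [outc_outl]; exact hu) (by rw [off_outc c hw']; exact hn)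
    rw [outc, outl, cab, cab, wordMat_append, wordMat_append, ← Matrix.mul_assoc, h2,
      Matrix.mul_assoc, h1, ← Matrix.mul_assoc, red_outc]

end slide

/-- A pure braid word on `m` strands. -/
def PureWord (m : ℕ) (w : List (ℕ × Bool)) : Prop := Letters m w ∧ ∀ l, outl l w = l

lemma outc_pure {m : ℕ} {w : List (ℕ × Bool)} (hw : PureWord m w) (c : ℕ → ℕ) : outc c w = c := by
  funext l
  have := outc_outl c l w
  rwa [hw.2 l] at this

lemma cab_append (c : ℕ → ℕ) : ∀ u v : List (ℕ × Bool), cab c (u ++ v) = cab (outc c v) u ++ cab c v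
  | [], v => by simp [cab]
  | x :: u, v => by
    have h1 : ∀ u v : List (ℕ × Bool), outc c (u ++ v) = outc (outc c v) u := by
      intro u v
      induction u with
      | nil => rfl
      | cons x u ih => show cs (outc c (u ++ v)) x.1 = cs (outc (outc c v) u) x.1; rw [ih]
    rw [List.cons_append, cab, cab_append c u v, cab, h1, List.append_assoc]

lemma winv_append (u v : List (ℕ × Bool)) : winv (u ++ v) = winv v ++ winv u := by
  simp [winv]

lemma winv_winv (u : List (ℕ × Bool)) : winv (winv u) = u := by
  simp [winv, List.map_reverse, List.map_map, Function.comp_def, linv_linv]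

lemma outc_winv (c : ℕ → ℕ) : ∀ u : List (ℕ × Bool), outc (outc c u) (winv u) = c
  | [] => rfl
  | x :: u => by
    have h1 : ∀ u v : List (ℕ × Bool), ∀ c, outc c (u ++ v) = outc (outc c v) u := by
      intro u v c
      induction u with
      | nil => rfl
      | cons x u ih => show cs (outc c (u ++ v)) x.1 = cs (outc (outc c v) u) x.1; rw [ih]
    have h2 : winv (x :: u) = winv u ++ [linv x] := by simp [winv]
    rw [h2, h1]
    show outc (cs (cs (outc c u) x.1) x.1) (winv u) = c
    rw [cs_cs, outc_winv c u]

lemma cab_winv (c : ℕ → ℕ) : ∀ u : List (ℕ × Bool), cab (outc c u) (winv u) = winv (cab c u)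
  | [] => rfl
  | x :: u => by
    have h2 : winv (x :: u) = winv u ++ [linv x] := by simp [winv]
    have h3 : outc (outc c (x :: u)) [linv x] = outc c u := by
      show cs (cs (outc c u) x.1) x.1 = outc c u
      exact cs_cs _ _
    have h4 : cab (outc c (x :: u)) [linv x] = winv (blockLetter (outc c u) x) := by
      show blockLetter (cs (outc c u) x.1) (linv x) ++ [] = _
      rw [List.append_nil]
      rcases x with ⟨i, s⟩
      cases s
      · simp only [blockLetter, linv, Bool.not_false, if_true, Bool.false_eq_true, if_false]
        rw [off_cs_le _ le_rfl, cs_apply_left, cs_apply_right, winv_winv]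
      · simp only [blockLetter, linv, Bool.not_true, if_true, Bool.false_eq_true, if_false]
        rw [off_cs_le _ le_rfl, cs_apply_left, cs_apply_right]
    rw [h2, cab_append, h3, cab_winv c u, h4, cab, winv_append]

end Pool.Agent.AMU
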