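import Pool.Agent.AMU.Pos

open Matrix

namespace Pool.Agent.AMU

lemma dot_split {n : ℕ} (u w : Idx (n + 1) → ℂ) :
    star u ⬝ᵥ w = star (vl u) ⬝ᵥ vl w + star (vr u) ⬝ᵥ vr w := by
  show ∑ i : Idx n ⊕ Idx n, star u i * w i = _
  rw [Fintype.sum_sum_type]
  rfl

lemma form_zero_succ {n : ℕ} (A : ℂ) (u v : Idx (n + 1) → ℂ) :
    form (n + 1) A 0 u v = form n A 0 (vl u) (vr v) + form n A 0 (vr u) (vl v) := by
  unfold form
  rw [dot_split, pow_zero, pow_zero, Matrix.mul_one, Matrix.mul_one, flip_succ, vl_blk, vr_blk]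
  simp

lemma form_succ {n : ℕ} {A : ℂ} (hA : A ≠ 0) (m k : ℕ) (u v : Idx (n + 1) → ℂ)
    (hv : Wt n k (vl v)) :
    form (n + 1) A (m + 1) u v = sco A A⁻¹ m * (A⁻¹ ^ (n - (k + m)) * A ^ (k + m)) *
        form n A m (vl u) (vl v) + A⁻¹ ^ (m + 1) * form n A (m + 1) (vl u) (vr v) +
      A ^ (m + 1) * form n A (m + 1) (vr u) (vl v) := by
  have h1 : (kinv n A A⁻¹ * lower n A A⁻¹ ^ m) *ᵥ vl v =
      (A⁻¹ ^ (n - (k + m)) * A ^ (k + m)) • ((lower n A A⁻¹ ^ m) *ᵥ vl v) := by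
    rw [← Matrix.mulVec_mulVec, kinv_eq]
    exact diagOp_wt _ _ (lower_pow_wt _ _ hv m)
  unfold form
  rw [dot_split, lower_pow _ _ (mul_inv_cancel₀ hA), flip_succ, blk_mul, vl_blk, vr_blk]
  simp only [Matrix.zero_mul, Matrix.mul_zero, zero_add, add_zero, Matrix.mul_smul,
    Matrix.smul_mulVec, Matrix.zero_mulVec, dotProduct_add, dotProduct_smul, smul_eq_mul,
    smul_zero, dotProduct_zero, mul_zero]
  rw [← Matrix.mulVec_mulVec (vl v) (flip n) (kinv n A A⁻¹ * lower n A A⁻¹ ^ m), h1,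
    Matrix.mulVec_smul, Matrix.mulVec_mulVec, dotProduct_smul, smul_eq_mul]
  ring

lemma sco_qr {n : ℕ} {t : ℝ} (ht : PosAngle n t) {A : ℂ} (hA : A = Complex.exp (t * Complex.I))
    (m : ℕ) : sco A A⁻¹ m * A ^ m = qr t (m + 1) := by
  have h0 : A ≠ 0 := ne_zero_of_unit (unit_of hA)
  have h6 : A * A⁻¹ = 1 := mul_inv_cancel₀ h0
  apply mul_left_cancel₀ (diff_ne ht hA)
  rw [qr_eq ht hA, sco_eq A A⁻¹ h6]
  have h1 := Commute.geom_sum₂_mul (Commute.all (A⁻¹ ^ 4) 1) (m + 1)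
  have h2 : (∑ b ∈ Finset.range (m + 1), (A⁻¹ ^ 4) ^ b) * (A⁻¹ ^ 4 - 1) =
      (A⁻¹ ^ 4) ^ (m + 1) - 1 := by
    simpa using h1
  have h3 : A ^ 2 - A⁻¹ ^ 2 = -A ^ 2 * (A⁻¹ ^ 4 - 1) := by
    linear_combination (A⁻¹ ^ 2 * (A * A⁻¹ + 1)) * h6
  have h4 : A ^ (2 * m + 2) * (A⁻¹ ^ 4) ^ (m + 1) = A⁻¹ ^ (2 * (m + 1)) := by
    have : (A⁻¹ ^ 4) ^ (m + 1) = A⁻¹ ^ (2 * m + 2) * A⁻¹ ^ (2 * (m + 1)) := by
      rw [← pow_mul, ← pow_add]; congr 1; ring
    rw [this, ← mul_assoc, ← mul_pow, h6, one_pow, one_mul]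
  rw [h3]
  linear_combination (-(A ^ (2 * m + 2))) * h2 - h4

/-- The hypothesis of the induction. -/
def PosAt (n : ℕ) (A : ℂ) : Prop := ∀ k, 2 * k ≤ n → ∀ u ∈ block n A k,
  ∃ r : ℝ, 0 ≤ r ∧ (r = 0 → u = 0) ∧ form n A (n - 2 * k) u u = (-1) ^ k * (r : ℂ)

lemma pos_zero (A : ℂ) : PosAt 0 A := by
  intro k hk u hu
  obtain rfl : k = 0 := by omega
  refine ⟨∑ x, ‖u x‖ ^ 2, by positivity, fun h => ?_, ?_⟩
  · funext x
    have h1 := (Finset.sum_eq_zero_iff_of_nonneg (fun x _ => by positivity)).1 h x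
      (Finset.mem_univ x)
    simpa using h1
  · unfold form
    show star u ⬝ᵥ (((1 : Matrix (Idx 0) (Idx 0) ℂ) * lower 0 A A⁻¹ ^ 0) *ᵥ u) = _
    rw [pow_zero, Matrix.mul_one, Matrix.one_mulVec, pow_zero, one_mul, dotProduct]
    push_cast
    refine Finset.sum_congr rfl fun x _ => ?_
    exact Complex.conj_mul' (u x)

lemma pos_succ_zero {n : ℕ} {t : ℝ} {A : ℂ} (hA : A = Complex.exp (t * Complex.I))
    (ht : PosAngle (n + 1) t) (ih : PosAt n A) (u : Idx (n + 1) → ℂ) (hu : u ∈ block (n + 1) A 0) :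
    ∃ r : ℝ, 0 ≤ r ∧ (r = 0 → u = 0) ∧ form (n + 1) A (n + 1) u u = (r : ℂ) := by
  have hu0 : A ≠ 0 := ne_zero_of_unit (unit_of hA)
  have hb : vr u = 0 := by
    funext x
    exact hu.2 (Sum.inr x) (by show ones n x + 1 ≠ 0; omega)
  have ha : vl u ∈ block n A 0 := by
    have hw : Wt n 0 (vl u) := fun x hx => hu.2 (Sum.inl x) hx
    exact ⟨raise_wt_zero _ _ hw, hw⟩
  obtain ⟨r, hr0, hr1, hr⟩ := ih 0 (by omega) (vl u) ha
  rw [Nat.mul_zero, Nat.sub_zero, pow_zero, one_mul] at hr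
  have hq := qr_pos ht (show 1 ≤ n + 1 by omega) le_rfl
  refine ⟨qr t (n + 1) * r, mul_nonneg hq.le hr0, fun h => ?_, ?_⟩
  · have h1 : r = 0 := (mul_eq_zero.1 h).resolve_left hq.ne'
    exact ext_lr (hr1 h1) hb
  · rw [form_succ hu0 n 0 u u ha.2, hb]
    have h1 : form n A (n + 1) (vl u) 0 = 0 := form_right_zero _ (by simp)
    have h2 : form n A (n + 1) 0 (vl u) = 0 := form_left_zero (unit_of hA) _ (by simp)
    rw [h1, h2, hr, Nat.zero_add, Nat.sub_self, pow_zero, one_mul, sco_qr ht hA]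
    push_cast
    ring

/-- data of a highest weight vector on `n + 1` strands -/
lemma hw_data {n k : ℕ} {t : ℝ} {A : ℂ} (hA : A = Complex.exp (t * Complex.I))
    (ht : PosAngle (n + 1) t) (hk : 2 * k + 1 ≤ n) (u : Idx (n + 1) → ℂ)
    (hu : u ∈ block (n + 1) A (k + 1)) :
    vr u ∈ block n A k ∧ Wt n (k + 1) (vl u) ∧
      raise n A A⁻¹ *ᵥ (vl u - (-(A⁻¹ ^ (n - 2 * k + 1)) / (qr t (n - 2 * k) : ℂ)) •
        (lower n A A⁻¹ *ᵥ vr u)) = 0 := by
  have hu0 : A ≠ 0 := ne_zero_of_unit (unit_of hA)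
  have h6 : A * A⁻¹ = 1 := mul_inv_cancel₀ hu0
  have hwr : Wt n k (vr u) := fun x hx => hu.2 (Sum.inr x) (fun h => hx (Nat.succ_injective h))
  have hwl : Wt n (k + 1) (vl u) := fun x hx => hu.2 (Sum.inl x) hx
  have h1 := hu.1
  rw [raise_succ] at h1
  have hl := congrArg vl h1
  have hr := congrArg vr h1
  have e1 : vl (0 : Idx (n + 1) → ℂ) = 0 := rfl
  have e2 : vr (0 : Idx (n + 1) → ℂ) = 0 := rfl
  rw [vl_blk, e1, Matrix.smul_mulVec] at hl
  rw [vr_blk, e2, Matrix.zero_mulVec, zero_add, Matrix.smul_mulVec] at hr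
  have hb0 : raise n A A⁻¹ *ᵥ vr u = 0 := (smul_eq_zero.1 hr).resolve_left (inv_ne_zero hu0)
  refine ⟨⟨hb0, hwr⟩, hwl, ?_⟩
  have hq0 : (qr t (n - 2 * k) : ℂ) ≠ 0 :=
    Complex.ofReal_ne_zero.2 (qr_pos ht (by omega) (by omega)).ne'
  have hkinv : kinv n A A⁻¹ *ᵥ vr u = A⁻¹ ^ (n - 2 * k) • vr u := by
    rw [kinv_eq, diagOp_wt _ _ hwr]
    congr 1
    rw [show n - k = (n - 2 * k) + k by omega, pow_add, mul_assoc, ← mul_pow, mul_comm A⁻¹ A, h6,
      one_pow, mul_one]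
  have hEa : raise n A A⁻¹ *ᵥ vl u = -(A⁻¹ ^ (n - 2 * k + 1)) • vr u := by
    have h2 : A • (raise n A A⁻¹ *ᵥ vl u) = -(A⁻¹ ^ (n - 2 * k) • vr u) := by
      rw [hkinv] at hl
      exact eq_neg_of_add_eq_zero_left hl
    have h3 := congrArg (fun x => A⁻¹ • x) h2
    simp only [smul_smul, smul_neg] at h3
    rw [mul_comm A⁻¹ A, h6, one_smul] at h3
    rw [h3, pow_succ', neg_smul]
  have hEF : raise n A A⁻¹ *ᵥ (lower n A A⁻¹ *ᵥ vr u) = (qr t (n - 2 * k) : ℂ) • vr u := by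
    have h2 := comm_wt hu0 hwr
    rw [hb0, Matrix.mulVec_zero, smul_zero, zero_add] at h2
    have h3 : kap A n k = (A ^ 2 - A⁻¹ ^ 2) * (qr t (n - 2 * k) : ℂ) := by
      rw [qr_eq ht hA]
      unfold kap
      have e3 : (A ^ 2) ^ (n - k) * (A⁻¹ ^ 2) ^ k = A ^ (2 * (n - 2 * k)) := by
        rw [show n - k = (n - 2 * k) + k by omega, pow_add, mul_assoc, ← mul_pow, ← mul_pow, h6,
          one_pow, one_pow, mul_one, ← pow_mul]
      have e4 : (A⁻¹ ^ 2) ^ (n - k) * (A ^ 2) ^ k = A⁻¹ ^ (2 * (n - 2 * k)) := by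
        rw [show n - k = (n - 2 * k) + k by omega, pow_add, mul_assoc, ← mul_pow, ← mul_pow,
          mul_comm A⁻¹ A, h6, one_pow, one_pow, mul_one, ← pow_mul]
      rw [e3, e4]
    rw [h3, mul_smul] at h2
    exact smul_right_injective _ (diff_ne ht hA) h2
  rw [Matrix.mulVec_sub, Matrix.mulVec_smul, hEa, hEF, smul_smul, div_mul_cancel₀ _ hq0, sub_self]

lemma form_eq_of_sub {n : ℕ} {A : ℂ} (hA : ‖A‖ = 1) (m : ℕ) (al : ℂ) (a a' b : Idx n → ℂ)
    (h : a = a' + al • (lower n A A⁻¹ *ᵥ b)) (hv : (lower n A A⁻¹ ^ (m + 1)) *ᵥ a' = 0) :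
    form n A m a a = form n A m a' a' + al * star al * form n A (m + 2) b b ∧
    form n A (m + 1) a b = star al * form n A (m + 2) b b ∧
    form n A (m + 1) b a = al * form n A (m + 2) b b := by
  subst h
  have h1 : form n A (m + 1) a' b = 0 := form_left_zero hA _ hv
  have h2 : form n A (m + 1) b a' = 0 := form_right_zero _ hv
  refine ⟨?_, ?_, ?_⟩
  · simp only [form_add_left, form_add_right, form_smul_left, form_smul_right, form_lower_left hA,
      form_lower_right, h1, h2]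
    ring
  · simp only [form_add_left, form_smul_left, form_lower_left hA, h1]
    ring
  · simp only [form_add_right, form_smul_right, form_lower_right, h2]
    ring

lemma pos_succ_succ {n k : ℕ} {t : ℝ} {A : ℂ} (hA : A = Complex.exp (t * Complex.I))
    (ht : PosAngle (n + 1) t) (ih : PosAt n A) (hk : 2 * (k + 1) ≤ n + 1) (u : Idx (n + 1) → ℂ)
    (hu : u ∈ block (n + 1) A (k + 1)) :
    ∃ r : ℝ, 0 ≤ r ∧ (r = 0 → u = 0) ∧
      form (n + 1) A (n + 1 - 2 * (k + 1)) u u = (-1) ^ (k + 1) * (r : ℂ) := by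
  have hun := unit_of hA
  have hu0 : A ≠ 0 := ne_zero_of_unit hun
  have h6 : A * A⁻¹ = 1 := mul_inv_cancel₀ hu0
  have htn := ht.mono (Nat.le_succ n)
  have hgen := gen_of_angle htn hA
  obtain ⟨hb, hwl, hE⟩ := hw_data hA ht (show 2 * k + 1 ≤ n by omega) u hu
  obtain ⟨rb, hrb0, hrb1, hrb⟩ := ih k (by omega) (vr u) hb
  set al : ℂ := -(A⁻¹ ^ (n - 2 * k + 1)) / (qr t (n - 2 * k) : ℂ) with hal
  have hq0 : (qr t (n - 2 * k) : ℂ) ≠ 0 :=
    Complex.ofReal_ne_zero.2 (qr_pos ht (by omega) (by omega)).ne'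
  have hsal : star al = -(A ^ (n - 2 * k + 1)) / (qr t (n - 2 * k) : ℂ) := by
    rw [hal, star_div₀, star_neg, star_pow, star_inv_unit hun]
    congr 1
    exact Complex.conj_ofReal _
  have hblk : vl u - al • (lower n A A⁻¹ *ᵥ vr u) ∈ block n A (k + 1) := by
    refine ⟨hE, fun x hx => ?_⟩
    have h1 := lower_wt A A⁻¹ hb.2 x hx
    rw [Pi.sub_apply, Pi.smul_apply, h1, hwl x hx, smul_zero, sub_zero]
  rcases Nat.lt_or_ge n (2 * (k + 1)) with hn | hn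
  · -- `n + 1 = 2 (k + 1)`
    obtain rfl : n = 2 * k + 1 := by omega
    have hz : vl u = al • (lower (2 * k + 1) A A⁻¹ *ᵥ vr u) := by
      by_contra hne
      have := block_wt_le hgen hblk (sub_ne_zero.2 hne)
      omega
    rw [show 2 * k + 1 - 2 * k = 1 by omega] at *
    rw [show 2 * k + 1 + 1 - 2 * (k + 1) = 0 by omega, form_zero_succ, hz, form_smul_left,
      form_smul_right, form_lower_left hun, form_lower_right, zero_add, hrb, hsal, hal, qr_one ht]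
    have hq2 := qr_pos ht (show 1 ≤ 2 by omega) (show 2 ≤ 2 * k + 1 + 1 by omega)
    have hrec := qr_rec ht hA 0
    rw [qr_zero, zero_add, qr_one ht] at hrec
    refine ⟨qr t 2 * rb, mul_nonneg hq2.le hrb0, fun h => ?_, ?_⟩
    · have h1 : rb = 0 := (mul_eq_zero.1 h).resolve_left hq2.ne'
      have h2 := hrb1 h1
      refine ext_lr ?_ h2
      rw [hz, h2, Matrix.mulVec_zero, smul_zero]
      rfl
    · push_cast at hrec ⊢
      linear_combination (-(-1) ^ k * (rb : ℂ)) * hrec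
  · obtain ⟨m, rfl⟩ : ∃ m, n = 2 * (k + 1) + m := ⟨n - 2 * (k + 1), by omega⟩
    obtain ⟨ra, hra0, hra1, hra⟩ := ih (k + 1) hn _ hblk
    have hvan := lower_vanish hgen (diff_ne ht hA) hblk hn
    rw [show 2 * (k + 1) + m - 2 * (k + 1) = m by omega] at hra hvan
    have e1 : 2 * (k + 1) + m - 2 * k = m + 2 := by omega
    rw [e1] at hrb hal hsal hq0
    obtain ⟨f1, f2, f3⟩ := form_eq_of_sub hun m al (vl u) _ (vr u) (by abel) hvan
    rw [show 2 * (k + 1) + m + 1 - 2 * (k + 1) = m + 1 by omega, form_succ hu0 m (k + 1) u u hwl,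
      f1, f2, f3, hra, hrb, show 2 * (k + 1) + m - (k + 1 + m) = k + 1 by omega]
    have hq1 := qr_pos ht (show 1 ≤ m + 1 by omega) (show m + 1 ≤ 2 * (k + 1) + m + 1 by omega)
    have hq2 := qr_pos ht (show 1 ≤ m + 2 by omega) (show m + 2 ≤ 2 * (k + 1) + m + 1 by omega)
    have hq3 := qr_pos ht (show 1 ≤ m + 3 by omega) (show m + 3 ≤ 2 * (k + 1) + m + 1 by omega)
    have hrec := qr_rec ht hA (m + 1)
    have hsc : sco A A⁻¹ m * (A⁻¹ ^ (k + 1) * A ^ (k + 1 + m)) = qr t (m + 1) := by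
      rw [← sco_qr ht hA m, pow_add A (k + 1) m, ← mul_assoc (A⁻¹ ^ (k + 1)), ← mul_pow,
        mul_comm A⁻¹ A, h6, one_pow, one_mul]
    rw [hsc]
    refine ⟨qr t (m + 1) * ra + qr t (m + 3) / (qr t (m + 2)) ^ 2 * rb, by positivity,
      fun h => ?_, ?_⟩
    · have hc : 0 < qr t (m + 3) / (qr t (m + 2)) ^ 2 := by positivity
      have h1 : 0 ≤ qr t (m + 1) * ra := by positivity
      have h2 : 0 ≤ qr t (m + 3) / (qr t (m + 2)) ^ 2 * rb := by positivity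
      have h3 : rb = 0 := by
        have : qr t (m + 3) / (qr t (m + 2)) ^ 2 * rb = 0 := by linarith
        exact (mul_eq_zero.1 this).resolve_left hc.ne'
      have h4 : ra = 0 := by
        have : qr t (m + 1) * ra = 0 := by linarith
        exact (mul_eq_zero.1 this).resolve_left hq1.ne'
      have h5 := hrb1 h3
      have h7 := hra1 h4
      rw [h5, Matrix.mulVec_zero, smul_zero, sub_zero] at h7
      exact ext_lr h7 h5
    · have g1 : al * star al = 1 / (qr t (m + 2) : ℂ) ^ 2 := by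
        rw [hsal, hal, div_mul_div_comm, neg_mul_neg, ← mul_pow, mul_comm A⁻¹ A, h6, one_pow, sq]
      have g2 : A⁻¹ ^ (m + 1) * star al = -(A ^ 2) / (qr t (m + 2) : ℂ) := by
        rw [hsal, ← mul_div_assoc, show m + 2 + 1 = (m + 1) + 2 by ring, pow_add A (m + 1) 2,
          mul_neg, ← mul_assoc, ← mul_pow, mul_comm A⁻¹ A, h6, one_pow, one_mul]
      have g3 : A ^ (m + 1) * al = -(A⁻¹ ^ 2) / (qr t (m + 2) : ℂ) := by
        rw [hal, ← mul_div_assoc, show m + 2 + 1 = (m + 1) + 2 by ring, pow_add A⁻¹ (m + 1) 2,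
          mul_neg, ← mul_assoc, ← mul_pow, h6, one_pow, one_mul]
      have hrec' : (A ^ 2 + A⁻¹ ^ 2) * (qr t (m + 2) : ℂ) = qr t (m + 3) + qr t (m + 1) := hrec
      have g4 : (qr t (m + 1) : ℂ) * (1 / (qr t (m + 2) : ℂ) ^ 2) + -(A ^ 2) / (qr t (m + 2) : ℂ) +
          -(A⁻¹ ^ 2) / (qr t (m + 2) : ℂ) = -((qr t (m + 3) : ℂ) / (qr t (m + 2) : ℂ) ^ 2) := by
        generalize A⁻¹ = B at hrec' ⊢
        field_simp
        linear_combination -hrec'
      push_cast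
      linear_combination ((-1) ^ k * (rb : ℂ) * (qr t (m + 1) : ℂ)) * g1 + ((-1) ^ k * (rb : ℂ)) * g2 +
        ((-1) ^ k * (rb : ℂ)) * g3 + ((-1) ^ k * (rb : ℂ)) * g4

/-- Positivity of the invariant form on the spaces of highest weight vectors. -/
lemma pos_block {t : ℝ} {A : ℂ} (hA : A = Complex.exp (t * Complex.I)) :
    ∀ n, PosAngle n t → PosAt n A
  | 0, _ => pos_zero A
  | n + 1, ht => by
    have ih := pos_block hA n (ht.mono (Nat.le_succ n))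
    intro k hk u hu
    rcases k with _ | k
    · obtain ⟨r, h0, h1, h2⟩ := pos_succ_zero hA ht ih u hu
      exact ⟨r, h0, h1, by rw [Nat.mul_zero, Nat.sub_zero, pow_zero, one_mul]; exact h2⟩
    · exact pos_succ_succ hA ht ih hk u hu

end Pool.Agent.AMU
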